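import Pool.Agent.Helper76x.OF.Stm2

/-!
# Project OF, piece ACT: `Act c N` is a subgroup which contains the inner automorphisms
-/

set_option autoImplicit false

namespace Pool.Agent.Helper76x.OF

open Mg

variable {n : ℕ}

theorem pow_vanish (t : Mg n) (ht : t [] = 0) (k : ℕ) :
    ∀ w : List (Fin n), w.length < k → (t ^ k) w = 0 := by
  induction k with
  | zero => intro w hw; omega
  | succ k ih =>
    intro w hw
    rw [pow_succ', mul_apply]
    refine Finset.sum_eq_zero fun j hj => ?_
    rw [Finset.mem_range] at hj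
    rcases Nat.eq_zero_or_pos j with rfl | hj0
    · rw [List.take_zero, ht, zero_mul]
    · rw [ih (w.drop j) (by rw [List.length_drop]; omega), mul_zero]

/-- The truncated inverse of a series with constant term `1`. -/
theorem trunc_inv (c : ℕ) (u : Mg n) (hu : u [] = 1) :
    ∃ s : Mg n, s [] = 1 ∧ Small c 0 (u * s - 1) ∧ Small c 0 (s * u - 1) := by
  have ht : (1 - u) [] = 0 := by rw [sub_apply, one_nil, hu, sub_self]
  have hv := pow_vanish (1 - u) ht (c + 1)
  have h1 := mul_neg_geom_sum (1 - u) (c + 1)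
  have h2 := geom_sum_mul_neg (1 - u) (c + 1)
  rw [sub_sub_cancel] at h1 h2
  have hs : ∀ w : List (Fin n), w.length ≤ c → (((0 : ℕ) : ℤ)) ∣ (1 - (1 - u) ^ (c + 1) - 1) w := by
    intro w hw
    rw [sub_sub_cancel_left, neg_apply, hv w (by omega), neg_zero]
    exact dvd_zero _
  refine ⟨∑ i ∈ Finset.range (c + 1), (1 - u) ^ i, ?_, ?_, ?_⟩
  · have h3 := congrFun h1 []
    rw [mul_nil, hu, one_mul, sub_apply, hv [] (by simp), one_nil, sub_zero] at h3
    exact h3
  · rw [h1]
    exact hs
  · rw [h2]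
    exact hs

theorem t_ACT : S_ACT := by
  intro n c N
  refine ⟨?_, ?_, ?_⟩
  · intro h
    refine ⟨mag h, mag_nil h, fun g => ?_⟩
    have : mag (MulAut.conj h g) * mag h - mag h * mag g = 0 := by
      rw [MulAut.conj_apply, ← map_mul, ← map_mul, inv_mul_cancel_right, sub_self]
    rw [this]
    exact small_zero c N
  · rintro φ ψ ⟨u, hu, h1⟩ ⟨v, hv, h2⟩
    refine ⟨u * v, by rw [mul_nil, hu, hv, one_mul], fun g => ?_⟩
    have : mag ((φ * ψ) g) * (u * v) - u * v * mag g =
        (mag (φ (ψ g)) * u - u * mag (ψ g)) * v + u * (mag (ψ g) * v - v * mag g) := by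
      rw [MulAut.mul_apply]
      noncomm_ring
    rw [this]
    exact ((h1 (ψ g)).mul_right v).add ((h2 g).mul_left u)
  · rintro φ ⟨u, hu, h1⟩
    obtain ⟨s, hs, e1, e2⟩ := trunc_inv c u hu
    refine ⟨s, hs, fun g => ?_⟩
    have h2 := h1 (φ⁻¹ g)
    rw [MulAut.apply_inv_self] at h2
    have : mag (φ⁻¹ g) * s - s * mag g =
        -(s * (mag g * u - u * mag (φ⁻¹ g)) * s) + s * mag g * (u * s - 1)
          - (s * u - 1) * (mag (φ⁻¹ g) * s) := by
      noncomm_ring
    rw [this]
    refine Small.sub (Small.add ?_ ?_) ?_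
    · exact ((h2.mul_left s).mul_right s).neg
    · exact (e1.mul_left _).mono le_rfl (dvd_zero N)
    · exact (e2.mul_right _).mono le_rfl (dvd_zero N)

end Pool.Agent.Helper76x.OF
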