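import Pool.Agent.Helper76x.OF.Defs

/-!
# Project OF (helper76): MP_181555_al, the pieces about the free group

See `Defs.lean` for the Magnus ring `Mg n` (the coefficients of a series are the values on words; `mul_apply`,
`mul_cons`, `X_mul_cons`, `mul_X_concat`), `Small c N f` (`N` divides the coefficients of the words of length `≤ c`;
`N = 0` means that they are zero) and `Act c N φ`. Write `D φ u g = mag (φ g) u - u mag g` (`dft`).
Files `Pool/Agent/Helper76x/OF/<Name>.lean`, theorem `t_<NAME> : S_<NAME>` (or with the listed statements as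
hypotheses), namespace `Pool.Agent.Helper76x.OF`.
-/

set_option autoImplicit false

namespace Pool.Agent.Helper76x.OF

open Mg

/-- The defect of `mag (φ g) = u (mag g) u⁻¹`. -/
def dft {n : ℕ} (φ : MulAut (FreeGroup (Fin n))) (u : Mg n) (g : FreeGroup (Fin n)) : Mg n :=
  mag (φ g) * u - u * mag g

/-- **ACT.** For `conj h` take `u = mag h`. For `φ ψ` take `u_φ u_ψ`:
`D (φ ψ) (u_φ u_ψ) g = D φ u_φ (ψ g) * u_ψ + u_φ * D ψ u_ψ g`. For `φ⁻¹`: let `t = 1 - u`, `t [] = 0`, so `t ^ k` vanishes on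
the words of length `< k`, and `s = ∑ k ∈ range (c+1), t ^ k` has `u s - 1`, `s u - 1` zero up to length `c`. From
`mag (φ g) u ≡ u mag g` we get `s mag (φ g) ≡ mag g s`; put `φ⁻¹ g` for `g`. -/
def S_ACT : Prop := ∀ (n c N : ℕ), (∀ h : FreeGroup (Fin n), Act c N (MulAut.conj h)) ∧
  (∀ φ ψ : MulAut (FreeGroup (Fin n)), Act c N φ → Act c N ψ → Act c N (φ * ψ)) ∧
  (∀ φ : MulAut (FreeGroup (Fin n)), Act c N φ → Act c N φ⁻¹)

/-- **COMM.** Choose `i` different from the last letter of `w` (`2 ≤ n`); then the coefficient of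
`X_i v - v X_i` at `i :: w` is `v w` (write `w = w' ++ [a]`, use `X_mul_cons`, `mul_X_concat`). -/
def S_COMM : Prop := ∀ (n c N : ℕ) (v : Mg n), 2 ≤ n → (∀ i : Fin n, Small c N (X i * v - v * X i)) →
  ∀ w : List (Fin n), 1 ≤ w.length → w.length + 1 ≤ c → (N : ℤ) ∣ v w

/-- **DADD.** `D φ u (g h) = mag (φ g) * D φ u h + D φ u g * mag h`, and the constant terms of `mag` are `1`
(`mag_nil`); as `D φ u` vanishes up to length `c`, on the words of length `c + 1` only the constant terms of the other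
factor count (`mul_apply`). So `g ↦ D φ u g w` is a homomorphism to `ℤ` (also modulo `N`, but here only for `ℤ`). For
(2): `Act 1 0 ψ` means that `ψ g` and `g` have the same coefficients of the words `[i]`, which are the exponent sums;
so `ψ g g⁻¹` is in the kernel of all homomorphisms to `ℤ` (a homomorphism `f` to `ℤ` is
`f g = ∑ i, mag g [i] * f (of i)`). -/
def S_DADD : Prop := ∀ (n c : ℕ) (φ : MulAut (FreeGroup (Fin n))) (u : Mg n), u [] = 1 →
  (∀ g, Small c 0 (dft φ u g)) →
  (∀ g h w, w.length = c + 1 → dft φ u (g * h) w = dft φ u g w + dft φ u h w) ∧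
  (∀ ψ : MulAut (FreeGroup (Fin n)), Act 1 0 ψ → ∀ g w, w.length = c + 1 →
    dft φ u (ψ g) w = dft φ u g w)

/-- **DGEN.** If `D φ u` vanishes up to length `c` on all `g` (modulo `N`) and up to length `c + 1` on the generators
then up to length `c + 1` on all `g`: the set of the `g` for which it holds is a subgroup, by the formula
of DADD. -/
def S_DGEN : Prop := ∀ (n c N : ℕ) (φ : MulAut (FreeGroup (Fin n))) (u : Mg n), u [] = 1 →
  (∀ g, Small c N (dft φ u g)) → (∀ i, Small (c + 1) N (dft φ u (FreeGroup.of i))) →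
  ∀ g, Small (c + 1) N (dft φ u g)

/-- **DCHG.** (1) Let `s` be the truncated inverse of `u` as in ACT (`u s - 1` and `s u - 1` vanish up to length
`c + 1`) and `v' = s u' - 1`, so `u' ≡ u (1 + v')` up to length `c + 1`, `v' [] = 0`. Then (up to length `c + 1`)
`D φ u' g ≡ D φ u g * (1 + v') + u * (mag g * v' - v' * mag g)`, so `mag g v' - v' mag g` is `0` modulo `N` up to
length `c` (multiply by `s`), in particular for `g = x_i`, that is `X_i v' - v' X_i`. Now look at `g = x_i`
and a word `w` of length `c + 1`: `D φ u g * (1 + v')` has the coefficient `D φ u x_i w` modulo `N`, and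
`u * (X_i v' - v' X_i)` the coefficient `(X_i v' - v' X_i) w` modulo `N`, which depends only on the values of `v'`
at words of length `c`. So let `v` be `v'` on the words of length `c` and zero on the others. (2) is the same
computation for `u' = u (1 + v)`. -/
def S_DCHG : Prop := ∀ (n c : ℕ) (φ : MulAut (FreeGroup (Fin n))) (u : Mg n), 1 ≤ c → u [] = 1 →
  (∀ (N : ℕ) (u' : Mg n), u' [] = 1 → (∀ g, Small c N (dft φ u g)) →
    (∀ g, Small c N (dft φ u' g)) → ∃ v : Mg n, (∀ w, w.length ≠ c → v w = 0) ∧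
      ∀ (i : Fin n) w, w.length = c + 1 → (N : ℤ) ∣ dft φ u' (FreeGroup.of i) w
        - dft φ u (FreeGroup.of i) w - (X i * v - v * X i) w) ∧
  (∀ v : Mg n, (∀ w, w.length ≠ c → v w = 0) → (∀ g, Small c 0 (dft φ u g)) →
    (∀ g, Small c 0 (dft φ (u * (1 + v)) g)) ∧
      ∀ (i : Fin n) w, w.length = c + 1 → dft φ (u * (1 + v)) (FreeGroup.of i) w
        = dft φ u (FreeGroup.of i) w + (X i * v - v * X i) w)

/-- **QUO.** `Q = T / A`, `T` the functions on `Fin n × {w // w.length = c + 1}` (finite index set), `A` the image of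
the functions `v` on the words of length `c` (extended by zero to a series) under `v ↦ X_i v - v X_i`; `τ f` is the class of the
restriction of `f`. Torsion-free: if `m f = X_i v - v X_i` on the words of length `c + 1` (everything else vanishes) then `m ∣ v`
by COMM (with `c + 1` for `c`), so `v = m v'`. -/
def S_QUO : Prop := ∀ (n c : ℕ), 2 ≤ n → 1 ≤ c → ∃ (Q : Type) (_ : AddCommGroup Q) (_ : Module.Finite ℤ Q)
  (τ : (Fin n → Mg n) →+ Q), (∀ (m : ℕ) (q : Q), 0 < m → m • q = 0 → q = 0) ∧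
    ∀ (f : Fin n → Mg n) (N : ℕ), (∃ q, τ f = N • q) ↔
      ∃ v : Mg n, (∀ w, w.length ≠ c → v w = 0) ∧
        ∀ i w, w.length = c + 1 → (N : ℤ) ∣ f i w - (X i * v - v * X i) w

/-- **STEP** (from ACT, DADD, DGEN, DCHG, QUO). For `φ` with `Act c 0 φ` choose `u` and let
`δ φ = τ (i ↦ D φ u x_i)` (and `δ φ = 0` otherwise). Independent of `u` by DCHG (1) with `N = 0` and QUO with `N = 0`.
Homomorphism: `D (φ ψ) (u_φ u_ψ) g = D φ u_φ (ψ g) * u_ψ + u_φ * D ψ u_ψ g`, on words of length `c + 1` only the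
constant terms of `u_φ`, `u_ψ` count, and `D φ u_φ (ψ x_i) w = D φ u_φ x_i w` by DADD. Kernel: if `δ φ = 0` QUO gives `v`, and
`u (1 - v)` satisfies the condition for `c + 1` by DCHG (2) (with `-v`) and DGEN; conversely use that `δ` is
independent of `u`. Last part: DCHG (1) for `u` and the `u'` of `Act (c+1) N φ`, and QUO for `N`. -/
def S_STEP : Prop := ∀ (n c : ℕ), 2 ≤ n → 1 ≤ c →
  ∃ (Q : Type) (_ : AddCommGroup Q) (_ : Module.Finite ℤ Q) (δ : MulAut (FreeGroup (Fin n)) → Q),
    (∀ (m : ℕ) (q : Q), 0 < m → m • q = 0 → q = 0) ∧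
    (∀ φ ψ, Act c 0 φ → Act c 0 ψ → δ (φ * ψ) = δ φ + δ ψ) ∧
    (∀ φ, Act c 0 φ → (δ φ = 0 ↔ Act (c + 1) 0 φ)) ∧
    (∀ (N : ℕ) φ, Act c 0 φ → Act (c + 1) N φ → ∃ q, δ φ = N • q)

/-- **MAT.** `P φ i j = mag (φ (of j)) [i]`. The map `g ↦ (mag g [i])_i` is a homomorphism `F → ℤ^n` (exponent sums;
`mag_nil`, `mul_apply`), so `mag (φ g) [i] = ∑ j, P φ i j * mag g [j]`, and `P` is multiplicative. With
`u [] = 1`: `(mag (φ g) u - u mag g) [i] = mag (φ g) [i] - mag g [i]`, and it vanishes at `[]`. For `P φ = 1` take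
`u = 1`. -/
def S_MAT : Prop := ∀ n : ℕ, ∃ P : MulAut (FreeGroup (Fin n)) →* Matrix (Fin n) (Fin n) ℤ,
  (∀ φ, P φ = 1 ↔ Act 1 0 φ) ∧
  (∀ (N : ℕ) φ, Act 1 N φ → ∀ i j, (N : ℤ) ∣ (P φ - 1) i j)

/-- **FIN.** `K0 = {g | Small c N (mag g - 1)}` is a normal subgroup of finite index (the map of `F` to the functions
`{w // w.length ≤ c} → ZMod N` has cosets of `K0` as fibres). `K` = the intersection of the images (or preimages) of `K0` under all
automorphisms: characteristic; of finite index since a finitely generated group has only finitely many subgroups of a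
given index (see `Pool/Agent/R569/CS/Layer.lean`: `charCore`). If `φ x = h x h⁻¹` modulo `K` then
`mag (φ x) mag h - mag h mag x = (mag k - 1) mag h mag x` with `k = φ x (h x h⁻¹)⁻¹`, so `u = mag h`. -/
def S_FIN : Prop := ∀ (n c N : ℕ), 0 < N → ∃ K : Subgroup (FreeGroup (Fin n)),
  K.Characteristic ∧ K.FiniteIndex ∧ ∀ φ : MulAut (FreeGroup (Fin n)),
    (∃ h, ∀ x, φ x * (h * x * h⁻¹)⁻¹ ∈ K) → Act c N φ

/-- **LIM** (from COMM). Let `u_c` be for `Act c 0 φ`. With the truncated inverse `s` of `u_c` (as in ACT, up to length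
`c`) `v = s u_{c+1} - 1` satisfies `X_i v - v X_i = 0` up to length `c` (see DCHG), so `v = 0` up to length `c - 1`, and
`u_{c+1} = u_c` up to length `c - 1`. Put `u w = u_{|w|+1} w`. Then `u = u_c` up to length `c - 1` for all `c ≥ 1`. -/
def S_LIM : Prop := ∀ (n : ℕ) (φ : MulAut (FreeGroup (Fin n))), 2 ≤ n → (∀ c, Act c 0 φ) →
  ∃ u : Mg n, u [] = 1 ∧ ∀ g, mag (φ g) * u = u * mag g

/-- **FOX.** Both parts for `r = single g 1` by induction on `g` (with `FreeGroup.induction_on`: the products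
`g h - 1 = (g - 1) h + (h - 1)`, `g h - 1 = g (h - 1) + (g - 1)`; `x⁻¹ - 1 = -(x - 1) x⁻¹ = - x⁻¹ (x - 1)`),
then linearly. -/
def S_FOX : Prop := ∀ (n : ℕ) (r : MonoidAlgebra ℤ (FreeGroup (Fin n))),
  (∃ (e : ℤ) (d : Fin n → MonoidAlgebra ℤ (FreeGroup (Fin n))),
    r = e • 1 + ∑ k, (MonoidAlgebra.single (FreeGroup.of k) 1 - 1) * d k) ∧
  (∃ (e : ℤ) (d : Fin n → MonoidAlgebra ℤ (FreeGroup (Fin n))),
    r = e • 1 + ∑ k, d k * (MonoidAlgebra.single (FreeGroup.of k) 1 - 1))

/-- **GRING** (from FOX). Let `W_i = mag (φ x_i) - 1`. The equation for `g = x_i` at the words `[]`, `[j]` gives `W_i [] = 0`,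
`W_i [j] = if i = j then 1 else 0`. (a) If `∑ W_k f_k = 0` then all `f_k = 0` (induction on the length of the word `w`; look
at `k :: w`). (b) If `W_i f = magR r` then `f ∈ range magR`: apply FOX, first part, to the image of `r` under `φ⁻¹` and map the result
by the ring automorphism `φ` of the group ring (`MonoidAlgebra.mapDomain`): `r = e + ∑ (φ x_k - 1) d_k`, so
`W_i f = e + ∑ W_k magR (d_k)`; the word `[]` gives `e = 0`, and (a) gives `f = magR (d_i)`. (c) `W_i = ∑ magR (d_{ik}) X_k` by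
FOX, second part, for `r = φ x_i`. Now write `u = 1 + ∑ u_k X_k`, `u_k w = u (w ++ [k])`. The equation `W_i u = u X_i` becomes
`∑_k magR (d_{ik}) X_k + ∑_k W_i u_k X_k = u X_i`. Compare the words `w ++ [k]`, `k ≠ i` (`mul_X_concat`): `W_i u_k = - magR (d_{ik})`. By
(b) `u_k ∈ range magR` (each `k` has an `i ≠ k` as `2 ≤ n`), and so is `u = 1 + ∑ u_k X_k`. -/
def S_GRING : Prop := ∀ (n : ℕ) (φ : MulAut (FreeGroup (Fin n))) (u : Mg n), 2 ≤ n → u [] = 1 →
  (∀ g, mag (φ g) * u = u * mag g) → ∃ r : MonoidAlgebra ℤ (FreeGroup (Fin n)), magR r = u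

/-- **INJ** (the Magnus embedding of the group ring). The Fox derivatives (explicit on reduced words `FreeGroup.toWord`): a reduced word
`g = x_j v` has `g - 1 = (x_j - 1) v + (v - 1)`, `g = x_j⁻¹ v` has `g - 1 = - (x_j - 1) g + (v - 1)`. So `r = e + ∑ (x_k - 1) D_k r` where `D_k g`
is a combination of proper suffixes of `g` and, if `g` begins with `x_k⁻¹`, of `- g`. As `magR ((x_k - 1) d) = X_k magR d`,
`magR r = 0` gives `e = 0` and `magR (D_k r) = 0` (`X_mul_cons`). Claim: `magR r = 0` gives `r = 0`, by induction on the maximal length `L` of the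
support of `r`. Let `t = D_j r`. The elements of length `L` in the support of `t` begin with `x_j⁻¹`. So `D_k t`, `k ≠ j`, and
`D_j t + t` have only elements of length `< L`, and `magR` is zero on them: they are zero. So `t = 0 + (x_j - 1) (- t)`, `x_j t = 0`,
`t = 0`. So all `D_j r = 0` and `r = 0`. -/
def S_INJ : Prop := ∀ (n : ℕ) (r : MonoidAlgebra ℤ (FreeGroup (Fin n))), magR r = 0 → r = 0

/-- **SUPP.** The support `S` of `u` is finite, not empty, and `φ g h g⁻¹ ∈ S` for `h ∈ S` (compare the coefficients at `φ g * h`). Fix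
`h ∈ S`. For `g` there are `0 ≤ a < b` with `φ g ^ a h g ^ (-a) = φ g ^ b h g ^ (-b)`, so `(h⁻¹ φ g h) ^ m = g ^ m` with
`m = b - a > 0`, so `h⁻¹ φ g h = g` (`IsMulTorsionFree (FreeGroup α)`, `pow_left_injective`). -/
def S_SUPP : Prop := ∀ (n : ℕ) (φ : MulAut (FreeGroup (Fin n))) (u : MonoidAlgebra ℤ (FreeGroup (Fin n))), u ≠ 0 →
  (∀ g, MonoidAlgebra.single (φ g) 1 * u = u * MonoidAlgebra.single g 1) → ∃ h, φ = MulAut.conj h

/-- **INN** (from LIM, GRING, INJ, SUPP; ten lines; helper76). -/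
def S_INN : Prop := ∀ (n : ℕ) (φ : MulAut (FreeGroup (Fin n))), 2 ≤ n → (∀ c, Act c 0 φ) →
  ∃ h, φ = MulAut.conj h

end Pool.Agent.Helper76x.OF
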