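import Pool.Agent.Helper76x.OF.Stm
import Pool.Agent.Helper76x.OF.Stm2

/-!
# Project OF (helper76): the group `Out (F_n)`, the congruence kernels, the filtration of `Out (F_n)`, and
the abelian case from the pieces
-/

set_option autoImplicit false

namespace Pool.Agent.Helper76x.OF

open Mg

/-- The group of inner automorphisms of `F_n`. -/
def InnF (n : ℕ) : Subgroup (MulAut (FreeGroup (Fin n))) :=
  (MulAut.conj : FreeGroup (Fin n) →* MulAut (FreeGroup (Fin n))).range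

theorem conj_conj_eq {n : ℕ} (φ : MulAut (FreeGroup (Fin n))) (h : FreeGroup (Fin n)) :
    φ * MulAut.conj h * φ⁻¹ = MulAut.conj (φ h) := by
  ext x
  simp [MulAut.mul_apply, MulAut.conj_apply]

instance (n : ℕ) : (InnF n).Normal where
  conj_mem := by
    rintro _ ⟨h, rfl⟩ φ
    exact ⟨φ h, (conj_conj_eq φ h).symm⟩

/-- The group of outer automorphisms of the free group `F_n`. -/
abbrev Out (n : ℕ) : Type := MulAut (FreeGroup (Fin n)) ⧸ InnF n

/-- The kernel of `Aut (F_n) → Out (F_n / K)`, for `K` a characteristic subgroup: the automorphisms which act on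
`F_n / K` as an inner automorphism. -/
def InnMod {n : ℕ} (K : Subgroup (FreeGroup (Fin n))) (φ : MulAut (FreeGroup (Fin n))) : Prop :=
  ∃ g : FreeGroup (Fin n), ∀ x : FreeGroup (Fin n), φ x * (g * x * g⁻¹)⁻¹ ∈ K

/-- `AAct c N` as a subgroup of `Aut (F_n)`. -/
def AAct (hA : S_ACT) (n c N : ℕ) : Subgroup (MulAut (FreeGroup (Fin n))) where
  carrier := {φ | Act c N φ}
  mul_mem' := fun {a b} ha hb => (hA n c N).2.1 a b ha hb
  one_mem' := by
    have := (hA n c N).1 1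
    rwa [map_one] at this
  inv_mem' := fun {a} ha => (hA n c N).2.2 a ha

theorem mem_AAct (hA : S_ACT) {n c N : ℕ} {φ : MulAut (FreeGroup (Fin n))} :
    φ ∈ AAct hA n c N ↔ Act c N φ := Iff.rfl

theorem inn_le (hA : S_ACT) (n c N : ℕ) : InnF n ≤ AAct hA n c N := by
  rintro _ ⟨h, rfl⟩
  exact (hA n c N).1 h

/-- The image of `AAct c N` in `Out (F_n)`. -/
def OAct (hA : S_ACT) (n c N : ℕ) : Subgroup (Out n) :=
  (AAct hA n c N).map (QuotientGroup.mk' (InnF n))

theorem mk_mem_OAct (hA : S_ACT) {n c N : ℕ} {φ : MulAut (FreeGroup (Fin n))} :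
    ((φ : MulAut (FreeGroup (Fin n))) : Out n) ∈ OAct hA n c N ↔ Act c N φ := by
  constructor
  · rintro ⟨ψ, hψ, h⟩
    have h1 : ψ⁻¹ * φ ∈ InnF n := QuotientGroup.eq.1 h
    have h2 := (AAct hA n c N).mul_mem hψ (inn_le hA n c N h1)
    rw [mul_inv_cancel_left] at h2
    exact h2
  · intro h
    exact ⟨φ, h, rfl⟩

theorem OAct_mono (hA : S_ACT) {n c N c' N' : ℕ} (hc : c' ≤ c) (hN : N' ∣ N) :
    OAct hA n c N ≤ OAct hA n c' N' := by
  intro x hx
  obtain ⟨φ, rfl⟩ := QuotientGroup.mk_surjective x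
  rw [mk_mem_OAct] at hx ⊢
  exact hx.mono hc hN

theorem act_zero (n N : ℕ) (φ : MulAut (FreeGroup (Fin n))) : Act 0 N φ := by
  refine ⟨1, rfl, fun g w hw => ?_⟩
  rw [List.length_eq_zero_iff.1 (Nat.le_zero.1 hw), sub_apply, mul_nil, mul_nil, mag_nil, mag_nil]
  simp

/-- The congruence subgroups have finite index. -/
theorem fin_AAct (hA : S_ACT) (n c N : ℕ) (hN : 0 < N) : (AAct hA n c N).FiniteIndex := by
  have : NeZero N := ⟨hN.ne'⟩
  -- the values modulo `N` on the words of length at most `c`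
  have hfin : Finite {w : List (Fin n) // w.length ≤ c} := (List.finite_length_le (Fin n) c).to_subtype
  let red : MulAut (FreeGroup (Fin n)) → (Fin n → {w : List (Fin n) // w.length ≤ c} → ZMod N) :=
    fun φ i w => ((mag (φ (FreeGroup.of i)) w.1 : ℤ) : ZMod N)
  have key : ∀ φ ψ : MulAut (FreeGroup (Fin n)), red φ = red ψ → φ * ψ⁻¹ ∈ AAct hA n c N := by
    intro φ ψ h
    have h1 : ∀ g, Small c N (mag (φ g) - mag (ψ g)) := by
      intro g
      induction g using FreeGroup.induction_on with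
      | C1 => simp only [map_one, sub_self]; exact small_zero _ _
      | of i =>
        intro w hw
        have h2 := congrFun (congrFun h i) ⟨w, hw⟩
        rw [sub_apply]
        exact (ZMod.intCast_eq_intCast_iff_dvd_sub _ _ N).1 h2.symm
      | inv_of i h =>
        have e : mag (φ (FreeGroup.of i)⁻¹) - mag (ψ (FreeGroup.of i)⁻¹) =
            mag (φ (FreeGroup.of i)⁻¹) * -(mag (φ (FreeGroup.of i)) - mag (ψ (FreeGroup.of i))) *
              mag (ψ (FreeGroup.of i)⁻¹) := by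
          rw [neg_sub, mul_sub, sub_mul, map_inv φ, map_inv ψ, mul_assoc, mag_mul_inv, mul_one,
            mag_inv_mul, one_mul]
        rw [e]
        exact ((h.neg).mul_left _).mul_right _
      | mul x y hx hy =>
        have e : mag (φ (x * y)) - mag (ψ (x * y)) =
            (mag (φ x) - mag (ψ x)) * mag (φ y) + mag (ψ x) * (mag (φ y) - mag (ψ y)) := by
          rw [map_mul, map_mul, map_mul, map_mul, sub_mul, mul_sub]; abel
        rw [e]
        exact (hx.mul_right _).add (hy.mul_left _)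
    refine ⟨1, rfl, fun g => ?_⟩
    rw [mul_one, one_mul]
    have h2 := h1 (ψ⁻¹ g)
    have h3 : ψ (ψ⁻¹ g) = g := by rw [← MulAut.mul_apply, mul_inv_cancel]; rfl
    rw [h3] at h2
    exact h2
  rw [Subgroup.finiteIndex_iff_finite_quotient]
  refine Finite.of_injective (fun q : MulAut (FreeGroup (Fin n)) ⧸ AAct hA n c N => red (q.out)⁻¹) ?_
  intro a b hab
  have h := key _ _ hab
  rw [inv_inv] at h
  rw [← QuotientGroup.out_eq' a, ← QuotientGroup.out_eq' b]
  exact QuotientGroup.eq.2 h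

theorem fin_OAct (hA : S_ACT) (n c N : ℕ) (hN : 0 < N) : (OAct hA n c N).FiniteIndex := by
  have h := fin_AAct hA n c N hN
  exact ⟨fun h0 => h.index_ne_zero (Nat.eq_zero_of_zero_dvd
    (h0 ▸ Subgroup.index_map_dvd _ (QuotientGroup.mk'_surjective _)))⟩

/-- `AAct` in the filtration of an abelian group `C` mapped to `Out (F_n)`. -/
def CAct (hA : S_ACT) {n : ℕ} {C : Type} [CommGroup C] (ι : C →* Out n) (c N : ℕ) : Subgroup C :=
  (OAct hA n c N).comap ι

theorem mem_CAct (hA : S_ACT) {n : ℕ} {C : Type} [CommGroup C] (ι : C →* Out n) (c N : ℕ) (x : C) :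
    x ∈ CAct hA ι c N ↔ Act c N (ι x).out := by
  have hrep : ((ι x).out : Out n) = ι x := QuotientGroup.out_eq' _
  show ι x ∈ OAct hA n c N ↔ _
  rw [← hrep, mk_mem_OAct, hrep]

/-- The layers of the filtration of an abelian group mapped to `Out (F_n)`. -/
theorem layer (hA : S_ACT) (hSTEP : S_STEP) {n : ℕ} (hn : 2 ≤ n) {C : Type} [CommGroup C]
    (ι : C →* Out n) (k : ℕ) (hk : 1 ≤ k) : ∃ (Q : Type) (_ : AddCommGroup Q) (_ : Module.Finite ℤ Q)
      (f : CAct hA ι k 0 →* Multiplicative Q), (∀ (m : ℕ) (q : Q), 0 < m → m • q = 0 → q = 0) ∧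
      (∀ x : CAct hA ι k 0, f x = 1 ↔ (x : C) ∈ CAct hA ι (k + 1) 0) ∧
      (∀ (N : ℕ) (x : CAct hA ι k 0), (x : C) ∈ CAct hA ι (k + 1) N → ∃ q, (f x).toAdd = N • q) := by
  have hrep : ∀ x : C, ((ι x).out : Out n) = ι x := fun x => QuotientGroup.out_eq' _
  have hB := fun k x => mem_CAct hA ι k 0 x
  obtain ⟨Q, _, hQ, δ, htf, hadd, hker, hN⟩ := hSTEP n k hn hk
  have hconj : ∀ h : FreeGroup (Fin n), δ (MulAut.conj h) = 0 := fun h =>
    (hker _ ((hA n k 0).1 h)).2 ((hA n (k + 1) 0).1 h)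
  have hδ : ∀ φ ψ : MulAut (FreeGroup (Fin n)), Act k 0 φ → (φ : Out n) = (ψ : Out n) → δ φ = δ ψ := by
    intro φ ψ h1 h2
    obtain ⟨h, hh⟩ : φ⁻¹ * ψ ∈ InnF n := QuotientGroup.eq.1 h2
    have h3 : ψ = φ * MulAut.conj h := by rw [hh, mul_inv_cancel_left]
    rw [h3, hadd φ _ h1 ((hA n k 0).1 h), hconj, add_zero]
  refine ⟨Q, inferInstance, hQ, MonoidHom.mk' (fun x => Multiplicative.ofAdd (δ (ι (x : C)).out)) ?_,
    htf, ?_, ?_⟩
  · intro x y
    have h1 := (hB k x).1 x.2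
    have h2 := (hB k y).1 y.2
    have h3 := (hB k (x * y : C)).1 (x * y).2
    show Multiplicative.ofAdd (δ (ι ((x : C) * y)).out) = _
    rw [hδ (ι ((x : C) * y)).out ((ι (x : C)).out * (ι (y : C)).out) h3 (by
      rw [hrep, map_mul, QuotientGroup.mk_mul, hrep, hrep]), hadd _ _ h1 h2, ofAdd_add]
  · intro x
    show Multiplicative.ofAdd (δ (ι (x : C)).out) = 1 ↔ _
    rw [ofAdd_eq_one, hker _ ((hB k x).1 x.2), ← hB]
  · intro N x hx
    exact hN N _ ((hB k x).1 x.2) ((mem_CAct hA ι (k + 1) N x).1 hx)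

/-- The action on the abelianization as a homomorphism on an abelian group mapped to `Out (F_n)`. -/
theorem layer0 (hA : S_ACT) (hMAT : S_MAT) {n : ℕ} {C : Type} [CommGroup C] (ι : C →* Out n) :
    ∃ P : C →* Matrix (Fin n) (Fin n) ℤ, (∀ x y, P x = P y → x * y⁻¹ ∈ CAct hA ι 1 0) ∧
      ∀ (N : ℕ) (x : C), x ∈ CAct hA ι 1 N → ∀ i j, (N : ℤ) ∣ (P x - 1) i j := by
  obtain ⟨P, hP1, hPN⟩ := hMAT n
  let P' : Out n →* Matrix (Fin n) (Fin n) ℤ := QuotientGroup.lift (InnF n) P (by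
    rintro _ ⟨h, rfl⟩
    exact (hP1 _).2 ((hA n 1 0).1 h))
  have hPx : ∀ z : C, P' (ι z) = P (ι z).out := by
    intro z
    conv_lhs => rw [← (QuotientGroup.out_eq' (ι z))]
    rfl
  refine ⟨P'.comp ι, fun x y hxy => ?_, fun N x hx => ?_⟩
  · rw [mem_CAct, ← hP1, ← hPx]
    have hu : P' (ι y) * P' (ι y⁻¹) = 1 := by
      rw [← map_mul, ← map_mul, mul_inv_cancel, map_one, map_one]
    have hy' : P' (ι x) = P' (ι y) := hxy
    rw [map_mul, map_mul, hy', hu]
  · show ∀ i j, (N : ℤ) ∣ (P' (ι x) - 1) i j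
    rw [hPx]
    exact hPN N _ ((mem_CAct hA ι 1 N x).1 hx)

/-- The abelian case: if `C` is a finitely generated abelian group, embedded in `Out (F_n)`, then there is `c` such that
for each `M ≥ 1` there is `N ≥ 1` such that all elements of `C` in `OAct c N` are `M`-th powers in `C`. -/
theorem abel_core (hA : S_ACT) (hGL : S_GL) (hEXT : S_EXT) (hSTAB : S_STAB) (hLIN : S_LIN) (hSTEP : S_STEP)
    (hMAT : S_MAT) (hINN : S_INN) (n : ℕ) (hn : 2 ≤ n) (C : Type) [CommGroup C] [Group.FG C]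
    (ι : C →* Out n) (hι : Function.Injective ι) :
    ∃ c : ℕ, ∀ M : ℕ, 0 < M → ∃ N : ℕ, 0 < N ∧ ∀ x : C, ι x ∈ OAct hA n c N → ∃ y : C, x = y ^ M := by
  -- representatives
  have hrep : ∀ x : C, ((ι x).out : Out n) = ι x := fun x => QuotientGroup.out_eq' _
  let B : ℕ → Subgroup C := fun k => CAct hA ι k 0
  have hB : ∀ k x, x ∈ B k ↔ Act k 0 (ι x).out := fun k x => mem_CAct hA ι k 0 x
  have hBanti : Antitone B := fun a b hab x hx => OAct_mono hA hab (dvd_refl 0) hx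
  have hB0 : ∀ x, x ∈ B 0 := fun x => (hB 0 x).2 (act_zero _ _ _)
  -- the chain is finite
  obtain ⟨t, ht⟩ := hSTAB C B hBanti (by
    intro k hk x hx m hm hxm
    obtain ⟨Q, _, hQ, f, htf, hker, hN⟩ := layer hA hSTEP hn ι k hk
    have h1 : f (⟨x, hx⟩ ^ m) = 1 := (hker _).2 hxm
    rw [map_pow] at h1
    have h2 : m • (f ⟨x, hx⟩).toAdd = 0 := by
      rw [← toAdd_pow, h1, toAdd_one]
    have h3 := htf m _ hm h2
    exact (hker ⟨x, hx⟩).1 h3) (by
    intro x hx
    obtain ⟨h, hh⟩ := hINN n (ι x).out hn (fun c => (hB c x).1 (hx c))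
    have h1 : ι x = 1 := by
      rw [← hrep x, hh]
      exact (QuotientGroup.eq_one_iff _).2 ⟨h, rfl⟩
    exact hι (h1.trans (map_one ι).symm))
  -- the extension lemma
  refine ⟨t, fun M hM => ?_⟩
  obtain ⟨N, hN, hfin⟩ := hEXT C (fun N => CAct hA ι t N) B t hBanti
    (fun N N' hN hN' => ⟨N * N', Nat.mul_pos hN hN', le_inf
      (fun x hx => OAct_mono hA le_rfl (Dvd.intro _ rfl) hx)
      (fun x hx => OAct_mono hA le_rfl (Dvd.intro_left _ rfl) hx)⟩)
    (by
      intro N hN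
      have h1 := fin_OAct hA n t N hN
      have h2 : (CAct hA ι t N).index ≠ 0 := by
        unfold CAct
        rw [Subgroup.index_comap]
        exact ((inferInstance : ((OAct hA n t N).subgroupOf ι.range).FiniteIndex)).index_ne_zero
      exact ⟨(CAct hA ι t N).index, Nat.pos_of_ne_zero h2, fun x => Subgroup.pow_index_mem _ x⟩)
    ht
    (by
      intro k hkt M hM
      rcases Nat.eq_zero_or_pos k with hk | hk
      · subst hk
        obtain ⟨P, hP1, hPN⟩ := layer0 hA hMAT ι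
        obtain ⟨N, hN, h⟩ := hLIN n C P M hM
        refine ⟨N, hN, fun x _ hxN => ?_⟩
        obtain ⟨y, hy⟩ := h x (hPN N x (OAct_mono hA hkt (dvd_refl N) hxN))
        refine ⟨y, hB0 y, x * (y ^ M)⁻¹, ?_, by rw [mul_comm x, mul_inv_cancel_left]⟩
        exact hP1 x (y ^ M) (by rw [hy, map_pow])
      · obtain ⟨Q, _, hQ, f, htf, hker, hNf⟩ := layer hA hSTEP hn ι k hk
        obtain ⟨N, hN, h⟩ := hGL (B k) Q f M hM
        refine ⟨N, hN, fun x hx hxN => ?_⟩
        obtain ⟨q, hq⟩ := hNf N ⟨x, hx⟩ (OAct_mono hA hkt (dvd_refl N) hxN)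
        obtain ⟨y, hy⟩ := h ⟨x, hx⟩ q hq
        refine ⟨y, y.2, x * ((y : C) ^ M)⁻¹, ?_, by rw [mul_comm x, mul_inv_cancel_left]⟩
        have h1 : f (⟨x, hx⟩ * (y ^ M)⁻¹) = 1 := by
          rw [map_mul, map_inv, map_pow, hy, mul_inv_cancel]
        exact (hker _).1 h1) M hM
  exact ⟨N, hN, fun x hx => by
    obtain ⟨y, _, hy⟩ := hfin x (hB0 x) hx
    exact ⟨y, hy⟩⟩

end Pool.Agent.Helper76x.OF
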