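import Pool.Agent.Helper76x.OF.Asm

/-!
# Project OF (helper76): from the abelian case to virtually abelian subgroups of `Out (F_n)`
-/

set_option autoImplicit false

namespace Pool.Agent.Helper76x.OF

open Mg

variable {n : ℕ}

theorem innMod_iff {K : Subgroup (FreeGroup (Fin n))} [K.Normal] {φ : MulAut (FreeGroup (Fin n))} :
    InnMod K φ ↔ ∃ g : FreeGroup (Fin n), ∀ x : FreeGroup (Fin n),
      ((φ x : FreeGroup (Fin n)) : FreeGroup (Fin n) ⧸ K) = (g * x * g⁻¹ : FreeGroup (Fin n)) := by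
  refine exists_congr fun g => forall_congr' fun x => ?_
  rw [QuotientGroup.eq_iff_div_mem, div_eq_mul_inv]

theorem char_mk {K : Subgroup (FreeGroup (Fin n))} [hK : K.Characteristic] (φ : MulAut (FreeGroup (Fin n)))
    {a b : FreeGroup (Fin n)} (h : (a : FreeGroup (Fin n) ⧸ K) = b) :
    ((φ a : FreeGroup (Fin n)) : FreeGroup (Fin n) ⧸ K) = (φ b : FreeGroup (Fin n)) := by
  rw [QuotientGroup.eq_iff_div_mem] at h ⊢
  rw [← map_div]
  have h1 := Subgroup.characteristic_iff_comap_eq.1 hK φ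
  rw [← h1] at h
  exact h

/-- The kernel of `Aut (F_n) → Out (F_n / K)` as a subgroup. -/
def IM (K : Subgroup (FreeGroup (Fin n))) [hK : K.Characteristic] : Subgroup (MulAut (FreeGroup (Fin n))) where
  carrier := {φ | InnMod K φ}
  one_mem' := ⟨1, fun x => by simp [K.one_mem]⟩
  mul_mem' := by
    intro φ ψ h1 h2
    simp only [Set.mem_ofPred_eq] at h1 h2 ⊢
    rw [innMod_iff] at h1 h2 ⊢
    obtain ⟨g, hg⟩ := h1
    obtain ⟨h, hh⟩ := h2
    refine ⟨g * h, fun x => ?_⟩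
    rw [MulAut.mul_apply, char_mk φ (hh x), hg]
    congr 1; group
  inv_mem' := by
    intro φ h1
    simp only [Set.mem_ofPred_eq] at h1 ⊢
    rw [innMod_iff] at h1 ⊢
    obtain ⟨g, hg⟩ := h1
    refine ⟨g⁻¹, fun x => ?_⟩
    have h2 := hg (φ⁻¹ x)
    have h3 : φ (φ⁻¹ x) = x := by rw [← MulAut.mul_apply, mul_inv_cancel]; rfl
    rw [h3] at h2
    rw [QuotientGroup.mk_mul, QuotientGroup.mk_mul, h2, inv_inv]
    rw [← QuotientGroup.mk_mul, ← QuotientGroup.mk_mul]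
    congr 1; group

theorem mem_IM {K : Subgroup (FreeGroup (Fin n))} [K.Characteristic] {φ : MulAut (FreeGroup (Fin n))} :
    φ ∈ IM K ↔ InnMod K φ := Iff.rfl

instance (K : Subgroup (FreeGroup (Fin n))) [hK : K.Characteristic] : (IM K).Normal where
  conj_mem := by
    intro φ h1 ψ
    rw [mem_IM, innMod_iff] at h1 ⊢
    obtain ⟨g, hg⟩ := h1
    refine ⟨ψ g, fun x => ?_⟩
    have h2 := char_mk ψ (hg (ψ⁻¹ x))
    have h3 : ψ (ψ⁻¹ x) = x := by rw [← MulAut.mul_apply, mul_inv_cancel]; rfl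
    rw [MulAut.mul_apply, MulAut.mul_apply, h2, map_mul, map_mul, h3, map_inv]

theorem inn_le_IM (K : Subgroup (FreeGroup (Fin n))) [hK : K.Characteristic] : InnF n ≤ IM K := by
  rintro _ ⟨h, rfl⟩
  exact ⟨h, fun x => by rw [MulAut.conj_apply, mul_inv_cancel]; exact K.one_mem⟩

/-- The kernel of `Out (F_n) → Out (F_n / K)`. -/
def OIM (K : Subgroup (FreeGroup (Fin n))) [hK : K.Characteristic] : Subgroup (Out n) :=
  (IM K).map (QuotientGroup.mk' (InnF n))

theorem mk_mem_OIM {K : Subgroup (FreeGroup (Fin n))} [hK : K.Characteristic]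
    {φ : MulAut (FreeGroup (Fin n))} : (φ : Out n) ∈ OIM K ↔ InnMod K φ := by
  constructor
  · rintro ⟨ψ, hψ, h⟩
    have h1 : ψ⁻¹ * φ ∈ InnF n := QuotientGroup.eq.1 h
    have h2 := (IM K).mul_mem hψ (inn_le_IM K h1)
    rw [mul_inv_cancel_left] at h2
    exact h2
  · intro h
    exact ⟨φ, h, rfl⟩

instance (K : Subgroup (FreeGroup (Fin n))) [hK : K.Characteristic] : (OIM K).Normal :=
  Subgroup.Normal.map inferInstance _ (QuotientGroup.mk'_surjective _)

theorem OIM_mono {K L : Subgroup (FreeGroup (Fin n))} [K.Characteristic] [L.Characteristic] (h : K ≤ L) :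
    OIM K ≤ OIM L := by
  intro x hx
  obtain ⟨φ, rfl⟩ := QuotientGroup.mk_surjective x
  rw [mk_mem_OIM] at hx ⊢
  obtain ⟨g, hg⟩ := hx
  exact ⟨g, fun x => h (hg x)⟩

/-- The conclusion of the abelian case. -/
def Core : Prop := ∀ (n : ℕ), 2 ≤ n → ∀ (C : Type) [CommGroup C] [Group.FG C] (ι : C →* Out n),
  Function.Injective ι → ∀ M : ℕ, 0 < M → ∃ (K : Subgroup (FreeGroup (Fin n))) (_ : K.Characteristic),
    K.FiniteIndex ∧ ∀ x : C, ι x ∈ OIM K → ∃ y : C, x = y ^ M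

theorem core (hA : S_ACT) (hGL : S_GL) (hEXT : S_EXT) (hSTAB : S_STAB) (hLIN : S_LIN) (hSTEP : S_STEP)
    (hMAT : S_MAT) (hINN : S_INN) (hFIN : S_FIN) : Core := by
  intro n hn C _ _ ι hι M hM
  obtain ⟨c, h0⟩ := abel_core hA hGL hEXT hSTAB hLIN hSTEP hMAT hINN n hn C ι hι
  obtain ⟨N, hN, h⟩ := h0 M hM
  obtain ⟨K, hK, hKf, hKA⟩ := hFIN n c N hN
  refine ⟨K, hK, hKf, fun x hx => h x ?_⟩
  obtain ⟨φ, hφ⟩ := QuotientGroup.mk_surjective (ι x)
  rw [← hφ, mk_mem_OIM] at hx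
  rw [← hφ, mk_mem_OAct]
  exact hKA φ hx

/-- Finitely generated abelian subgroups. -/
theorem abel_case (hC : Core) (hn : 2 ≤ n) (C T : Subgroup (Out n))
    (hcomm : ∀ x ∈ C, ∀ y ∈ C, x * y = y * x) (hfg : C.FG) (hT : T.relIndex C ≠ 0) :
    ∃ (K : Subgroup (FreeGroup (Fin n))) (_ : K.Characteristic),
      K.FiniteIndex ∧ ∀ x ∈ C, x ∈ OIM K → x ∈ T := by
  let _ : CommGroup C := { (inferInstance : Group C) with
    mul_comm := fun x y => Subtype.ext (hcomm x x.2 y y.2) }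
  have : Group.FG C := (Group.fg_iff_subgroup_fg C).2 hfg
  obtain ⟨K, hK, hKf, h⟩ := hC n hn C C.subtype C.subtype_injective (T.relIndex C).factorial
    (Nat.factorial_pos _)
  refine ⟨K, hK, hKf, fun x hx hxK => ?_⟩
  obtain ⟨y, hy⟩ := h ⟨x, hx⟩ hxK
  have h1 : x = (y : Out n) ^ (T.relIndex C).factorial := congrArg Subtype.val hy
  rw [h1]
  exact (Subgroup.pow_mem_of_relIndex_ne_zero_of_dvd hT y.2
    fun m hm hm2 => Nat.dvd_factorial hm hm2).1

/-- `Out (F_n)` is residually finite (Grossman), with congruence quotients. -/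
theorem resid (hC : Core) (hn : 2 ≤ n) (g : Out n) (hg : g ≠ 1) :
    ∃ (K : Subgroup (FreeGroup (Fin n))) (_ : K.Characteristic), K.FiniteIndex ∧ g ∉ OIM K := by
  let _ : CommGroup (Subgroup.zpowers g) := { (inferInstance : Group (Subgroup.zpowers g)) with
    mul_comm := fun x y => by
      obtain ⟨a, ha⟩ := Subgroup.mem_zpowers_iff.1 x.2
      obtain ⟨b, hb⟩ := Subgroup.mem_zpowers_iff.1 y.2
      apply Subtype.ext
      show (x : Out n) * y = y * x
      rw [← ha, ← hb, ← zpow_add, ← zpow_add, add_comm] }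
  have : Group.FG (Subgroup.zpowers g) := (Group.fg_iff_subgroup_fg _).2
    ⟨{g}, by rw [Finset.coe_singleton, Subgroup.zpowers_eq_closure]⟩
  by_cases h0 : orderOf g = 0
  · obtain ⟨K, hK, hKf, h⟩ := hC n hn (Subgroup.zpowers g) (Subgroup.zpowers g).subtype
      (Subgroup.subtype_injective _) 2 (by norm_num)
    refine ⟨K, hK, hKf, fun hx => ?_⟩
    obtain ⟨y, hy⟩ := h ⟨g, Subgroup.mem_zpowers g⟩ hx
    obtain ⟨b, hb⟩ := Subgroup.mem_zpowers_iff.1 y.2
    have h1 : g = (y : Out n) ^ 2 := congrArg Subtype.val hy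
    rw [← hb, ← zpow_natCast, ← zpow_mul] at h1
    have h2 : g ^ (b * 2 - 1 : ℤ) = 1 := by
      rw [zpow_sub, zpow_one, mul_inv_eq_one]; exact_mod_cast h1.symm
    have h3 := orderOf_dvd_iff_zpow_eq_one.2 h2
    rw [h0, Nat.cast_zero, zero_dvd_iff] at h3
    omega
  · obtain ⟨K, hK, hKf, h⟩ := hC n hn (Subgroup.zpowers g) (Subgroup.zpowers g).subtype
      (Subgroup.subtype_injective _) (orderOf g) (Nat.pos_of_ne_zero h0)
    refine ⟨K, hK, hKf, fun hx => hg ?_⟩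
    obtain ⟨y, hy⟩ := h ⟨g, Subgroup.mem_zpowers g⟩ hx
    obtain ⟨b, hb⟩ := Subgroup.mem_zpowers_iff.1 y.2
    have h1 : g = (y : Out n) ^ (orderOf g) := congrArg Subtype.val hy
    rw [h1, ← hb, ← zpow_natCast, ← zpow_mul, mul_comm, zpow_mul, zpow_natCast, pow_orderOf_eq_one,
      one_zpow]

/-- A coset of `C` in `S` different from `C` does not meet some congruence kernel. -/
theorem coset (hC : Core) (hn : 2 ≤ n) (C : Subgroup (Out n))
    (hcomm : ∀ x ∈ C, ∀ y ∈ C, x * y = y * x) (hfg : C.FG) (s : Out n) (hs : s ∉ C)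
    (hsf : ∃ m : ℕ, 0 < m ∧ s ^ m ∈ C) :
    ∃ (K : Subgroup (FreeGroup (Fin n))) (_ : K.Characteristic),
      K.FiniteIndex ∧ ∀ x, s⁻¹ * x ∈ C → x ∉ OIM K := by
  by_cases hsc : ∀ c ∈ C, s * c = c * s
  · -- the group generated by `C` and `s` is abelian
    obtain ⟨m, hm, hsm⟩ := hsf
    have hsz : ∀ c ∈ C, ∀ k : ℤ, s ^ k * c = c * s ^ k := fun c hc k =>
      ((Commute.zpow_left (show Commute s c from hsc c hc) k)).eq
    let D : Subgroup (Out n) :=
      { carrier := {x | ∃ c ∈ C, ∃ k : ℤ, x = c * s ^ k}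
        one_mem' := ⟨1, C.one_mem, 0, by simp⟩
        mul_mem' := by
          rintro _ _ ⟨c, hc, k, rfl⟩ ⟨d, hd, l, rfl⟩
          refine ⟨c * d, C.mul_mem hc hd, k + l, ?_⟩
          rw [mul_assoc, ← mul_assoc (s ^ k) d, hsz d hd, zpow_add]
          simp only [mul_assoc]
        inv_mem' := by
          rintro _ ⟨c, hc, k, rfl⟩
          refine ⟨c⁻¹, C.inv_mem hc, -k, ?_⟩
          rw [mul_inv_rev, ← zpow_neg, hsz _ (C.inv_mem hc)] }
    have hCD : C ≤ D := fun c hc => ⟨c, hc, 0, by simp⟩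
    have hsD : s ∈ D := ⟨1, C.one_mem, 1, by simp⟩
    have hDc : ∀ x ∈ D, ∀ y ∈ D, x * y = y * x := by
      rintro _ ⟨c, hc, k, rfl⟩ _ ⟨d, hd, l, rfl⟩
      rw [mul_assoc, ← mul_assoc (s ^ k) d, hsz d hd, mul_assoc d, ← mul_assoc c d, hcomm c hc d hd,
        mul_assoc d (s ^ l), ← mul_assoc (s ^ l) c, hsz c hc, mul_assoc c, ← zpow_add, ← zpow_add,
        add_comm k l, mul_assoc d c]
    have hDfg : D.FG := by
      have : D = C ⊔ Subgroup.zpowers s := by
        apply le_antisymm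
        · rintro _ ⟨c, hc, k, rfl⟩
          exact Subgroup.mul_mem_sup hc (Subgroup.zpow_mem_zpowers s k)
        · exact sup_le hCD (by rwa [Subgroup.zpowers_le])
      rw [this]
      exact hfg.sup ⟨{s}, by rw [Finset.coe_singleton, Subgroup.zpowers_eq_closure]⟩
    let _ : CommGroup D := { (inferInstance : Group D) with
      mul_comm := fun x y => Subtype.ext (hDc x x.2 y y.2) }
    have : Group.FG D := (Group.fg_iff_subgroup_fg D).2 hDfg
    obtain ⟨K, hK, hKf, h⟩ := hC n hn D D.subtype D.subtype_injective m hm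
    refine ⟨K, hK, hKf, fun x hx hxK => hs ?_⟩
    have hxD : x ∈ D := by
      have := D.mul_mem hsD (hCD hx)
      rwa [mul_inv_cancel_left] at this
    obtain ⟨y, hy⟩ := h ⟨x, hxD⟩ hxK
    obtain ⟨c, hc, k, hk⟩ := y.2
    have h1 : x = (y : Out n) ^ m := congrArg Subtype.val hy
    have h2 : x ∈ C := by
      rw [h1, hk, (show Commute c (s ^ k) from (hsz c hc k).symm).mul_pow, ← zpow_natCast (s ^ k),
        ← zpow_mul, mul_comm k, zpow_mul, zpow_natCast]
      exact C.mul_mem (C.pow_mem hc m) (C.zpow_mem hsm k)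
    have h3 := C.mul_mem h2 (C.inv_mem hx)
    have h4 : x * (s⁻¹ * x)⁻¹ = s := by group
    rwa [h4] at h3
  · push Not at hsc
    obtain ⟨c, hc, hne⟩ := hsc
    obtain ⟨K, hK, hKf, h⟩ := resid hC hn (s * c * s⁻¹ * c⁻¹) (by
      intro h
      apply hne
      have h5 := mul_inv_eq_one.1 h
      calc s * c = s * c * s⁻¹ * s := by group
        _ = c * s := by rw [h5])
    refine ⟨K, hK, hKf, fun x hx hxK => h ?_⟩
    -- `x = s c'`, so the commutators agree
    have e : s * c * s⁻¹ * c⁻¹ = x * c * x⁻¹ * c⁻¹ := by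
      have h2 := hcomm _ hx c hc
      have h3 : x = s * (s⁻¹ * x) := by group
      generalize s⁻¹ * x = d at *
      subst h3
      rw [mul_inv_rev, mul_assoc s d c, h2]; group
    rw [e]
    have h4 : x * (c * x⁻¹ * c⁻¹) ∈ OIM K := (OIM K).mul_mem hxK
      ((inferInstance : (OIM K).Normal).conj_mem _ ((OIM K).inv_mem hxK) c)
    simpa [mul_assoc] using h4

/-- Finitely generated virtually abelian subgroups. -/
theorem virt_case (hC : Core) (hn : 2 ≤ n) (S C T : Subgroup (Out n)) (hCS : C ≤ S)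
    (hcomm : ∀ x ∈ C, ∀ y ∈ C, x * y = y * x) (hfg : C.FG) (hfi : C.relIndex S ≠ 0)
    (hT : T.relIndex S ≠ 0) :
    ∃ (K : Subgroup (FreeGroup (Fin n))) (_ : K.Characteristic),
      K.FiniteIndex ∧ ∀ x ∈ S, x ∈ OIM K → x ∈ T := by
  -- the abelian case
  obtain ⟨K₁, hK₁, hK₁f, h₁⟩ := abel_case hC hn C T hcomm hfg
    (fun h => hT (Subgroup.relIndex_eq_zero_of_le_right hCS h))
  -- the cosets
  have h2 : ∀ q : S ⧸ C.subgroupOf S, ∃ (K : Subgroup (FreeGroup (Fin n))) (_ : K.Characteristic),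
      K.FiniteIndex ∧ ∀ x, ((q.out : S) : Out n)⁻¹ * x ∈ C → x ∈ OIM K → ((q.out : S) : Out n) ∈ C := by
    intro q
    by_cases hq : ((q.out : S) : Out n) ∈ C
    · exact ⟨⊤, inferInstance, inferInstance, fun _ _ _ => hq⟩
    · obtain ⟨m, hm, -, hm2⟩ := Subgroup.exists_pow_mem_of_relIndex_ne_zero hfi q.out.2
      obtain ⟨K, hK, hKf, h⟩ := coset hC hn C hcomm hfg _ hq ⟨m, hm, hm2.1⟩
      exact ⟨K, hK, hKf, fun x hx hx2 => absurd hx2 (h x hx)⟩
  choose K₂ hK₂ hK₂f h₂ using h2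
  have hfinq : Finite (S ⧸ C.subgroupOf S) := 
    Subgroup.finiteIndex_iff_finite_quotient.1 ⟨hfi⟩
  have hKK : (⨅ q, K₂ q).Characteristic := inferInstance
  have hK : (K₁ ⊓ ⨅ q, K₂ q).Characteristic := inferInstance
  refine ⟨K₁ ⊓ ⨅ q, K₂ q, hK, ?_, fun x hxS hxK => ?_⟩
  · have := Subgroup.finiteIndex_iInf hK₂f
    infer_instance
  · refine h₁ x ?_ (OIM_mono inf_le_left hxK)
    let q : S ⧸ C.subgroupOf S := ((⟨x, hxS⟩ : S) : S ⧸ C.subgroupOf S)
    have hq : ((q.out : S) : Out n)⁻¹ * x ∈ C := by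
      have : (q.out : S)⁻¹ * ⟨x, hxS⟩ ∈ C.subgroupOf S := QuotientGroup.eq.1 (QuotientGroup.out_eq' q)
      exact this
    have h3 := h₂ q x hq (OIM_mono (inf_le_right.trans (iInf_le _ q)) hxK)
    have h4 := C.mul_mem h3 hq
    rwa [mul_inv_cancel_left] at h4

end Pool.Agent.Helper76x.OF
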