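import Pool.Agent.Helper76x.OF.Stm3

/-!
# Project OF (helper76): finitely generated virtually abelian subgroups are closed in the congruence
topology of `Out (F_n)`
-/

set_option autoImplicit false

namespace Pool.Agent.Helper76x.OF

variable {n : ℕ}

/-- The index of a congruence kernel is finite, so some power `M ≥ 1` of every element of `Out (F_n)` is in it. -/
theorem pow_OIM (K : Subgroup (FreeGroup (Fin n))) [hK : K.Characteristic] [K.FiniteIndex] :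
    ∃ M : ℕ, 0 < M ∧ ∀ x : Out n, x ^ M ∈ OIM K := by
  -- the values on the generators modulo `K`
  let red : MulAut (FreeGroup (Fin n)) → (Fin n → FreeGroup (Fin n) ⧸ K) :=
    fun φ i => ((φ (FreeGroup.of i) : FreeGroup (Fin n)) : FreeGroup (Fin n) ⧸ K)
  have key : ∀ φ ψ : MulAut (FreeGroup (Fin n)), red φ = red ψ → φ * ψ⁻¹ ∈ IM K := by
    intro φ ψ h
    have h1 : (QuotientGroup.mk' K).comp φ.toMonoidHom = (QuotientGroup.mk' K).comp ψ.toMonoidHom :=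
      FreeGroup.ext_hom _ _ fun i => congrFun h i
    rw [mem_IM, innMod_iff]
    refine ⟨1, fun x => ?_⟩
    have h2 := DFunLike.congr_fun h1 (ψ⁻¹ x)
    have h3 : ψ (ψ⁻¹ x) = x := by rw [← MulAut.mul_apply, mul_inv_cancel]; rfl
    have h4 : ((φ (ψ⁻¹ x) : FreeGroup (Fin n)) : FreeGroup (Fin n) ⧸ K) = (ψ (ψ⁻¹ x) : FreeGroup (Fin n)) := h2
    rw [h3] at h4
    rw [MulAut.mul_apply, h4, one_mul, inv_one, mul_one]
  have hfi : (IM K).FiniteIndex := by
    rw [Subgroup.finiteIndex_iff_finite_quotient]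
    refine Finite.of_injective (fun q : MulAut (FreeGroup (Fin n)) ⧸ IM K => red (q.out)⁻¹) ?_
    intro a b hab
    have h := key _ _ hab
    rw [inv_inv] at h
    rw [← QuotientGroup.out_eq' a, ← QuotientGroup.out_eq' b]
    exact QuotientGroup.eq.2 h
  refine ⟨(IM K).index, Nat.pos_of_ne_zero hfi.index_ne_zero, fun x => ?_⟩
  obtain ⟨φ, rfl⟩ := QuotientGroup.mk_surjective x
  have h1 := Subgroup.pow_index_mem (IM K) φ
  have h2 : ((φ ^ (IM K).index : MulAut (FreeGroup (Fin n))) : Out n) ∈ OIM K := mk_mem_OIM.2 h1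
  exact h2

/-- The closure of a subgroup in the congruence topology. -/
def cl (C : Subgroup (Out n)) : Subgroup (Out n) where
  carrier := {x | ∀ (K : Subgroup (FreeGroup (Fin n))) (_ : K.Characteristic), K.FiniteIndex →
    ∃ c ∈ C, c⁻¹ * x ∈ OIM K}
  one_mem' := fun K hK _ => ⟨1, C.one_mem, by simp⟩
  mul_mem' := by
    intro x y hx hy K hK hKf
    obtain ⟨c, hc, h1⟩ := hx K hK hKf
    obtain ⟨d, hd, h2⟩ := hy K hK hKf
    refine ⟨c * d, C.mul_mem hc hd, ?_⟩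
    have h3 := (OIM K).mul_mem ((inferInstance : (OIM K).Normal).conj_mem _ h1 d⁻¹) h2
    have e : (c * d)⁻¹ * (x * y) = d⁻¹ * (c⁻¹ * x) * d⁻¹⁻¹ * (d⁻¹ * y) := by group
    rw [e]; exact h3
  inv_mem' := by
    intro x hx K hK hKf
    obtain ⟨c, hc, h1⟩ := hx K hK hKf
    refine ⟨c⁻¹, C.inv_mem hc, ?_⟩
    have h3 := (inferInstance : (OIM K).Normal).conj_mem _ ((OIM K).inv_mem h1) c
    have e : c⁻¹⁻¹ * x⁻¹ = c * (c⁻¹ * x)⁻¹ * c⁻¹ := by group
    rw [e]; exact h3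

theorem le_cl (C : Subgroup (Out n)) : C ≤ cl C := fun c hc K hK _ =>
  ⟨c, hc, by rw [inv_mul_cancel]; exact (OIM K).one_mem⟩

/-- The closure of an abelian subgroup is abelian. -/
theorem cl_comm (hC : Core) (hn : 2 ≤ n) (C : Subgroup (Out n)) (hcomm : ∀ x ∈ C, ∀ y ∈ C, x * y = y * x) :
    ∀ x ∈ cl C, ∀ y ∈ cl C, x * y = y * x := by
  intro x hx y hy
  by_contra hne
  obtain ⟨K, hK, hKf, h⟩ := resid hC hn (x * y * x⁻¹ * y⁻¹) (by
    intro h
    apply hne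
    have h5 := mul_inv_eq_one.1 h
    calc x * y = x * y * x⁻¹ * x := by group
      _ = y * x := by rw [h5])
  apply h
  obtain ⟨c, hc, h1⟩ := hx K hK hKf
  obtain ⟨d, hd, h2⟩ := hy K hK hKf
  have e1 : (c : Out n ⧸ OIM K) = x := QuotientGroup.eq.2 h1
  have e2 : (d : Out n ⧸ OIM K) = y := QuotientGroup.eq.2 h2
  rw [← QuotientGroup.eq_one_iff, QuotientGroup.mk_mul, QuotientGroup.mk_mul, QuotientGroup.mk_mul, QuotientGroup.mk_inv,
    QuotientGroup.mk_inv, ← e1, ← e2, ← QuotientGroup.mk_inv, ← QuotientGroup.mk_inv,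
    ← QuotientGroup.mk_mul, ← QuotientGroup.mk_mul, ← QuotientGroup.mk_mul, hcomm c hc d hd]
  rw [mul_assoc d c, mul_inv_cancel, mul_one, mul_inv_cancel]
  rfl

/-- An element of the closure which acts trivially on the truncation `c` of `abel_core` is trivial. -/
theorem cl_bot (hA : S_ACT) (hFIN : S_FIN) (hC : Core) (hn : 2 ≤ n) (C : Subgroup (Out n)) (c : ℕ)
    (hc : ∀ M : ℕ, 0 < M → ∃ N : ℕ, 0 < N ∧ ∀ x ∈ C, x ∈ OAct hA n c N → ∃ y ∈ C, x = y ^ M)
    (x : Out n) (hx : x ∈ cl C) (hx0 : x ∈ OAct hA n c 0) : x = 1 := by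
  by_contra hne
  obtain ⟨K₀, hK₀, hK₀f, h₀⟩ := resid hC hn x hne
  obtain ⟨M, hM, hMK⟩ := pow_OIM K₀
  obtain ⟨N, hN, hN2⟩ := hc M hM
  obtain ⟨K₁, hK₁, hK₁f, h₁⟩ := hFIN n c N hN
  have h2 : OIM K₁ ≤ OAct hA n c N := by
    intro z hz
    obtain ⟨φ, rfl⟩ := QuotientGroup.mk_surjective z
    rw [mk_mem_OIM] at hz
    rw [mk_mem_OAct]
    exact h₁ φ hz
  have hK : (K₀ ⊓ K₁).Characteristic := inferInstance
  obtain ⟨d, hd, h3⟩ := hx (K₀ ⊓ K₁) hK inferInstance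
  have h4 : d⁻¹ * x ∈ OAct hA n c N := h2 (OIM_mono inf_le_right h3)
  have h5 : x ∈ OAct hA n c N := OAct_mono hA le_rfl (dvd_zero N) hx0
  have h6 : d ∈ OAct hA n c N := by
    have := (OAct hA n c N).mul_mem h5 ((OAct hA n c N).inv_mem h4)
    have e : x * (d⁻¹ * x)⁻¹ = d := by group
    rwa [e] at this
  obtain ⟨y, hy, hdy⟩ := hN2 d hd h6
  have h7 : d ∈ OIM K₀ := by rw [hdy]; exact hMK y
  have h8 := (OIM K₀).mul_mem h7 (OIM_mono inf_le_left h3)
  rw [mul_inv_cancel_left] at h8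
  exact h₀ h8

/-- The closure of a finitely generated abelian subgroup is finitely generated. -/
theorem cl_fg (hA : S_ACT) (hSTEP : S_STEP) (hMAT : S_MAT) (hFIN : S_FIN) (hABGL : S_ABGL) (hFGX : S_FGX)
    (hC : Core) (hn : 2 ≤ n) (C : Subgroup (Out n)) (hcomm : ∀ x ∈ C, ∀ y ∈ C, x * y = y * x) (c : ℕ)
    (hc : ∀ M : ℕ, 0 < M → ∃ N : ℕ, 0 < N ∧ ∀ x ∈ C, x ∈ OAct hA n c N → ∃ y ∈ C, x = y ^ M) :
    (cl C).FG := by
  classical
  rw [← Group.fg_iff_subgroup_fg]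
  let _ : CommGroup (cl C) := { (inferInstance : Group (cl C)) with
    mul_comm := fun x y => Subtype.ext (cl_comm hC hn C hcomm x x.2 y y.2) }
  let ι : cl C →* Out n := (cl C).subtype
  have h0 : CAct hA ι 0 0 = ⊤ := by
    rw [eq_top_iff]
    intro x _
    rw [mem_CAct]
    exact act_zero _ _ _
  have hb : CAct hA ι c 0 = ⊥ := by
    rw [eq_bot_iff]
    intro x hx
    rw [Subgroup.mem_bot]
    exact Subtype.ext (cl_bot hA hFIN hC hn C c hc x x.2 hx)
  refine hFGX.2 (cl C) (fun k => CAct hA ι k 0) c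
    (fun a b hab x hx => OAct_mono hA hab (dvd_refl 0) hx) h0 hb ?_
  intro k hk
  rcases Nat.eq_zero_or_pos k with hk0 | hk0
  · subst hk0
    obtain ⟨P, hP, -⟩ := layer0 hA hMAT ι
    obtain ⟨s, hs⟩ := hABGL n (cl C) P
    refine ⟨s, fun x _ => ?_, fun x _ => ?_⟩
    · rw [SetLike.mem_coe, h0]; trivial
    · obtain ⟨y, hy, hxy⟩ := hs x
      exact ⟨y, hy, hP x y hxy⟩
  · obtain ⟨Q, _, hQ, f, -, hker, -⟩ := layer hA hSTEP hn ι k hk0
    obtain ⟨s, hs⟩ := hFGX.1 (CAct hA ι k 0) Q f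
    refine ⟨s.image Subtype.val, fun x hx => ?_, fun x hx => ?_⟩
    · rw [Finset.coe_image] at hx
      obtain ⟨y, _, rfl⟩ := hx
      exact y.2
    · obtain ⟨y, hy, hxy⟩ := hs ⟨x, hx⟩
      refine ⟨y, ?_, ?_⟩
      · have h1 : (y : cl C) ∈ (Subgroup.closure (s : Set (CAct hA ι k 0))).map
            (CAct hA ι k 0).subtype := ⟨y, hy, rfl⟩
        rw [MonoidHom.map_closure] at h1
        rw [Finset.coe_image]
        exact h1
      · have h1 : f (⟨x, hx⟩ * y⁻¹) = 1 := by rw [map_mul, map_inv, hxy, mul_inv_cancel]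
        exact (hker _).1 h1

/-- Finitely generated abelian subgroups are closed. -/
theorem cl_eq (hC : Core) (hn : 2 ≤ n) (hSEP : S_SEPAB) (C : Subgroup (Out n))
    (hcomm : ∀ x ∈ C, ∀ y ∈ C, x * y = y * x) (hfg : (cl C).FG) : cl C ≤ C := by
  intro x hx
  by_contra hxC
  have hD := cl_comm hC hn C hcomm
  let _ : CommGroup (cl C) := { (inferInstance : Group (cl C)) with
    mul_comm := fun x y => Subtype.ext (hD x x.2 y y.2) }
  have : Group.FG (cl C) := (Group.fg_iff_subgroup_fg _).2 hfg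
  obtain ⟨T, hCT, hT, hxT⟩ := hSEP (cl C) (C.subgroupOf (cl C)) ⟨x, hx⟩ hxC
  obtain ⟨K, hK, hKf, h⟩ := abel_case hC hn (cl C) (T.map (cl C).subtype) hD hfg (by
    show ((T.map (cl C).subtype).comap (cl C).subtype).index ≠ 0
    rw [Subgroup.comap_map_eq_self_of_injective (Subgroup.subtype_injective _)]
    exact hT.index_ne_zero)
  obtain ⟨c, hc, h1⟩ := hx K hK hKf
  obtain ⟨y, hy, hyx⟩ := h _ ((cl C).mul_mem ((cl C).inv_mem (le_cl C hc)) hx) h1
  apply hxT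
  have h2 : (⟨c, le_cl C hc⟩ : cl C) ∈ T := hCT hc
  have h3 := T.mul_mem h2 hy
  have h4 : (⟨c, le_cl C hc⟩ : cl C) * y = ⟨x, hx⟩ := by
    apply Subtype.ext
    show c * (y : Out n) = x
    have h5 : (y : Out n) = c⁻¹ * x := hyx
    rw [h5, mul_inv_cancel_left]
  rwa [h4] at h3

/-- Finitely generated virtually abelian subgroups are closed. -/
theorem sep_case (S C : Subgroup (Out n)) (hCS : C ≤ S) (hfi : C.relIndex S ≠ 0)
    (hcl : cl C ≤ C) (x : Out n) (hx : x ∉ S) :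
    ∃ (K : Subgroup (FreeGroup (Fin n))) (_ : K.Characteristic),
      K.FiniteIndex ∧ ∀ s ∈ S, s⁻¹ * x ∉ OIM K := by
  have h2 : ∀ q : S ⧸ C.subgroupOf S, ∃ (K : Subgroup (FreeGroup (Fin n))) (_ : K.Characteristic),
      K.FiniteIndex ∧ ∀ c ∈ C, c⁻¹ * (((q.out : S) : Out n)⁻¹ * x) ∉ OIM K := by
    intro q
    have h3 : ((q.out : S) : Out n)⁻¹ * x ∉ cl C := by
      intro h
      have h4 := S.mul_mem q.out.2 (hCS (hcl h))
      rw [mul_inv_cancel_left] at h4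
      exact hx h4
    by_contra hcon
    apply h3
    intro K hK hKf
    by_contra hc
    push Not at hc
    exact hcon ⟨K, hK, hKf, hc⟩
  choose K₂ hK₂ hK₂f h₂ using h2
  have hfinq : Finite (S ⧸ C.subgroupOf S) := Subgroup.finiteIndex_iff_finite_quotient.1 ⟨hfi⟩
  refine ⟨⨅ q, K₂ q, inferInstance, Subgroup.finiteIndex_iInf hK₂f, fun s hs hsx => ?_⟩
  let q : S ⧸ C.subgroupOf S := ((⟨s, hs⟩ : S) : S ⧸ C.subgroupOf S)
  have hq : ((q.out : S) : Out n)⁻¹ * s ∈ C := by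
    have : (q.out : S)⁻¹ * ⟨s, hs⟩ ∈ C.subgroupOf S := QuotientGroup.eq.1 (QuotientGroup.out_eq' q)
    exact this
  refine h₂ q _ hq ?_
  have e : (((q.out : S) : Out n)⁻¹ * s)⁻¹ * (((q.out : S) : Out n)⁻¹ * x) = s⁻¹ * x := by group
  rw [e]
  exact OIM_mono (iInf_le _ q) hsx

end Pool.Agent.Helper76x.OF
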