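import Pool.Agent.Helper76x.OF.Stm

/-!
# Project OF, piece CHEV (helper22): Chevalley's theorem on units
-/

set_option autoImplicit false

namespace Pool.Agent.Helper76x.OF

open NumberField

namespace Chev

variable {K : Type} [Field K] [NumberField K]

/-- a nonzero integer is not divisible by all natural numbers -/
theorem exists_not_dvd {α : 𝓞 K} (hα : α ≠ 0) : ∃ n : ℕ, 0 < n ∧ ¬ (n : 𝓞 K) ∣ α := by
  have h0 : Algebra.norm ℤ α ≠ 0 := Algebra.norm_ne_zero_iff.2 hα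
  refine ⟨(Algebra.norm ℤ α).natAbs + 1, Nat.succ_pos _, fun h => ?_⟩
  have h1 := map_dvd (Algebra.norm ℤ) h
  rw [Algebra.norm_natCast] at h1
  have hd : Module.finrank ℤ (𝓞 K) ≠ 0 := by
    rw [RingOfIntegers.rank]
    exact Module.finrank_pos.ne'
  have h2 : (((Algebra.norm ℤ α).natAbs + 1 : ℕ) : ℤ) ∣ Algebra.norm ℤ α :=
    (dvd_pow_self _ hd).trans h1
  have h3 := Int.natAbs_dvd_natAbs.2 h2
  have h4 := Nat.le_of_dvd (Int.natAbs_pos.2 h0) h3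
  rw [Int.natAbs_natCast] at h4
  omega

/-- roots of unity which are congruent to one -/
theorem exists_N2 (K : Type) [Field K] [NumberField K] : ∃ N : ℕ, 0 < N ∧ ∀ (ξ : (𝓞 K)ˣ) (W : ℕ), 0 < W →
    ξ ^ W = 1 → (N : 𝓞 K) ∣ (ξ : 𝓞 K) - 1 → ξ = 1 := by
  classical
  have hfin : Finite (Units.torsion K) := inferInstance
  have : Fintype (Units.torsion K) := Fintype.ofFinite _
  have h1 : ∀ ξ : Units.torsion K, ∃ n : ℕ, 0 < n ∧ ((ξ : (𝓞 K)ˣ) ≠ 1 →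
      ¬ (n : 𝓞 K) ∣ ((ξ : (𝓞 K)ˣ) : 𝓞 K) - 1) := by
    intro ξ
    by_cases h : (ξ : (𝓞 K)ˣ) = 1
    · exact ⟨1, one_pos, fun h' => absurd h h'⟩
    · obtain ⟨n, hn, hn'⟩ := exists_not_dvd (α := ((ξ : (𝓞 K)ˣ) : 𝓞 K) - 1) (by
        rw [sub_ne_zero]
        intro h'
        exact h (Units.ext h'))
      exact ⟨n, hn, fun _ => hn'⟩
  choose f hf hf' using h1
  refine ⟨∏ ξ, f ξ, Finset.prod_pos fun ξ _ => hf ξ, fun ξ W hW hξ hdvd => ?_⟩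
  by_contra hne
  have hmem : ξ ∈ Units.torsion K := by
    rw [Units.torsion, CommGroup.mem_torsion]
    exact isOfFinOrder_iff_pow_eq_one.2 ⟨W, hW, hξ⟩
  apply hf' ⟨ξ, hmem⟩ hne
  refine Dvd.dvd.trans ?_ hdvd
  exact_mod_cast Nat.cast_dvd_cast (Finset.dvd_prod_of_mem f (Finset.mem_univ _))

/-- an exponent of the units modulo `N` -/
theorem exists_exp (K : Type) [Field K] [NumberField K] {N : ℕ} (hN : 0 < N) :
    ∃ e : ℕ, 0 < e ∧ ∀ z : (𝓞 K)ˣ, (N : 𝓞 K) ∣ ((z ^ e : (𝓞 K)ˣ) : 𝓞 K) - 1 := by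
  have hI : Ideal.span {(N : 𝓞 K)} ≠ ⊥ := by
    rw [Ne, Ideal.span_singleton_eq_bot]
    exact_mod_cast hN.ne'
  have hfin : Finite (𝓞 K ⧸ Ideal.span {(N : 𝓞 K)}) := Ideal.finiteQuotientOfFreeOfNeBot _ hI
  have hfin' : Finite (𝓞 K ⧸ Ideal.span {(N : 𝓞 K)})ˣ := inferInstance
  refine ⟨Nat.card (𝓞 K ⧸ Ideal.span {(N : 𝓞 K)})ˣ, Nat.card_pos, fun z => ?_⟩
  rw [← Ideal.mem_span_singleton, ← Ideal.Quotient.eq_zero_iff_mem, map_sub, map_one, sub_eq_zero]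
  have h1 : (Units.map (Ideal.Quotient.mk (Ideal.span {(N : 𝓞 K)})).toMonoidHom z) ^
      Nat.card (𝓞 K ⧸ Ideal.span {(N : 𝓞 K)})ˣ = 1 := pow_card_eq_one'
  have h2 := congrArg Units.val h1
  rw [← map_pow] at h2
  exact h2

/-- the units modulo powers are finite -/
theorem finite_quot (K : Type) [Field K] [NumberField K] {n : ℕ} (hn : 0 < n) :
    Finite ((𝓞 K)ˣ ⧸ (powMonoidHom n : (𝓞 K)ˣ →* (𝓞 K)ˣ).range) := by
  have hfg : Group.FG (𝓞 K)ˣ := Group.fg_iff_monoid_fg.2 inferInstance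
  have hfg' : Group.FG ((𝓞 K)ˣ ⧸ (powMonoidHom n : (𝓞 K)ˣ →* (𝓞 K)ˣ).range) := inferInstance
  refine CommGroup.finite_of_fg_isMulTorsion _ ?_
  intro x
  induction x using QuotientGroup.induction_on with
  | H z =>
    rw [isOfFinOrder_iff_pow_eq_one]
    refine ⟨n, hn, ?_⟩
    rw [← QuotientGroup.mk_pow, QuotientGroup.eq_one_iff]
    exact ⟨z, rfl⟩

end Chev

open Chev in
theorem t_CHEV (hNP : S_NONPOW) (hKUM : S_KUM) : S_CHEV := by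
  intro K _ _ M hM
  classical
  obtain ⟨N2, hN2, h2⟩ := exists_N2 K
  obtain ⟨e, he, h3⟩ := exists_exp K hN2
  obtain ⟨W, hW, hK⟩ := hKUM K
  obtain ⟨M', hM'⟩ : ∃ M', M' = M * e * W := ⟨_, rfl⟩
  have hM'0 : 0 < M' := by rw [hM']; positivity
  obtain ⟨F, _, _, _, hζ, hF⟩ := hK M' hM'0
  have hfin := finite_quot K hM'0
  have : Fintype ((𝓞 K)ˣ ⧸ (powMonoidHom M' : (𝓞 K)ˣ →* (𝓞 K)ˣ).range) := Fintype.ofFinite _
  have h4 : ∀ c : (𝓞 K)ˣ ⧸ (powMonoidHom M' : (𝓞 K)ˣ →* (𝓞 K)ˣ).range, ∃ n : ℕ, 0 < n ∧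
      ((∃ y : F, y ^ M' = algebraMap K F ((c.out : 𝓞 K) : K)) ∨
        ∀ u : (𝓞 K)ˣ, ¬ (n : 𝓞 K) ∣ ((c.out * u ^ M' : (𝓞 K)ˣ) : 𝓞 K) - 1) := by
    intro c
    by_cases h : ∃ y : F, y ^ M' = algebraMap K F ((c.out : 𝓞 K) : K)
    · exact ⟨1, one_pos, Or.inl h⟩
    · push Not at h
      obtain ⟨n, hn, hn'⟩ := hNP K F M' hM'0 hζ c.out h
      exact ⟨n, hn, Or.inr hn'⟩
  choose f hf hf' using h4
  refine ⟨(∏ c, f c) * N2, Nat.mul_pos (Finset.prod_pos fun c _ => hf c) hN2, fun x hx => ?_⟩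
  obtain ⟨c, hc⟩ : ∃ c : (𝓞 K)ˣ ⧸ (powMonoidHom M' : (𝓞 K)ˣ →* (𝓞 K)ˣ).range,
      c = QuotientGroup.mk x := ⟨_, rfl⟩
  obtain ⟨u, hu⟩ : ∃ u : (𝓞 K)ˣ, x = c.out * u ^ M' := by
    have h5 : (QuotientGroup.mk c.out : (𝓞 K)ˣ ⧸ (powMonoidHom M' : (𝓞 K)ˣ →* (𝓞 K)ˣ).range) =
        QuotientGroup.mk x := by rw [QuotientGroup.out_eq', hc]
    rw [QuotientGroup.eq] at h5
    obtain ⟨u, hu⟩ := h5
    refine ⟨u, ?_⟩
    rw [powMonoidHom_apply] at hu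
    rw [hu]; group
  have hx1 : ((f c : ℕ) : 𝓞 K) ∣ (x : 𝓞 K) - 1 := by
    refine Dvd.dvd.trans ?_ hx
    exact_mod_cast Nat.cast_dvd_cast
      ((Finset.dvd_prod_of_mem f (Finset.mem_univ c)).trans (dvd_mul_right _ _))
  have hx2 : ((N2 : ℕ) : 𝓞 K) ∣ (x : 𝓞 K) - 1 := by
    refine Dvd.dvd.trans ?_ hx
    exact_mod_cast Nat.cast_dvd_cast (dvd_mul_left _ _)
  obtain ⟨y, hy⟩ : ∃ y : F, y ^ M' = algebraMap K F ((c.out : 𝓞 K) : K) := by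
    rcases hf' c with h | h
    · exact h
    · exfalso
      apply h u
      rw [← hu]
      exact hx1
  have hxK : ((x : 𝓞 K) : K) ≠ 0 := by
    intro h
    exact x.ne_zero (by exact_mod_cast h)
  obtain ⟨z, hz⟩ := hF ((x : 𝓞 K) : K) (y * algebraMap K F ((u : 𝓞 K) : K)) hxK (by
    rw [mul_pow, hy, ← map_pow, ← map_mul, hu]
    push_cast
    rfl)
  -- `z` is a unit
  have hzint : IsIntegral ℤ z := by
    refine IsIntegral.of_pow hM'0 ?_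
    rw [← hz]
    exact (RingOfIntegers.isIntegral_coe (x : 𝓞 K)).pow W
  obtain ⟨z0, rfl⟩ : ∃ z0 : 𝓞 K, (z0 : K) = z := ⟨⟨z, hzint⟩, rfl⟩
  have hz1 : ((x ^ W : (𝓞 K)ˣ) : 𝓞 K) = z0 ^ M' := by
    apply RingOfIntegers.coe_injective
    push_cast
    exact hz
  have hz2 : IsUnit z0 := by
    rw [← isUnit_pow_iff hM'0.ne', ← hz1]
    exact Units.isUnit _
  obtain ⟨z1, rfl⟩ := hz2
  have hz3 : x ^ W = z1 ^ M' := Units.ext (by rw [hz1]; push_cast; rfl)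
  refine ⟨z1 ^ e, ?_⟩
  have h6 : x * ((z1 ^ e) ^ M)⁻¹ = 1 := by
    refine h2 _ W hW ?_ ?_
    · rw [mul_pow, hz3, inv_pow, ← pow_mul, ← pow_mul, hM',
        show M * e * W = e * (M * W) by ring, mul_inv_cancel]
    · -- the congruence
      have h7 := h3 z1
      have h8 : (N2 : 𝓞 K) ∣ (((z1 ^ e) ^ M : (𝓞 K)ˣ) : 𝓞 K) - 1 := by
        refine h7.trans ?_
        push_cast
        have h11 := sub_dvd_pow_sub_pow ((z1 : 𝓞 K) ^ e) 1 M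
        rwa [one_pow] at h11
      have h9 : ((x * ((z1 ^ e) ^ M)⁻¹ : (𝓞 K)ˣ) : 𝓞 K) - 1 =
          ((((z1 ^ e) ^ M)⁻¹ : (𝓞 K)ˣ) : 𝓞 K) * (((x : 𝓞 K) - 1) -
            ((((z1 ^ e) ^ M : (𝓞 K)ˣ) : 𝓞 K) - 1)) := by
        have h10 : ((((z1 ^ e) ^ M)⁻¹ : (𝓞 K)ˣ) : 𝓞 K) * (((z1 ^ e) ^ M : (𝓞 K)ˣ) : 𝓞 K) = 1 :=
          Units.inv_mul _
        rw [Units.val_mul]
        linear_combination h10
      rw [h9]
      exact Dvd.dvd.mul_left (dvd_sub hx2 h8) _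
  exact eq_of_mul_inv_eq_one h6

end Pool.Agent.Helper76x.OF
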