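import Pool.Agent.Helper76x.OF.Stm2

/-!
# Project OF, piece COMM (helper66)
-/

set_option autoImplicit false

namespace Pool.Agent.Helper76x.OF

open Mg

theorem t_COMM : S_COMM := by
  intro n c N v hn h w hw hwc
  have hw0 : w ≠ [] := by
    rintro rfl
    simp at hw
  obtain ⟨w', a, rfl⟩ : ∃ w' a, w = w' ++ [a] :=
    ⟨w.dropLast, w.getLast hw0, (List.dropLast_append_getLast hw0).symm⟩
  obtain ⟨i, hi⟩ : ∃ i : Fin n, i ≠ a := by
    have : Nontrivial (Fin n) := Fin.nontrivial_iff_two_le.2 hn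
    exact exists_ne a
  have h1 := h i (i :: (w' ++ [a])) (by rw [List.length_cons]; exact hwc)
  rw [sub_apply, X_mul_cons, if_pos rfl] at h1
  have h2 : (v * X i) (i :: (w' ++ [a])) = 0 := by
    rw [← List.cons_append, mul_X_concat, if_neg hi.symm]
  rwa [h2, sub_zero] at h1

end Pool.Agent.Helper76x.OF
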