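import Pool.Agent.Helper76x.OF.Stm2

/-! Piece MAT of project OF: the action on the abelianization (helper6). -/

set_option autoImplicit false

namespace Pool.Agent.Helper76x.OF

open Mg

variable {n : ℕ}

theorem mul_single (f g : Mg n) (i : Fin n) : (f * g) [i] = f [] * g [i] + f [i] * g [] := by
  rw [mul_cons, mul_nil]
  rfl

theorem mag_mul_single (g h : FreeGroup (Fin n)) (i : Fin n) :
    mag (g * h) [i] = mag g [i] + mag h [i] := by
  rw [map_mul, mul_single, mag_nil, mag_nil]
  ring

theorem mag_one_single (i : Fin n) : mag (1 : FreeGroup (Fin n)) [i] = 0 := by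
  rw [map_one]
  rfl

theorem mag_inv_single (g : FreeGroup (Fin n)) (i : Fin n) : mag g⁻¹ [i] = -mag g [i] := by
  have h1 := mag_mul_single g g⁻¹ i
  rw [mul_inv_cancel, mag_one_single] at h1
  linarith

theorem mag_of_single (i j : Fin n) : mag (FreeGroup.of j) [i] = if i = j then 1 else 0 := by
  rw [mag_of, add_apply, one_cons, zero_add]
  simp [X]

/-- additive functions on the free group are combinations of the exponent sums -/
theorem additive_eq (F : FreeGroup (Fin n) → ℤ) (hF : ∀ g h, F (g * h) = F g + F h)
    (g : FreeGroup (Fin n)) : F g = ∑ k, F (FreeGroup.of k) * mag g [k] := by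
  have h1 : F 1 = 0 := by
    have := hF 1 1
    rw [mul_one] at this
    linarith
  have hinv : ∀ g, F g⁻¹ = -F g := by
    intro g
    have := hF g g⁻¹
    rw [mul_inv_cancel, h1] at this
    linarith
  induction g using FreeGroup.induction_on with
  | C1 => simp [h1]
  | of i => simp [X, one_cons]
  | inv_of i h =>
    rw [hinv, h, ← Finset.sum_neg_distrib]
    refine Finset.sum_congr rfl fun k _ => ?_
    rw [mag_inv_single]
    ring
  | mul x y hx hy =>
    rw [hF, hx, hy, ← Finset.sum_add_distrib]
    refine Finset.sum_congr rfl fun k _ => ?_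
    rw [mag_mul_single]
    ring

theorem act_single {N : ℕ} {φ : MulAut (FreeGroup (Fin n))} (h : Act 1 N φ)
    (g : FreeGroup (Fin n)) (i : Fin n) : (N : ℤ) ∣ mag (φ g) [i] - mag g [i] := by
  obtain ⟨u, hu, h⟩ := h
  have h1 := h g [i] (by simp)
  rw [sub_apply, mul_single, mul_single, mag_nil, mag_nil, hu] at h1
  have h2 : 1 * u [i] + mag (φ g) [i] * 1 - (1 * mag g [i] + u [i] * 1) =
      mag (φ g) [i] - mag g [i] := by ring
  rwa [h2] at h1

theorem mag_act (φ : MulAut (FreeGroup (Fin n))) (g : FreeGroup (Fin n)) (i : Fin n) :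
    mag (φ g) [i] = ∑ k, mag (φ (FreeGroup.of k)) [i] * mag g [k] :=
  additive_eq (fun g => mag (φ g) [i]) (fun g h => by
    rw [map_mul φ, mag_mul_single]) g

theorem t_MAT : S_MAT := by
  intro n
  refine ⟨⟨⟨fun φ => Matrix.of fun i j => mag (φ (FreeGroup.of j)) [i], ?_⟩, ?_⟩, ?_, ?_⟩
  · ext i j
    rw [Matrix.of_apply, MulAut.one_apply, mag_of_single, Matrix.one_apply]
  · intro φ ψ
    ext i j
    rw [Matrix.mul_apply]
    simp only [Matrix.of_apply]
    exact mag_act φ (ψ (FreeGroup.of j)) i
  · intro φ
    constructor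
    · intro h
      refine ⟨1, rfl, fun g w hw => ?_⟩
      rw [mul_one, one_mul, sub_apply]
      rcases w with _ | ⟨i, _ | ⟨j, w⟩⟩
      · rw [mag_nil, mag_nil, sub_self]
        exact dvd_zero _
      · have h1 : ∀ k, mag (φ (FreeGroup.of k)) [i] = if i = k then 1 else 0 := by
          intro k
          have h2 := congrFun (congrFun h i) k
          exact h2.trans Matrix.one_apply
        rw [mag_act φ g i]
        simp [h1]
      · simp at hw
    · intro h
      ext i j
      have h1 := act_single h (FreeGroup.of j) i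
      rw [Nat.cast_zero, zero_dvd_iff, sub_eq_zero, mag_of_single] at h1
      exact h1.trans Matrix.one_apply.symm
  · intro N φ h i j
    have h1 := act_single h (FreeGroup.of j) i
    rw [mag_of_single] at h1
    rw [Matrix.sub_apply, Matrix.one_apply]
    exact h1

end Pool.Agent.Helper76x.OF
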