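import Pool.Agent.Helper76x.OF.DGEN
import Pool.Agent.Helper76x.OF.MAT

/-! Piece DADD of project OF: additivity of the defect (helper6). -/

set_option autoImplicit false

namespace Pool.Agent.Helper76x.OF

open Mg

theorem t_DADD : S_DADD := by
  intro n c φ u hu h
  have h1 : ∀ g h w, w.length = c + 1 → dft φ u (g * h) w = dft φ u g w + dft φ u h w := by
    intro g g' w hw
    rw [dft_mul, add_apply]
    have h2 := top_left (mag_nil (φ g)) (h g') hw
    have h3 := top_right (mag_nil g') (h g) hw
    rw [Nat.cast_zero, zero_dvd_iff, sub_eq_zero] at h2 h3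
    rw [h2, h3, add_comm]
  refine ⟨h1, fun ψ hψ g w hw => ?_⟩
  rw [additive_eq (fun g => dft φ u g w) (fun g g' => h1 g g' w hw) (ψ g),
    additive_eq (fun g => dft φ u g w) (fun g g' => h1 g g' w hw) g]
  refine Finset.sum_congr rfl fun k _ => ?_
  have h2 := act_single hψ g k
  rw [Nat.cast_zero, zero_dvd_iff, sub_eq_zero] at h2
  rw [h2]

end Pool.Agent.Helper76x.OF
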