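import Pool.Agent.Helper76x.OF.ACT

/-!
# Project OF, piece DCHG: change of `u`
-/

set_option autoImplicit false

namespace Pool.Agent.Helper76x.OF

open Mg

variable {n : ℕ}

/-- On the words of length `c + 1` only the constant term of the other factor counts. -/
theorem top_mul_right {c N : ℕ} {f g : Mg n} (hf : Small c N f) (hg : g [] = 1)
    (w : List (Fin n)) (hw : w.length = c + 1) : (N : ℤ) ∣ (f * g) w - f w := by
  have h1 : (f * g) w - f w = (f * (g - 1)) w := by
    rw [mul_sub, mul_one, sub_apply]
  rw [h1, mul_apply]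
  refine Finset.dvd_sum fun k hk => ?_
  rw [Finset.mem_range] at hk
  by_cases hkc : k ≤ c
  · exact Dvd.dvd.mul_right (hf _ (by rw [List.length_take]; omega)) _
  · have h2 : w.drop k = [] := List.drop_eq_nil_of_le (by omega)
    rw [h2, sub_apply, hg, one_nil, sub_self, mul_zero]
    exact dvd_zero _

/-- On the words of length `c + 1` only the constant term of the other factor counts. -/
theorem top_mul_left {c N : ℕ} {f g : Mg n} (hf : Small c N f) (hg : g [] = 1)
    (w : List (Fin n)) (hw : w.length = c + 1) : (N : ℤ) ∣ (g * f) w - f w := by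
  have h1 : (g * f) w - f w = ((g - 1) * f) w := by
    rw [sub_mul, one_mul, sub_apply]
  rw [h1, mul_apply]
  refine Finset.dvd_sum fun k hk => ?_
  rw [Finset.mem_range] at hk
  rcases Nat.eq_zero_or_pos k with rfl | hk0
  · rw [List.take_zero, sub_apply, hg, one_nil, sub_self, zero_mul]
    exact dvd_zero _
  · exact Dvd.dvd.mul_left (hf _ (by rw [List.length_drop]; omega)) _

/-- The commutator with `X i` depends, on the words of length `c + 1`, only on the values at the words of
length `c`. -/
theorem comm_congr {c : ℕ} {v v' : Mg n} (h : ∀ w, w.length = c → v w = v' w) (i : Fin n)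
    (w : List (Fin n)) (hw : w.length = c + 1) :
    (X i * v - v * X i) w = (X i * v' - v' * X i) w := by
  rw [sub_apply, sub_apply]
  congr 1
  · cases w with
    | nil => simp at hw
    | cons a L =>
      rw [X_mul_cons, X_mul_cons, h L (by simpa using hw)]
  · induction w using List.reverseRecOn with
    | nil => simp at hw
    | append_singleton L a _ =>
      rw [mul_X_concat, mul_X_concat, h L (by simpa using hw)]

theorem dchg_dft_mul (φ : MulAut (FreeGroup (Fin n))) (u v : Mg n) (g : FreeGroup (Fin n)) :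
    dft φ (u * (1 + v)) g = dft φ u g * (1 + v) + u * (mag g * v - v * mag g) := by
  unfold dft
  noncomm_ring

theorem mag_comm (i : Fin n) (v : Mg n) :
    mag (FreeGroup.of i) * v - v * mag (FreeGroup.of i) = X i * v - v * X i := by
  rw [mag_of]
  noncomm_ring

theorem top_dft {c N : ℕ} {φ : MulAut (FreeGroup (Fin n))} {u v : Mg n} (hu : u [] = 1)
    (hv : v [] = 0) (h1 : ∀ g, Small c N (dft φ u g)) (i : Fin n)
    (h2 : Small c N (X i * v - v * X i)) (w : List (Fin n)) (hw : w.length = c + 1) :
    (N : ℤ) ∣ dft φ (u * (1 + v)) (FreeGroup.of i) w - dft φ u (FreeGroup.of i) w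
      - (X i * v - v * X i) w := by
  rw [dchg_dft_mul, mag_comm, add_apply]
  have h3 := top_mul_right (h1 (FreeGroup.of i)) (g := 1 + v)
    (by rw [add_apply, one_nil, hv, add_zero]) w hw
  have h4 := top_mul_left h2 hu w hw
  have h5 := dvd_add h3 h4
  have h6 : (dft φ u (FreeGroup.of i) * (1 + v)) w - dft φ u (FreeGroup.of i) w +
      ((u * (X i * v - v * X i)) w - (X i * v - v * X i) w) =
      (dft φ u (FreeGroup.of i) * (1 + v)) w + (u * (X i * v - v * X i)) w -
        dft φ u (FreeGroup.of i) w - (X i * v - v * X i) w := by ring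
  rw [h6] at h5
  exact h5

theorem DCHG1 (c : ℕ) (φ : MulAut (FreeGroup (Fin n))) (u : Mg n) (hu : u [] = 1)
    (N : ℕ) (u' : Mg n) (hu' : u' [] = 1) (h1 : ∀ g, Small c N (dft φ u g))
    (h2 : ∀ g, Small c N (dft φ u' g)) : ∃ v : Mg n, (∀ w, w.length ≠ c → v w = 0) ∧
      ∀ (i : Fin n) w, w.length = c + 1 → (N : ℤ) ∣ dft φ u' (FreeGroup.of i) w
        - dft φ u (FreeGroup.of i) w - (X i * v - v * X i) w := by
  classical
  obtain ⟨s, hs, e1, e2⟩ := trunc_inv (c + 1) u hu
  set v' : Mg n := s * u' - 1 with hv'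
  have hv0 : v' [] = 0 := by rw [hv', sub_apply, mul_nil, hs, hu', one_nil, mul_one, sub_self]
  -- the difference of `u'` and `u (1 + v')`
  have h3 : ∀ g, dft φ u' g = dft φ (u * (1 + v')) g
      - (mag (φ g) * ((u * s - 1) * u') - (u * s - 1) * u' * mag g) := by
    intro g
    rw [hv']
    unfold dft
    noncomm_ring
  have h4 : ∀ g, Small (c + 1) N (mag (φ g) * ((u * s - 1) * u') - (u * s - 1) * u' * mag g) := by
    intro g
    have e3 : Small (c + 1) N ((u * s - 1) * u') := (e1.mul_right _).mono le_rfl (dvd_zero N)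
    exact (e3.mul_left _).sub (e3.mul_right _)
  have h5 : ∀ g, Small c N (mag g * v' - v' * mag g) := by
    intro g
    have h6 : u * (mag g * v' - v' * mag g) = dft φ u' g - dft φ u g * (1 + v') +
        (mag (φ g) * ((u * s - 1) * u') - (u * s - 1) * u' * mag g) := by
      have h7 := h3 g
      rw [dchg_dft_mul] at h7
      rw [h7]
      abel
    have h8 : Small c N (u * (mag g * v' - v' * mag g)) := by
      rw [h6]
      exact ((h2 g).sub ((h1 g).mul_right _)).add ((h4 g).mono (Nat.le_succ c) dvd_rfl)
    have h9 : mag g * v' - v' * mag g = s * (u * (mag g * v' - v' * mag g)) -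
        (s * u - 1) * (mag g * v' - v' * mag g) := by
      noncomm_ring
    rw [h9]
    exact (h8.mul_left s).sub ((e2.mul_right _).mono (Nat.le_succ c) (dvd_zero N))
  let v₀ : Mg n := fun w => if w.length = c then v' w else 0
  refine ⟨v₀, fun w hw => if_neg hw, fun i w hw => ?_⟩
  have h10 : (X i * v₀ - v₀ * X i) w = (X i * v' - v' * X i) w := by
    refine comm_congr ?_ i w hw
    intro w hw
    exact if_pos hw
  rw [h10]
  have h11 : Small c N (X i * v' - v' * X i) := by
    have := h5 (FreeGroup.of i)
    rwa [mag_comm] at this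
  have h12 := top_dft hu hv0 h1 i h11 w hw
  have h13 := h4 (FreeGroup.of i) w hw.le
  have h14 := congrFun (h3 (FreeGroup.of i)) w
  rw [sub_apply] at h14
  rw [h14]
  have h15 := dvd_sub h12 h13
  have h16 : ∀ a b d e : ℤ, a - d - b - e = a - b - e - d := fun a b d e => by ring
  rw [h16]
  exact h15

theorem DCHG2 (c : ℕ) (φ : MulAut (FreeGroup (Fin n))) (u : Mg n) (hc : 1 ≤ c) (hu : u [] = 1)
    (v : Mg n) (hv : ∀ w, w.length ≠ c → v w = 0) (h1 : ∀ g, Small c 0 (dft φ u g)) :
    (∀ g, Small c 0 (dft φ (u * (1 + v)) g)) ∧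
      ∀ (i : Fin n) w, w.length = c + 1 → dft φ (u * (1 + v)) (FreeGroup.of i) w
        = dft φ u (FreeGroup.of i) w + (X i * v - v * X i) w := by
  have hK : ∀ g, Small c 0 (mag g * v - v * mag g) := by
    intro g w hw
    have h2 : (mag g * v) w = v w := by
      rw [mul_apply, Finset.sum_eq_single 0]
      · rw [List.take_zero, mag_nil, one_mul, List.drop_zero]
      · intro k hk hk0
        rw [hv (w.drop k) (by rw [List.length_drop]; rw [Finset.mem_range] at hk; omega), mul_zero]
      · intro h
        exact absurd (Finset.mem_range.2 (Nat.succ_pos _)) h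
    have h3 : (v * mag g) w = v w := by
      rw [mul_apply, Finset.sum_eq_single w.length]
      · rw [List.take_length, List.drop_length, mag_nil, mul_one]
      · intro k hk hk0
        rw [hv (w.take k) (by rw [List.length_take]; rw [Finset.mem_range] at hk; omega), zero_mul]
      · intro h
        exact absurd (Finset.mem_range.2 (Nat.lt_succ_self _)) h
    rw [sub_apply, h2, h3, sub_self]
    exact dvd_zero _
  refine ⟨fun g => ?_, fun i w hw => ?_⟩
  · rw [dchg_dft_mul]
    exact ((h1 g).mul_right _).add ((hK g).mul_left _)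
  · have h4 : Small c 0 (X i * v - v * X i) := by
      have := hK (FreeGroup.of i)
      rwa [mag_comm] at this
    have h5 := top_dft hu (hv [] (by simp; omega)) h1 i h4 w hw
    rw [Nat.cast_zero, zero_dvd_iff] at h5
    linarith

theorem t_DCHG : S_DCHG := fun _ c φ u hc hu =>
  ⟨fun N u' hu' h1 h2 => DCHG1 c φ u hu N u' hu' h1 h2, fun v hv h1 => DCHG2 c φ u hc hu v hv h1⟩

end Pool.Agent.Helper76x.OF
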