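import Pool.Agent.Helper76x.OF.Stm2

/-! Piece DGEN of project OF, and lemmas on the defect (helper6). -/

set_option autoImplicit false

namespace Pool.Agent.Helper76x.OF

open Mg

variable {n : ℕ}

theorem dft_mul (φ : MulAut (FreeGroup (Fin n))) (u : Mg n) (g h : FreeGroup (Fin n)) :
    dft φ u (g * h) = mag (φ g) * dft φ u h + dft φ u g * mag h := by
  unfold dft
  rw [map_mul φ, map_mul mag, map_mul mag]
  noncomm_ring

theorem dft_one (φ : MulAut (FreeGroup (Fin n))) (u : Mg n) : dft φ u 1 = 0 := by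
  unfold dft
  rw [map_one, map_one, one_mul, mul_one, sub_self]

theorem dft_inv (φ : MulAut (FreeGroup (Fin n))) (u : Mg n) (g : FreeGroup (Fin n)) :
    dft φ u g⁻¹ = -(mag (φ g⁻¹) * dft φ u g * mag g⁻¹) := by
  have h1 := dft_mul φ u g g⁻¹
  rw [mul_inv_cancel, dft_one] at h1
  have h2 : mag (φ g⁻¹) * mag (φ g) = 1 := by
    rw [← map_mul, ← map_mul, inv_mul_cancel, map_one, map_one]
  calc dft φ u g⁻¹ = (mag (φ g⁻¹) * mag (φ g)) * dft φ u g⁻¹ := by rw [h2, one_mul]
    _ = mag (φ g⁻¹) * (mag (φ g) * dft φ u g⁻¹ + dft φ u g * mag g⁻¹) -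
        mag (φ g⁻¹) * dft φ u g * mag g⁻¹ := by noncomm_ring
    _ = -(mag (φ g⁻¹) * dft φ u g * mag g⁻¹) := by rw [← h1, mul_zero, zero_sub]

theorem dgen_aux {c N : ℕ} {φ : MulAut (FreeGroup (Fin n))} {u : Mg n}
    (h : ∀ i, Small c N (dft φ u (FreeGroup.of i))) (g : FreeGroup (Fin n)) :
    Small c N (dft φ u g) := by
  have hinv : ∀ g : FreeGroup (Fin n), Small c N (dft φ u g) → Small c N (dft φ u g⁻¹) := by
    intro g hg
    rw [dft_inv]
    exact ((hg.mul_left _).mul_right _).neg
  induction g using FreeGroup.induction_on with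
  | C1 =>
    rw [dft_one]
    exact small_zero _ _
  | of i => exact h i
  | inv_of i h => exact hinv _ h
  | mul x y hx hy =>
    rw [dft_mul]
    exact (hy.mul_left _).add (hx.mul_right _)

theorem t_DGEN : S_DGEN := by
  intro n c N φ u _ _ h
  exact dgen_aux h

/-- multiplication by a series with constant term one does not change the first coefficients -/
theorem top_left {c N : ℕ} {f d : Mg n} (hf : f [] = 1) (hd : Small c N d) {w : List (Fin n)}
    (hw : w.length = c + 1) : (N : ℤ) ∣ (f * d) w - d w := by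
  have h1 : (f * d) w - d w = ((f - 1) * d) w := by
    rw [sub_mul, one_mul, sub_apply]
  rw [h1, mul_apply]
  refine Finset.dvd_sum fun k _ => ?_
  rcases Nat.eq_zero_or_pos k with hk | hk
  · subst hk
    rw [List.take_zero, sub_apply, hf, one_nil, sub_self, zero_mul]
    exact dvd_zero _
  · refine Dvd.dvd.mul_left (hd _ ?_) _
    rw [List.length_drop]
    omega

theorem top_right {c N : ℕ} {f d : Mg n} (hf : f [] = 1) (hd : Small c N d) {w : List (Fin n)}
    (hw : w.length = c + 1) : (N : ℤ) ∣ (d * f) w - d w := by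
  have h1 : (d * f) w - d w = (d * (f - 1)) w := by
    rw [mul_sub, mul_one, sub_apply]
  rw [h1, mul_apply]
  refine Finset.dvd_sum fun k hk => ?_
  rcases Nat.lt_or_ge k (c + 1) with h | h
  · refine Dvd.dvd.mul_right (hd _ ?_) _
    rw [List.length_take]
    omega
  · rw [List.drop_of_length_le (by omega), sub_apply, hf, one_nil, sub_self, mul_zero]
    exact dvd_zero _

end Pool.Agent.Helper76x.OF
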