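import Mathlib

/-!
# Project OF (helper76): the ring of noncommutative formal power series, the Magnus embedding, and the
filtration of `Aut (F_n)` by the action on the truncations up to inner automorphisms (with congruences)
-/

set_option autoImplicit false

namespace Pool.Agent.Helper76x.OF

variable {n : ℕ}

/-- Formal power series over `ℤ` in the noncommuting variables `X_0, …, X_{n-1}`: the coefficients of the
words. -/
def Mg (n : ℕ) : Type := List (Fin n) → ℤ

namespace Mg

/-- The multiplication: `(f g) (w) = ∑ f (u) g (v)` over all `w = u v`. -/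
def conv (f g : List (Fin n) → ℤ) : List (Fin n) → ℤ
  | [] => f [] * g []
  | a :: L => f [] * g (a :: L) + conv (fun w => f (a :: w)) g L

theorem conv_add (f g h : List (Fin n) → ℤ) (w : List (Fin n)) :
    conv f (g + h) w = conv f g w + conv f h w := by
  induction w generalizing f with
  | nil => simp [conv, mul_add]
  | cons a L ih => simp only [conv, ih, Pi.add_apply]; ring

theorem add_conv (f g h : List (Fin n) → ℤ) (w : List (Fin n)) :
    conv (f + g) h w = conv f h w + conv g h w := by
  induction w generalizing f g with
  | nil => simp [conv, add_mul]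
  | cons a L ih =>
    have h1 := ih (fun w => f (a :: w)) (fun w => g (a :: w))
    simp only [conv, Pi.add_apply]
    have h2 : (fun w => f (a :: w) + g (a :: w)) =
      (fun w => f (a :: w)) + (fun w => g (a :: w)) := rfl
    rw [h2, h1]; ring

theorem smul_conv (m : ℤ) (f g : List (Fin n) → ℤ) (w : List (Fin n)) :
    conv (fun v => m * f v) g w = m * conv f g w := by
  induction w generalizing f with
  | nil => simp [conv, mul_assoc]
  | cons a L ih => simp only [conv, ih]; ring

theorem conv_assoc (f g h : List (Fin n) → ℤ) (w : List (Fin n)) :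
    conv (conv f g) h w = conv f (conv g h) w := by
  induction w generalizing f with
  | nil => simp [conv, mul_assoc]
  | cons a L ih =>
    have h1 : (fun w => conv f g (a :: w)) =
        (fun v => f [] * (fun w => g (a :: w)) v) + conv (fun w => f (a :: w)) g := by
      funext w; simp [conv]
    have h2 : conv (conv f g) h (a :: L) =
        conv f g [] * h (a :: L) + conv (fun w => conv f g (a :: w)) h L := rfl
    rw [h2, h1, add_conv, smul_conv, ih]
    simp only [conv]; ring

theorem one_conv (g : List (Fin n) → ℤ) (w : List (Fin n)) :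
    conv (fun v => if v = [] then 1 else 0) g w = g w := by
  cases w with
  | nil => simp [conv]
  | cons a L =>
    simp only [conv, if_true, one_mul, List.cons_ne_nil, if_false]
    have h := smul_conv 0 (fun _ => 0) g L
    simp only [zero_mul, mul_zero] at h
    rw [h]; simp

theorem conv_one (f : List (Fin n) → ℤ) (w : List (Fin n)) :
    conv f (fun v => if v = [] then 1 else 0) w = f w := by
  induction w generalizing f with
  | nil => simp [conv]
  | cons a L ih => simp only [conv, ih]; simp

theorem zero_conv (g : List (Fin n) → ℤ) (w : List (Fin n)) : conv (0 : List (Fin n) → ℤ) g w = 0 := by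
  have h := add_conv 0 0 g w
  rw [add_zero] at h
  linarith

theorem conv_zero (f : List (Fin n) → ℤ) (w : List (Fin n)) : conv f (0 : List (Fin n) → ℤ) w = 0 := by
  have h := conv_add f 0 0 w
  rw [add_zero] at h
  linarith

instance instACG : AddCommGroup (Mg n) := inferInstanceAs (AddCommGroup (List (Fin n) → ℤ))

instance : Ring (Mg n) where
  __ := instACG
  mul := conv
  one := fun v => if v = [] then 1 else 0
  left_distrib := fun f g h => funext (conv_add f g h)
  right_distrib := fun f g h => funext (add_conv f g h)
  zero_mul := fun f => funext (zero_conv f)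
  mul_zero := fun f => funext (conv_zero f)
  mul_assoc := fun f g h => funext (conv_assoc f g h)
  one_mul := fun f => funext (one_conv f)
  mul_one := fun f => funext (conv_one f)

@[ext] theorem ext {f g : Mg n} (h : ∀ w, f w = g w) : f = g := funext h

@[simp] theorem add_apply (f g : Mg n) (w : List (Fin n)) : (f + g) w = f w + g w := rfl
@[simp] theorem sub_apply (f g : Mg n) (w : List (Fin n)) : (f - g) w = f w - g w := rfl
@[simp] theorem neg_apply (f : Mg n) (w : List (Fin n)) : (-f) w = -f w := rfl
@[simp] theorem zero_apply (w : List (Fin n)) : (0 : Mg n) w = 0 := rfl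
@[simp] theorem smul_apply (m : ℤ) (f : Mg n) (w : List (Fin n)) : (m • f) w = m * f w := rfl
@[simp] theorem nsmul_apply (m : ℕ) (f : Mg n) (w : List (Fin n)) : (m • f) w = m * f w := by
  rw [← natCast_zsmul, smul_apply]

/-- The series with the coefficients `f (a :: w)`. -/
def tl (a : Fin n) (f : Mg n) : Mg n := fun w => f (a :: w)

@[simp] theorem tl_apply (a : Fin n) (f : Mg n) (w : List (Fin n)) : tl a f w = f (a :: w) := rfl

@[simp] theorem one_nil : (1 : Mg n) [] = 1 := rfl
@[simp] theorem one_cons (a : Fin n) (w : List (Fin n)) : (1 : Mg n) (a :: w) = 0 := rfl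
theorem one_apply (w : List (Fin n)) : (1 : Mg n) w = if w = [] then 1 else 0 := rfl

theorem mul_nil (f g : Mg n) : (f * g) [] = f [] * g [] := rfl

theorem mul_cons (f g : Mg n) (a : Fin n) (w : List (Fin n)) :
    (f * g) (a :: w) = f [] * g (a :: w) + (tl a f * g) w := rfl

/-- The explicit formula for the coefficients of a product. -/
theorem mul_apply (f g : Mg n) (w : List (Fin n)) :
    (f * g) w = ∑ k ∈ Finset.range (w.length + 1), f (w.take k) * g (w.drop k) := by
  induction w generalizing f with
  | nil => simp [mul_nil]
  | cons a L ih =>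
    rw [mul_cons, ih, List.length_cons, Finset.sum_range_succ' _ (L.length + 1)]
    simp [add_comm]

/-- The variable `X_i`. -/
def X (i : Fin n) : Mg n := fun w => if w = [i] then 1 else 0

@[simp] theorem X_nil (i : Fin n) : X i [] = 0 := rfl

theorem X_mul_nil (i : Fin n) (f : Mg n) : (X i * f) [] = 0 := by simp [mul_nil]

theorem X_mul_cons (i : Fin n) (f : Mg n) (a : Fin n) (w : List (Fin n)) :
    (X i * f) (a :: w) = if a = i then f w else 0 := by
  rw [mul_cons]
  have h : tl a (X i) = if a = i then 1 else 0 := by
    ext v
    by_cases ha : a = i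
    · subst ha; simp only [tl_apply, X, List.cons.injEq, true_and, if_true]; rfl
    · simp only [tl_apply, X, List.cons.injEq, ha, false_and, if_false]; rfl
  rw [h]
  by_cases ha : a = i <;> simp [ha]

theorem mul_X_nil (i : Fin n) (f : Mg n) : (f * X i) [] = 0 := by simp [mul_nil]

theorem mul_X_concat (i : Fin n) (f : Mg n) (a : Fin n) (w : List (Fin n)) :
    (f * X i) (w ++ [a]) = if a = i then f w else 0 := by
  induction w generalizing f with
  | nil =>
    rw [List.nil_append, mul_cons]
    simp [mul_nil, X]
  | cons b L ih =>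
    rw [List.cons_append, mul_cons, ih]
    simp [X]

/-- The inverse of `1 + X_i`. -/
def invX (i : Fin n) : Mg n := fun w => if ∀ a ∈ w, a = i then (-1) ^ w.length else 0

theorem X_mul_invX (i : Fin n) : (1 + X i) * invX i = 1 := by
  rw [add_mul, one_mul]
  funext w
  cases w with
  | nil => rw [add_apply, X_mul_nil]; simp [invX]
  | cons a L =>
    rw [add_apply, X_mul_cons]
    by_cases ha : a = i
    · subst ha
      rw [if_pos rfl, one_cons]
      by_cases hL : ∀ b ∈ L, b = a
      · have h2 : ∀ b ∈ a :: L, b = a := by simpa using hL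
        simp only [invX, if_pos hL, if_pos h2, List.length_cons, pow_succ]
        ring
      · have h2 : ¬ ∀ b ∈ a :: L, b = a := fun h => hL fun b hb => h b (by simp [hb])
        simp only [invX, if_neg hL, if_neg h2, add_zero]
    · simp [invX, ha]

theorem invX_mul_X (i : Fin n) : invX i * (1 + X i) = 1 := by
  rw [mul_add, mul_one]
  funext w
  induction w using List.reverseRecOn with
  | nil => rw [add_apply, mul_X_nil]; simp [invX]
  | append_singleton L a _ =>
    rw [add_apply, mul_X_concat]
    have h1 : (1 : Mg n) (L ++ [a]) = 0 := by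
      show (if L ++ [a] = [] then (1 : ℤ) else 0) = 0
      simp
    rw [h1]
    by_cases ha : a = i
    · subst ha
      by_cases hL : ∀ b ∈ L, b = a
      · have h2 : ∀ b ∈ L ++ [a], b = a := by
          intro b hb
          rcases List.mem_append.1 hb with h | h
          · exact hL b h
          · simpa using h
        simp only [invX, if_pos hL, if_pos h2, if_true, List.length_append, List.length_singleton, pow_succ]
        ring
      · have h2 : ¬ ∀ b ∈ L ++ [a], b = a := fun h => hL fun b hb => h b (by simp [hb])
        simp only [invX, if_neg hL, if_neg h2, if_true, add_zero]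
    · have h2 : ¬ ∀ b ∈ L ++ [a], b = i := fun h => ha (h a (by simp))
      simp only [invX, if_neg h2, if_neg ha, add_zero]

/-- The Magnus embedding `x_i ↦ 1 + X_i`. -/
def magU : FreeGroup (Fin n) →* (Mg n)ˣ :=
  FreeGroup.lift fun i => ⟨1 + X i, invX i, X_mul_invX i, invX_mul_X i⟩

/-- The Magnus embedding `x_i ↦ 1 + X_i`. -/
def mag : FreeGroup (Fin n) →* Mg n := (Units.coeHom (Mg n)).comp magU

@[simp] theorem mag_of (i : Fin n) : mag (FreeGroup.of i) = 1 + X i := by
  simp [mag, magU]

theorem mag_inv_mul (g : FreeGroup (Fin n)) : mag g⁻¹ * mag g = 1 := by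
  rw [← map_mul, inv_mul_cancel, map_one]

theorem mag_mul_inv (g : FreeGroup (Fin n)) : mag g * mag g⁻¹ = 1 := by
  rw [← map_mul, mul_inv_cancel, map_one]

theorem mag_nil (g : FreeGroup (Fin n)) : mag g [] = 1 := by
  induction g using FreeGroup.induction_on with
  | C1 => simp
  | of i => simp [mag_of]
  | inv_of i h =>
    have h1 := congrFun (mag_inv_mul (FreeGroup.of i)) []
    rw [mul_nil, mag_of] at h1
    simpa using h1
  | mul x y hx hy => rw [map_mul, mul_nil, hx, hy, one_mul]

/-- All coefficients of `f` of words of length at most `c` are divisible by `N` (are zero, for `N = 0`). -/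
def Small (c N : ℕ) (f : Mg n) : Prop := ∀ w : List (Fin n), w.length ≤ c → (N : ℤ) ∣ f w

theorem Small.add {c N : ℕ} {f g : Mg n} (hf : Small c N f) (hg : Small c N g) : Small c N (f + g) :=
  fun w hw => dvd_add (hf w hw) (hg w hw)

theorem Small.sub {c N : ℕ} {f g : Mg n} (hf : Small c N f) (hg : Small c N g) : Small c N (f - g) :=
  fun w hw => dvd_sub (hf w hw) (hg w hw)

theorem Small.neg {c N : ℕ} {f : Mg n} (hf : Small c N f) : Small c N (-f) :=
  fun w hw => by rw [neg_apply]; exact (dvd_neg).2 (hf w hw)

theorem small_zero (c N : ℕ) : Small c N (0 : Mg n) := fun _ _ => dvd_zero _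

theorem Small.mul_right {c N : ℕ} {f : Mg n} (hf : Small c N f) (g : Mg n) : Small c N (f * g) := by
  intro w hw
  rw [mul_apply]
  refine Finset.dvd_sum fun k _ => Dvd.dvd.mul_right (hf _ ?_) _
  exact (List.length_take_le' _ _).trans hw

theorem Small.mul_left {c N : ℕ} {f : Mg n} (hf : Small c N f) (g : Mg n) : Small c N (g * f) := by
  intro w hw
  rw [mul_apply]
  refine Finset.dvd_sum fun k _ => Dvd.dvd.mul_left (hf _ ?_) _
  rw [List.length_drop]; omega

theorem Small.mono {c N c' N' : ℕ} {f : Mg n} (hf : Small c N f) (hc : c' ≤ c) (hN : N' ∣ N) :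
    Small c' N' f :=
  fun w hw => (Int.natCast_dvd_natCast.2 hN).trans (hf w (hw.trans hc))

end Mg

open Mg

/-- `φ` acts as an inner automorphism (by the conjugation with `u`, constant term `1`) modulo the words of
length `> c` and modulo `N`. -/
def Act (c N : ℕ) (φ : MulAut (FreeGroup (Fin n))) : Prop :=
  ∃ u : Mg n, u [] = 1 ∧ ∀ g : FreeGroup (Fin n), Small c N (mag (φ g) * u - u * mag g)

theorem Act.mono {c N c' N' : ℕ} {φ : MulAut (FreeGroup (Fin n))} (h : Act c N φ) (hc : c' ≤ c)
    (hN : N' ∣ N) : Act c' N' φ := by
  obtain ⟨u, hu, h⟩ := h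
  exact ⟨u, hu, fun g => (h g).mono hc hN⟩

/-- The extension of the Magnus embedding to the integral group ring. -/
noncomputable def magR : MonoidAlgebra ℤ (FreeGroup (Fin n)) →ₐ[ℤ] Mg n :=
  MonoidAlgebra.lift ℤ (Mg n) (FreeGroup (Fin n)) mag

theorem magR_single (g : FreeGroup (Fin n)) (m : ℤ) : magR (MonoidAlgebra.single g m) = m • mag g := by
  simp [magR]

end Pool.Agent.Helper76x.OF
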