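import Pool.Agent.Helper76x.OF.Stm3
import Pool.Agent.R387.TC.Step

/-!
# Piece EVAL of project OF: the groups between `Inn (F_n)` and `Aut (F_n)`
-/

set_option autoImplicit false

namespace Pool.Agent.Helper76x.OF

namespace EVAL

variable {n : ℕ}

/-- the action on the quotient by a characteristic subgroup -/
def rho (K : Subgroup (FreeGroup (Fin n))) [K.Characteristic] :
    MulAut (FreeGroup (Fin n)) →* MulAut (FreeGroup (Fin n) ⧸ K) where
  toFun φ := QuotientGroup.congr K K φ (Subgroup.characteristic_iff_map_eq.1 inferInstance φ)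
  map_one' := by
    ext x
    obtain ⟨x, rfl⟩ := QuotientGroup.mk_surjective x
    rfl
  map_mul' φ ψ := by
    ext x
    obtain ⟨x, rfl⟩ := QuotientGroup.mk_surjective x
    rfl

theorem rho_eq_one (K : Subgroup (FreeGroup (Fin n))) [K.Characteristic] (φ : MulAut (FreeGroup (Fin n))) :
    rho K φ = 1 ↔ ∀ x, φ x * x⁻¹ ∈ K := by
  constructor
  · intro h x
    have h1 : ((φ x : FreeGroup (Fin n)) : FreeGroup (Fin n) ⧸ K) = (x : FreeGroup (Fin n) ⧸ K) := by
      have := DFunLike.congr_fun h (x : FreeGroup (Fin n) ⧸ K)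
      exact this
    rw [← QuotientGroup.eq_one_iff, QuotientGroup.mk_mul, h1, QuotientGroup.mk_inv, mul_inv_cancel]
  · intro h
    ext x
    obtain ⟨x, rfl⟩ := QuotientGroup.mk_surjective x
    show ((φ x : FreeGroup (Fin n)) : FreeGroup (Fin n) ⧸ K) = (x : FreeGroup (Fin n) ⧸ K)
    have := (QuotientGroup.eq_one_iff _).2 (h x)
    rwa [QuotientGroup.mk_mul, QuotientGroup.mk_inv, mul_inv_eq_one] at this

theorem main (i0 : Fin n) (E V : Subgroup (MulAut (FreeGroup (Fin (n + 1))))) (hE : InnF (n + 1) ≤ E)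
    (hV : V.relIndex E ≠ 0)
    (H : ∀ T : Subgroup (MulAut (FreeGroup (Fin (n + 1)))), InnF (n + 1) ≤ T → T.relIndex E ≠ 0 →
      ∃ K : Subgroup (FreeGroup (Fin (n + 1))), K.Characteristic ∧ K.FiniteIndex ∧
        ∀ φ ∈ E, InnMod K φ → φ ∈ T) :
    ∃ K : Subgroup (FreeGroup (Fin (n + 1))), K.Characteristic ∧ K.FiniteIndex ∧
      ∀ φ ∈ E, (∀ x, φ x * x⁻¹ ∈ K) → φ ∈ V := by
  have hfi : (V.subgroupOf E).FiniteIndex := ⟨hV⟩
  let V₁ : Subgroup E := (V.subgroupOf E).normalCore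
  have hV₁ : V₁.FiniteIndex := inferInstance
  have hV₁V : ∀ x : E, x ∈ V₁ → (x : MulAut (FreeGroup (Fin (n + 1)))) ∈ V := fun x hx =>
    Subgroup.mem_subgroupOf.1 (Subgroup.normalCore_le _ hx)
  let cE : FreeGroup (Fin (n + 1)) →* E :=
    (MulAut.conj : FreeGroup (Fin (n + 1)) →* MulAut (FreeGroup (Fin (n + 1)))).codRestrict E
      fun h => hE ⟨h, rfl⟩
  let M : Subgroup (FreeGroup (Fin (n + 1))) := V₁.comap cE
  have hM1 : M.Normal := inferInstance
  have hM2 : M.FiniteIndex := by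
    have h0 := Subgroup.index_comap V₁ cE
    have h1 := Subgroup.relIndex_dvd_index_of_normal V₁ cE.range
    exact ⟨fun h => hV₁.index_ne_zero (Nat.eq_zero_of_zero_dvd ((h ▸ h0) ▸ h1))⟩
  obtain ⟨K', hc', hf', hK'⟩ := Pool.Agent.R387.TC.centre i0 M
  have hK'n : K'.Normal := inferInstance
  have : Finite (FreeGroup (Fin (n + 1)) ⧸ K') := Subgroup.finite_quotient_of_finiteIndex
  have : Finite (MulAut (FreeGroup (Fin (n + 1)) ⧸ K')) :=
    Finite.of_injective (fun φ => (φ : (FreeGroup (Fin (n + 1)) ⧸ K') → _)) DFunLike.coe_injective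
  let V₂ : Subgroup E := V₁ ⊓ ((rho K').comp E.subtype).ker
  have hV₂ : V₂.FiniteIndex := inferInstance
  obtain ⟨K₁, hc₁, hf₁, hK₁⟩ := H (V₂.map E.subtype ⊔ InnF (n + 1)) le_sup_right (by
    have h1 : (V₂.map E.subtype).relIndex E ≠ 0 := by
      have h2 : (V₂.map E.subtype).subgroupOf E = V₂ := by
        rw [Subgroup.subgroupOf, Subgroup.comap_map_eq_self_of_injective E.subtype_injective]
      rw [Subgroup.relIndex, h2]
      exact hV₂.index_ne_zero
    intro h0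
    exact h1 (Nat.eq_zero_of_zero_dvd (h0 ▸ Subgroup.relIndex_dvd_of_le_left E le_sup_left)))
  refine ⟨K₁ ⊓ K', ?_, inferInstance, fun φ hφ hx => ?_⟩
  · rw [Subgroup.characteristic_iff_comap_eq] at hc₁ hc' ⊢
    intro ψ
    rw [Subgroup.comap_inf, hc₁, hc']
  · have h1 : φ ∈ V₂.map E.subtype ⊔ InnF (n + 1) := by
      refine hK₁ φ hφ ⟨1, fun x => ?_⟩
      rw [one_mul, inv_one, mul_one]
      exact (hx x).1
    rw [Subgroup.mem_sup_of_normal_right] at h1
    obtain ⟨_, ⟨v, hv, rfl⟩, _, ⟨h, rfl⟩, rfl⟩ := h1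
    have h2 : rho K' (E.subtype v * MulAut.conj h) = 1 := (rho_eq_one K' _).2 fun x => (hx x).2
    have h3 : rho K' (E.subtype v) = 1 := MonoidHom.mem_ker.1 hv.2
    rw [map_mul, h3, one_mul, rho_eq_one] at h2
    have h4 : h ∈ M := hK' h fun x => h2 x
    exact V.mul_mem (hV₁V v hv.1) (hV₁V (cE h) h4)

end EVAL

theorem t_EVAL : S_EVAL := by
  intro n hn
  obtain ⟨m, rfl⟩ : ∃ m, n = m + 2 := ⟨n - 2, by omega⟩
  intro E V hE hV H
  exact EVAL.main (n := m + 1) 0 E V hE hV H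

end Pool.Agent.Helper76x.OF

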