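import Pool.Agent.Helper76x.OF.Stm

/-!
# Project OF, piece EXT (helper21)
-/

set_option autoImplicit false

namespace Pool.Agent.Helper76x.OF

theorem t_EXT : S_EXT := by
  intro C _ Γ B t
  induction t generalizing B with
  | zero =>
    intro _ _ _ h0 _ M _
    refine ⟨1, one_pos, fun x hx _ => ⟨1, one_mem _, ?_⟩⟩
    rw [h0, Subgroup.mem_bot] at hx
    rw [hx, one_pow]
  | succ t ih =>
    intro hB hΓ he h0 hl M hM
    obtain ⟨N1, hN1, h1⟩ := ih (fun k => B (k + 1)) (fun a b hab => hB (Nat.succ_le_succ hab))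
      hΓ he h0 (fun k hk => hl (k + 1) (Nat.succ_lt_succ hk)) M hM
    obtain ⟨e, he0, he1⟩ := he N1 hN1
    obtain ⟨N2, hN2, h2⟩ := hl 0 (Nat.succ_pos t) (M * e) (Nat.mul_pos hM he0)
    obtain ⟨N, hN, h3⟩ := hΓ N1 N2 hN1 hN2
    refine ⟨N, hN, fun x hx hxN => ?_⟩
    obtain ⟨y, hy, b, hb, hxy⟩ := h2 x hx (h3 hxN).2
    have hbΓ : b ∈ Γ N1 := by
      have e1 : b = x * ((y ^ M) ^ e)⁻¹ := by
        rw [hxy, pow_mul, mul_right_comm, mul_inv_cancel, one_mul]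
      rw [e1]
      exact mul_mem (h3 hxN).1 (inv_mem (he1 _))
    obtain ⟨z, hz, hbz⟩ := h1 b hb hbΓ
    refine ⟨y ^ e * z, mul_mem (pow_mem hy e) (hB (Nat.zero_le 1) hz), ?_⟩
    rw [hxy, hbz, mul_pow, ← pow_mul, Nat.mul_comm M e]

end Pool.Agent.Helper76x.OF
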