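import Pool.Agent.Helper76x.OF.Stm3

/-!
# Project OF (helper76), piece FGX: finite generation of filtered abelian groups

By helper88.
-/

set_option autoImplicit false

namespace Pool.Agent.Helper76x.OF

namespace FGXP

theorem fgx1 (B Q : Type) [CommGroup B] [AddCommGroup Q] [Module.Finite ℤ Q] (f : B →* Multiplicative Q) :
    ∃ s : Finset B, ∀ x : B, ∃ y ∈ Subgroup.closure (s : Set B), f x = f y := by
  classical
  let N : AddSubgroup Q := AddSubgroup.toSubgroup.symm f.range
  have h1 : N.FG := by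
    have h2 := (Submodule.fg_iff_addSubgroup_fg (AddSubgroup.toIntSubmodule N)).1 (IsNoetherian.noetherian _)
    simpa using h2
  obtain ⟨t, ht⟩ := h1
  have ht' : ∀ q ∈ t, ∃ b : B, f b = Multiplicative.ofAdd q := by
    intro q hq
    have h2 : q ∈ N := by rw [← ht]; exact AddSubgroup.subset_closure hq
    exact h2
  choose! c hc using ht'
  refine ⟨t.image c, ?_⟩
  intro x
  have h3 : Multiplicative.toAdd (f x) ∈ AddSubgroup.closure (t : Set Q) := by
    rw [ht]
    show f x ∈ f.range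
    exact ⟨x, rfl⟩
  have h4 : ∀ q ∈ AddSubgroup.closure (t : Set Q), ∃ y ∈ Subgroup.closure ((t.image c : Finset B) : Set B),
      f y = Multiplicative.ofAdd q := by
    intro q hq
    induction hq using AddSubgroup.closure_induction with
    | mem q hq =>
      exact ⟨c q, Subgroup.subset_closure (by rw [Finset.coe_image]; exact ⟨q, hq, rfl⟩), hc q hq⟩
    | zero => exact ⟨1, one_mem _, by rw [map_one]; rfl⟩
    | add q r _ _ h1 h2 =>
      obtain ⟨y, hy, ey⟩ := h1
      obtain ⟨z, hz, ez⟩ := h2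
      exact ⟨y * z, mul_mem hy hz, by rw [map_mul, ey, ez]; rfl⟩
    | neg q _ h1 =>
      obtain ⟨y, hy, ey⟩ := h1
      exact ⟨y⁻¹, inv_mem hy, by rw [map_inv, ey]; rfl⟩
  obtain ⟨y, hy, e⟩ := h4 _ h3
  exact ⟨y, hy, by rw [e]; rfl⟩

theorem fgx2 (C : Type) [CommGroup C] (B : ℕ → Subgroup C) (t : ℕ) (_ : Antitone B) (h0 : B 0 = ⊤)
    (ht : B t = ⊥)
    (hs : ∀ k < t, ∃ s : Finset C, (s : Set C) ⊆ B k ∧ ∀ x ∈ B k, ∃ y ∈ Subgroup.closure (s : Set C),
      x * y⁻¹ ∈ B (k + 1)) : Group.FG C := by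
  classical
  have h1 : ∀ j ≤ t, ∃ s : Finset C, ∀ x ∈ B (t - j), x ∈ Subgroup.closure (s : Set C) := by
    intro j
    induction j with
    | zero =>
      intro _
      refine ⟨∅, fun x hx => ?_⟩
      rw [Nat.sub_zero, ht, Subgroup.mem_bot] at hx
      rw [hx]; exact one_mem _
    | succ j ih =>
      intro hj
      obtain ⟨s, hs'⟩ := ih (by omega)
      obtain ⟨s', _, h3⟩ := hs (t - (j + 1)) (by omega)
      refine ⟨s ∪ s', fun x hx => ?_⟩
      obtain ⟨y, hy, hxy⟩ := h3 x hx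
      have h4 : t - (j + 1) + 1 = t - j := by omega
      rw [h4] at hxy
      have h5 := hs' _ hxy
      have h6 : x = x * y⁻¹ * y := by group
      rw [h6]
      apply mul_mem
      · exact Subgroup.closure_mono (by simp) h5
      · exact Subgroup.closure_mono (by simp) hy
  obtain ⟨s, hs'⟩ := h1 t le_rfl
  rw [Group.fg_def]
  refine ⟨s, ?_⟩
  rw [eq_top_iff]
  intro x _
  apply hs'
  rw [Nat.sub_self, h0]
  trivial

end FGXP

theorem t_FGX : S_FGX :=
  ⟨fun B Q _ _ _ f => FGXP.fgx1 B Q f, fun C _ B t h h0 ht hs => FGXP.fgx2 C B t h h0 ht hs⟩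

end Pool.Agent.Helper76x.OF
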