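import Pool.Agent.Helper76x.OF.Stm2

/-!
# Project OF, piece FIN
-/

set_option autoImplicit false

namespace Pool.Agent.Helper76x.OF

open Mg

namespace FIN

theorem finite_hom {R : Type} [Group R] [hR : Group.FG R] (H : Type) [Group H] [Finite H] :
    Finite (R →* H) := by
  obtain ⟨S', hS, hfin⟩ := Group.fg_iff.mp hR
  have : Finite S' := hfin
  refine Finite.of_injective (fun (f : R →* H) (s : S') => f s) ?_
  intro f g hfg
  apply MonoidHom.eq_of_eqOn_dense hS
  intro x hx
  exact congrFun hfg ⟨x, hx⟩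

theorem charCore {R : Type} [Group R] [hR : Group.FG R] (S : Subgroup R) (hS : S.FiniteIndex) :
    ∃ K : Subgroup R, K.Characteristic ∧ K.FiniteIndex ∧ K ≤ S := by
  have hq : Finite (R ⧸ S) := Subgroup.finite_quotient_of_finiteIndex
  let n := Nat.card (R ⧸ S)
  let e : R ⧸ S ≃ Fin n := Finite.equivFin _
  have hfin : Finite (R →* Equiv.Perm (Fin n)) := finite_hom _
  refine ⟨⨅ f : R →* Equiv.Perm (Fin n), f.ker, ⟨?_⟩, ?_, ?_⟩
  · intro φ
    ext x
    simp only [Subgroup.mem_comap, Subgroup.mem_iInf, MonoidHom.mem_ker]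
    constructor
    · intro h f
      have := h (f.comp φ.symm.toMonoidHom)
      simpa using this
    · intro h f
      exact h (f.comp φ.toMonoidHom)
  · apply Subgroup.finiteIndex_iInf
    intro f
    infer_instance
  · intro x hx
    rw [Subgroup.mem_iInf] at hx
    have h1 := hx ((e.permCongrHom.toMonoidHom).comp (MulAction.toPermHom R (R ⧸ S)))
    rw [MonoidHom.mem_ker, MonoidHom.comp_apply] at h1
    have h2 : MulAction.toPermHom R (R ⧸ S) x = 1 :=
      e.permCongrHom.injective (by rw [map_one]; exact h1)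
    have h3 := congrArg (fun p => p ((1 : R) : R ⧸ S)) h2
    simp only [MulAction.toPermHom_apply, MulAction.toPerm_apply, Equiv.Perm.one_apply] at h3
    have h4 : ((x * 1 : R) : R ⧸ S) = ((1 : R) : R ⧸ S) := h3
    rw [mul_one, eq_comm, QuotientGroup.eq] at h4
    simpa using h4

/-- the elements which are `1` modulo `N` up to length `c` -/
def K0 (n c N : ℕ) : Subgroup (FreeGroup (Fin n)) where
  carrier := {g | Small c N (mag g - 1)}
  mul_mem' := by
    intro g h hg hh
    have h1 : mag (g * h) - 1 = (mag g - 1) * mag h + (mag h - 1) := by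
      rw [map_mul, sub_mul, one_mul]
      abel
    show Small c N (mag (g * h) - 1)
    rw [h1]
    exact (Small.mul_right hg _).add hh
  one_mem' := by
    show Small c N (mag 1 - 1)
    rw [map_one, sub_self]
    exact small_zero c N
  inv_mem' := by
    intro g hg
    have h1 : mag g⁻¹ - 1 = -(mag g⁻¹ * (mag g - 1)) := by
      rw [mul_sub, mag_inv_mul, mul_one, neg_sub]
    show Small c N (mag g⁻¹ - 1)
    rw [h1]
    exact (Small.mul_left hg _).neg

theorem finiteIndex (n c N : ℕ) (hN : 0 < N) : (K0 n c N).FiniteIndex := by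
  have hne : NeZero N := ⟨hN.ne'⟩
  have hfin : Finite {w : List (Fin n) // w.length ≤ c} := (List.finite_length_le (Fin n) c).to_subtype
  let f : FreeGroup (Fin n) → ({w : List (Fin n) // w.length ≤ c} → ZMod N) :=
    fun g w => ((mag g w.1 : ℤ) : ZMod N)
  have hf : ∀ g h, f g = f h → g⁻¹ * h ∈ K0 n c N := by
    intro g h hgh
    have h1 : Small c N (mag h - mag g) := by
      intro w hw
      have h2 := congrFun hgh ⟨w, hw⟩
      have h3 : ((mag g w : ℤ) : ZMod N) = ((mag h w : ℤ) : ZMod N) := h2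
      rw [ZMod.intCast_eq_intCast_iff_dvd_sub] at h3
      exact h3
    have h2 : mag (g⁻¹ * h) - 1 = mag g⁻¹ * (mag h - mag g) := by
      rw [mul_sub, mag_inv_mul, map_mul]
    show Small c N (mag (g⁻¹ * h) - 1)
    rw [h2]
    exact h1.mul_left _
  have hq : Finite (FreeGroup (Fin n) ⧸ K0 n c N) := by
    refine Finite.of_injective (fun q => f q.out) ?_
    intro q q' hqq
    have h1 := hf _ _ hqq
    rw [← QuotientGroup.eq, QuotientGroup.out_eq', QuotientGroup.out_eq'] at h1
    exact h1
  exact Subgroup.finiteIndex_of_finite_quotient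

end FIN

open FIN in
theorem t_FIN : S_FIN := by
  intro n c N hN
  obtain ⟨K, hK1, hK2, hK3⟩ := charCore (K0 n c N) (finiteIndex n c N hN)
  refine ⟨K, hK1, hK2, fun φ hφ => ?_⟩
  obtain ⟨h, hh⟩ := hφ
  refine ⟨mag h, mag_nil h, fun g => ?_⟩
  obtain ⟨k, hk⟩ : ∃ k, k = φ g * (h * g * h⁻¹)⁻¹ := ⟨_, rfl⟩
  have h1 : k ∈ K0 n c N := hK3 (by rw [hk]; exact hh g)
  have h2 : φ g = k * (h * g * h⁻¹) := by rw [hk]; group
  have h3 : mag (φ g) * mag h - mag h * mag g = (mag k - 1) * (mag h * mag g) := by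
    rw [h2, map_mul, map_mul, map_mul, sub_mul, one_mul]
    have h4 : mag k * (mag h * mag g * mag h⁻¹) * mag h =
        mag k * (mag h * mag g) * (mag h⁻¹ * mag h) := by simp only [mul_assoc]
    rw [h4, mag_inv_mul, mul_one]
  rw [h3]
  exact Small.mul_right h1 _

end Pool.Agent.Helper76x.OF
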