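import Pool.Agent.Helper76x.OF.INJ

/-!
# Project OF, piece FOX: Fox derivatives exist
-/

set_option autoImplicit false

namespace Pool.Agent.Helper76x.OF

open Mg

namespace FOXP

variable {n : ℕ}

/-- the set of the `r` with a right Fox expansion -/
def R (n : ℕ) (r : MonoidAlgebra ℤ (FreeGroup (Fin n))) : Prop :=
  ∃ (e : ℤ) (d : Fin n → MonoidAlgebra ℤ (FreeGroup (Fin n))),
    r = e • 1 + ∑ k, d k * (MonoidAlgebra.single (FreeGroup.of k) 1 - 1)

theorem R_add {r s : MonoidAlgebra ℤ (FreeGroup (Fin n))} (hr : R n r) (hs : R n s) :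
    R n (r + s) := by
  obtain ⟨e, d, h⟩ := hr
  obtain ⟨e', d', h'⟩ := hs
  refine ⟨e + e', fun k => d k + d' k, ?_⟩
  simp only [add_mul, Finset.sum_add_distrib, add_smul]
  rw [h, h']
  abel

theorem R_smul (m : ℤ) {r : MonoidAlgebra ℤ (FreeGroup (Fin n))} (hr : R n r) : R n (m • r) := by
  obtain ⟨e, d, h⟩ := hr
  refine ⟨m * e, fun k => m • d k, ?_⟩
  simp only [smul_mul_assoc]
  rw [h, ← Finset.smul_sum, smul_add, mul_smul]

theorem R_word (L : List (Fin n × Bool)) : R n (MonoidAlgebra.single (FreeGroup.mk L) 1) := by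
  induction L using List.reverseRecOn with
  | nil =>
    refine ⟨1, fun _ => 0, ?_⟩
    have h : (FreeGroup.mk [] : FreeGroup (Fin n)) = 1 := rfl
    simp [h, MonoidAlgebra.one_def]
  | append_singleton L p ih =>
    obtain ⟨j, b⟩ := p
    have h1 : (FreeGroup.mk (L ++ [(j, b)]) : FreeGroup (Fin n)) =
        FreeGroup.mk L * FreeGroup.mk [(j, b)] := FreeGroup.mul_mk.symm
    obtain ⟨e, d, h⟩ := ih
    cases b with
    | true =>
      have h2 : (FreeGroup.mk [(j, true)] : FreeGroup (Fin n)) = FreeGroup.of j := rfl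
      refine ⟨e, fun k => (if k = j then MonoidAlgebra.single (FreeGroup.mk L) 1 else 0) + d k, ?_⟩
      simp only [add_mul, Finset.sum_add_distrib, ite_mul, zero_mul, Finset.sum_ite_eq',
        Finset.mem_univ, if_true]
      rw [h1, h2, add_left_comm, ← h, mul_sub, MonoidAlgebra.single_mul_single, mul_one, mul_one]
      abel
    | false =>
      have h2 : (FreeGroup.mk [(j, false)] : FreeGroup (Fin n)) = (FreeGroup.of j)⁻¹ := rfl
      refine ⟨e, fun k => (if k = j then
        - MonoidAlgebra.single (FreeGroup.mk L * (FreeGroup.of j)⁻¹) 1 else 0) + d k, ?_⟩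
      simp only [add_mul, Finset.sum_add_distrib, ite_mul, zero_mul, Finset.sum_ite_eq',
        Finset.mem_univ, if_true]
      rw [h1, h2, add_left_comm, ← h, mul_sub, neg_mul, MonoidAlgebra.single_mul_single, mul_one,
        mul_one, inv_mul_cancel_right]
      abel

theorem R_all (r : MonoidAlgebra ℤ (FreeGroup (Fin n))) : R n r := by
  induction r using MonoidAlgebra.induction_linear with
  | zero => exact ⟨0, fun _ => 0, by simp⟩
  | add r s hr hs => exact R_add hr hs
  | single g c =>
    have h2 : (MonoidAlgebra.single g c : MonoidAlgebra ℤ (FreeGroup (Fin n))) =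
        c • MonoidAlgebra.single g 1 := by
      rw [MonoidAlgebra.smul_single, smul_eq_mul, mul_one]
    rw [h2, ← FreeGroup.mk_toWord (x := g)]
    exact R_smul c (R_word _)

end FOXP

theorem t_FOX : S_FOX := by
  intro n r
  refine ⟨?_, FOXP.R_all r⟩
  obtain ⟨e, he⟩ := INJP.formula r
  exact ⟨e, fun k => INJP.D k r, he⟩

end Pool.Agent.Helper76x.OF
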