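import Pool.Agent.Helper76x.OF.Asm2
import Pool.Agent.N77.CS.Fin

/-!
# Project OF (helper76): the family of sets of automorphisms generated by the preimages of the finitely
generated virtually abelian subgroups of the groups `Out (F_n)` by the operations `step` and `Prd` of the
starting library
-/

set_option autoImplicit false

namespace Pool.Agent.Helper76x.OF

open Pool.Agent.R387.TC Pool.Agent.N77.CS

/-- `S` is a finitely generated virtually abelian group. -/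
def VA {n : ℕ} (S : Subgroup (Out n)) : Prop :=
  ∃ C : Subgroup (Out n), C ≤ S ∧ C.FG ∧ (∀ x ∈ C, ∀ y ∈ C, x * y = y * x) ∧ C.relIndex S ≠ 0

/-- The automorphisms of `F_n` whose class in `Out (F_n)` is in `S`. -/
def pre {n : ℕ} (S : Subgroup (Out n)) : Subgroup (MulAut (FreeGroup (Fin n))) :=
  S.comap (QuotientGroup.mk' (InnF n))

theorem mem_pre {n : ℕ} {S : Subgroup (Out n)} {φ : MulAut (FreeGroup (Fin n))} :
    φ ∈ pre S ↔ (φ : Out n) ∈ S := Iff.rfl

/-- The sets of automorphisms of free groups `F_n`, `n ≥ 1`, obtained from the sets of all automorphisms of the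
free groups with the congruence subgroup property (and of `F_1`) and from the preimages in `Aut (F_n)` of the
finitely generated virtually abelian subgroups of `Out (F_n)`, `n ≥ 1`, by the operations `step` and `Prd`, and by
conjugation with automorphisms. -/
inductive Fam2 : (n : ℕ) → Set (MulAut (F n)) → Prop
  | base (m : ℕ) : 1 ≤ m → (2 ≤ m → OutCong m Set.univ) → Fam2 m Set.univ
  | va (m : ℕ) (S : Subgroup (Out m)) : 1 ≤ m → VA S → Fam2 m {φ | (φ : Out m) ∈ S}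
  | conj {n : ℕ} {S : Set (MulAut (F n))} (α : MulAut (F n)) : Fam2 n S →
      Fam2 n {φ | α * φ * α⁻¹ ∈ S}
  | step {n : ℕ} {S : Set (MulAut (F n))} : Fam2 n S → Fam2 (n + 1) (Pool.Agent.R387.TC.step S)
  | prod {k l : ℕ} {S : Set (MulAut (F k))} {T : Set (MulAut (F l))} : Fam2 k S → Fam2 l T →
      Fam2 (k + l) (Prd S T)

theorem Fam2.pos {n : ℕ} {S : Set (MulAut (F n))} (h : Fam2 n S) : 1 ≤ n := by
  induction h with
  | base m hm _ => exact hm
  | va m _ hm _ => exact hm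
  | conj _ _ ih => exact ih
  | step _ ih => omega
  | prod _ _ ih1 ih2 => omega

theorem cong_conj {n : ℕ} {S : Set (MulAut (F n))} (α : MulAut (F n)) (h : Cong n S) :
    Cong n {φ | α * φ * α⁻¹ ∈ S} := by
  intro V hV
  have hV' : (V.map (MulAut.conj α).toMonoidHom).FiniteIndex :=
    ⟨fun h0 => hV.index_ne_zero (Nat.eq_zero_of_zero_dvd
      (h0 ▸ Subgroup.index_map_dvd _ (MulAut.conj α).surjective))⟩
  obtain ⟨K, hK, hKf, h1⟩ := h _ hV'
  refine ⟨K, hK, hKf, fun φ hφ hT => ?_⟩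
  have h2 : Triv K (α * φ * α⁻¹) := by
    intro x
    have h3 := Subgroup.characteristic_iff_comap_eq.1 hK α
    have h4 := hT (α⁻¹ x)
    rw [← h3] at h4
    have h5 : α (φ (α⁻¹ x) * (α⁻¹ x)⁻¹) ∈ K := h4
    have h6 : α (α⁻¹ x) = x := by rw [← MulAut.mul_apply, mul_inv_cancel]; rfl
    rw [map_mul, map_inv, h6] at h5
    exact h5
  obtain ⟨ψ, hψ, hψ2⟩ := h1 _ hφ h2
  have h7 : α * ψ * α⁻¹ = α * φ * α⁻¹ := hψ2
  have h8 : ψ = φ := by simpa using h7
  rwa [← h8]

theorem norm_conj {n : ℕ} {S : Set (MulAut (F n))} {H : Subgroup (F n)} (α : MulAut (F n))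
    (h : Norm n S H) : Norm n {φ | α * φ * α⁻¹ ∈ S} (H.comap α.toMonoidHom) := by
  intro L hL hf
  have hL2 : (L.comap (α⁻¹ : MulAut (F n)).toMonoidHom).FiniteIndex := fi_comap _ _
  obtain ⟨K, hK, hKf, hKL, h1⟩ := h (L.comap (α⁻¹ : MulAut (F n)).toMonoidHom) inferInstance hL2
  have h3 := Subgroup.characteristic_iff_comap_eq.1 hK α
  refine ⟨K, hK, hKf, ?_, fun φ hφ g hg => ?_⟩
  · intro x hx
    rw [← h3] at hx
    have h4 : α x ∈ K := hx
    have h5 : (α⁻¹ : MulAut (F n)) (α x) ∈ L := hKL h4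
    rwa [← MulAut.mul_apply, inv_mul_cancel] at h5
  · obtain ⟨y, hy, hy2⟩ := h1 _ hφ (α g) (by
      intro x
      have h4 := hg (α⁻¹ x)
      rw [← h3] at h4
      have h5 : α (φ (α⁻¹ x) * (g * (α⁻¹ x) * g⁻¹)⁻¹) ∈ K := h4
      have h6 : α (α⁻¹ x) = x := by rw [← MulAut.mul_apply, mul_inv_cancel]; rfl
      rw [map_mul, map_inv, map_mul, map_mul, map_inv, h6] at h5
      exact h5)
    have h6 : α (α⁻¹ y) = y := by rw [← MulAut.mul_apply, mul_inv_cancel]; rfl
    refine ⟨α⁻¹ y, ?_, ?_⟩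
    · show α (α⁻¹ y) ∈ H
      rwa [h6]
    · have h7 : (α⁻¹ : MulAut (F n)) ((α g)⁻¹ * y) ∈ L := hy2
      rw [map_mul, map_inv, ← MulAut.mul_apply, inv_mul_cancel] at h7
      exact h7

theorem stab_conj {n : ℕ} {S : Set (MulAut (F n))} {H : Subgroup (F n)} (α : MulAut (F n))
    (h : Stab S H) : Stab {φ | α * φ * α⁻¹ ∈ S} (H.comap α.toMonoidHom) := by
  intro y hy φ hφ
  have h1 := h (α y) hy _ hφ
  show α * (MulAut.conj y * φ) * α⁻¹ ∈ S
  have e : α * (MulAut.conj y * φ) * α⁻¹ = MulAut.conj (α y) * (α * φ * α⁻¹) := by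
    rw [← conj_conj_eq]; group
  rw [e]; exact h1

/-- The hypothesis on the virtually abelian subgroups. -/
def CongVA : Prop := ∀ (m : ℕ) (S : Subgroup (Out m)), 1 ≤ m → VA S → Cong m {φ | (φ : Out m) ∈ S}

theorem fam2 (hVA : CongVA) (hA : S_ASM) (hO : S_ONE) {n : ℕ} {S : Set (MulAut (F n))} (h : Fam2 n S) :
    Cong n S ∧ ∃ H, Norm n S H ∧ Stab S H := by
  induction h with
  | base m hm h =>
    exact ⟨cong_univ hO hm h, ⊤, norm_top _ _, fun _ _ _ _ => trivial⟩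
  | va m S hm hS =>
    refine ⟨hVA m S hm hS, ⊤, norm_top _ _, fun h _ ψ hψ => ?_⟩
    have h1 : ((MulAut.conj h : MulAut (F m)) : Out m) = 1 := (QuotientGroup.eq_one_iff _).2 ⟨h, rfl⟩
    show ((MulAut.conj h * ψ : MulAut (F m)) : Out m) ∈ S
    rw [QuotientGroup.mk_mul, h1, one_mul]
    exact hψ
  | conj α hS ih =>
    obtain ⟨h1, H, h2, h3⟩ := ih
    exact ⟨cong_conj α h1, _, norm_conj α h2, stab_conj α h3⟩
  | @step n S hS ih =>
    obtain ⟨h1, H, h2, h3⟩ := ih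
    exact ⟨cong_step h1, H.map (inc n), norm_step (⟨0, hS.pos⟩ : Fin n) h2, stab_step h3⟩
  | prod h1 h2 ih1 ih2 =>
    exact ⟨(hA _ _ h1.pos h2.pos _ _ ih1.1 ih2.1).1, ⊤, norm_top _ _, stab_prd _ _⟩

theorem fam2_all (hVA : CongVA) (hA : S_ASM) (hO : S_ONE) (n : ℕ) (S : Set (MulAut (F n)))
    (h : Fam2 n S) : Cong n S ∧ OutCong n S := by
  obtain ⟨h1, H, h2, h3⟩ := fam2 hVA hA hO h
  exact ⟨h1, out_of_norm h1 h2 h3⟩

end Pool.Agent.Helper76x.OF
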