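import Pool.Agent.Helper76x.OF.Stm3

/-!
# Project OF (helper76), piece SEPAB: finitely generated abelian groups are subgroup separable

By helper88.
-/

set_option autoImplicit false

namespace Pool.Agent.Helper76x.OF

namespace SEPABP

lemma zmod_sep (A : Type) [AddCommGroup A] [AddGroup.FG A] (a : A) (ha : a ≠ 0) :
    ∃ (m : ℕ) (_ : NeZero m) (f : A →+ ZMod m), f a ≠ 0 := by
  classical
  obtain ⟨n, ι, _, p, hp, e, ⟨φ⟩⟩ := AddCommGroup.equiv_free_prod_directSum_zmod A
  have h1 : φ a ≠ 0 := by simpa using ha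
  by_cases h2 : (φ a).1 = 0
  · have h3 : (φ a).2 ≠ 0 := fun h => h1 (Prod.ext h2 h)
    obtain ⟨i, hi⟩ : ∃ i, (φ a).2 i ≠ 0 := by
      by_contra hn
      push Not at hn
      exact h3 (DFinsupp.ext hn)
    refine ⟨p i ^ e i, ⟨pow_ne_zero _ (hp i).ne_zero⟩,
      ((DirectSum.component ℤ ι _ i).toAddMonoidHom.comp (AddMonoidHom.snd _ _)).comp
        φ.toAddMonoidHom, hi⟩
  · obtain ⟨i, hi⟩ : ∃ i, (φ a).1 i ≠ 0 := by
      by_contra hn
      push Not at hn
      exact h2 (Finsupp.ext hn)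
    refine ⟨((φ a).1 i).natAbs + 1, ⟨Nat.succ_ne_zero _⟩,
      ((Int.castAddHom _).comp ((Finsupp.applyAddHom i).comp (AddMonoidHom.fst _ _))).comp
        φ.toAddMonoidHom, ?_⟩
    show (Int.cast ((φ a).1 i) : ZMod (((φ a).1 i).natAbs + 1)) ≠ 0
    rw [Ne, ZMod.intCast_zmod_eq_zero_iff_dvd]
    intro h
    apply hi
    apply Int.eq_zero_of_abs_lt_dvd h
    rw [Int.abs_eq_natAbs]
    push_cast
    linarith

theorem sepab (D : Type) [CommGroup D] [Group.FG D] (C : Subgroup D) (x : D) (hx : x ∉ C) :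
    ∃ T : Subgroup D, C ≤ T ∧ T.FiniteIndex ∧ x ∉ T := by
  have ha : (Additive.ofMul (x : D ⧸ C)) ≠ 0 := by
    intro h
    apply hx
    rw [← QuotientGroup.eq_one_iff]
    exact h
  obtain ⟨m, _, f, hf⟩ := zmod_sep (Additive (D ⧸ C)) _ ha
  let g : D →* Multiplicative (ZMod m) := (AddMonoidHom.toMultiplicativeRight f).comp (QuotientGroup.mk' C)
  haveI : Finite (Multiplicative (ZMod m)) := inferInstanceAs (Finite (ZMod m))
  refine ⟨g.ker, ?_, Subgroup.finiteIndex_ker g, ?_⟩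
  · intro c hc
    rw [MonoidHom.mem_ker]
    have : QuotientGroup.mk' C c = 1 := (QuotientGroup.eq_one_iff c).2 hc
    show (AddMonoidHom.toMultiplicativeRight f) (QuotientGroup.mk' C c) = 1
    rw [this, map_one]
  · intro h
    exact hf h

end SEPABP

theorem t_SEPAB : S_SEPAB := fun D _ _ C x hx => SEPABP.sepab D C x hx

end Pool.Agent.Helper76x.OF
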