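import Pool.Agent.Helper76x.OF.Main
import Pool.Agent.Helper76x.OF.FGX
import Pool.Agent.Helper76x.OF.SEPAB
import Pool.Agent.Helper76x.OF.EVAL
import Pool.Agent.Helper76x.OF.Fam

/-!
# Project OF (helper76): final assembly
-/

set_option autoImplicit false

namespace Pool.Agent.Helper76x.OF

open Pool.Agent.R387.TC Pool.Agent.N77.CS

/-- (1) Finite-index subgroups of virtually abelian subgroups. -/
theorem fin_one (n : ℕ) (hn : 2 ≤ n) (S T : Subgroup (Out n)) (hS : VA S) (hT : T.relIndex S ≠ 0) :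
    ∃ K : Subgroup (FreeGroup (Fin n)), K.Characteristic ∧ K.FiniteIndex ∧
      ∀ φ : MulAut (FreeGroup (Fin n)), (φ : Out n) ∈ S → InnMod K φ → (φ : Out n) ∈ T := by
  obtain ⟨C, hCS, hfg, hcomm, hfi⟩ := hS
  obtain ⟨K, hK, hKf, h⟩ := virt_case u_core hn S C T hCS hcomm hfg hfi hT
  exact ⟨K, hK, hKf, fun φ hφ hφK => h _ hφ (mk_mem_OIM.2 hφK)⟩

/-- (2) Virtually abelian subgroups are closed. -/
theorem fin_two (hABGL : S_ABGL) (n : ℕ) (hn : 2 ≤ n) (S : Subgroup (Out n)) (hS : VA S)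
    (φ : MulAut (FreeGroup (Fin n))) (hφ : (φ : Out n) ∉ S) :
    ∃ K : Subgroup (FreeGroup (Fin n)), K.Characteristic ∧ K.FiniteIndex ∧
      ∀ ψ : MulAut (FreeGroup (Fin n)), (ψ : Out n) ∈ S → ¬ InnMod K (ψ⁻¹ * φ) := by
  obtain ⟨C, hCS, hfg, hcomm, hfi⟩ := hS
  have hcl : cl C ≤ C := by
    let _ : CommGroup C := { (inferInstance : Group C) with
      mul_comm := fun x y => Subtype.ext (hcomm x x.2 y y.2) }
    have : Group.FG C := (Group.fg_iff_subgroup_fg C).2 hfg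
    obtain ⟨c, hc⟩ := abel_core t_ACT t_GL t_EXT t_STAB u_LIN u_STEP t_MAT u_INN n hn C C.subtype
      C.subtype_injective
    have hc2 : ∀ M : ℕ, 0 < M → ∃ N : ℕ, 0 < N ∧ ∀ x ∈ C, x ∈ OAct t_ACT n c N →
        ∃ y ∈ C, x = y ^ M := by
      intro M hM
      obtain ⟨N, hN, h⟩ := hc M hM
      refine ⟨N, hN, fun x hx hx2 => ?_⟩
      obtain ⟨y, hy⟩ := h ⟨x, hx⟩ hx2
      exact ⟨y, y.2, congrArg Subtype.val hy⟩
    exact cl_eq u_core hn t_SEPAB C hcomm
      (cl_fg t_ACT u_STEP t_MAT t_FIN hABGL t_FGX u_core hn C hcomm c hc2)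
  obtain ⟨K, hK, hKf, h⟩ := sep_case S C hCS hfi hcl _ hφ
  refine ⟨K, hK, hKf, fun ψ hψ hI => h _ hψ ?_⟩
  have h1 : ((ψ⁻¹ * φ : MulAut (FreeGroup (Fin n))) : Out n) ∈ OIM K := mk_mem_OIM.2 hI
  exact h1

/-- (3) The preimages in `Aut (F_n)`. -/
theorem fin_three (n : ℕ) (hn : 2 ≤ n) (S : Subgroup (Out n)) (hS : VA S)
    (V : Subgroup (MulAut (FreeGroup (Fin n)))) (hV : V.relIndex (pre S) ≠ 0) :
    ∃ K : Subgroup (FreeGroup (Fin n)), K.Characteristic ∧ K.FiniteIndex ∧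
      ∀ φ : MulAut (FreeGroup (Fin n)), (φ : Out n) ∈ S → (∀ x, φ x * x⁻¹ ∈ K) → φ ∈ V := by
  have hE : InnF n ≤ pre S := by
    intro φ hφ
    rw [mem_pre, (QuotientGroup.eq_one_iff _).2 hφ]
    exact S.one_mem
  refine t_EVAL n hn (pre S) V hE hV fun T hT hTE => ?_
  have h1 : T = pre (T.map (QuotientGroup.mk' (InnF n))) := by
    unfold pre
    rw [Subgroup.comap_map_eq, QuotientGroup.ker_mk', sup_eq_left.2 hT]
  have h2 : (T.map (QuotientGroup.mk' (InnF n))).relIndex S ≠ 0 := by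
    rw [h1] at hTE
    unfold pre at hTE
    rw [Subgroup.relIndex_comap, Subgroup.map_comap_eq_self_of_surjective
      (QuotientGroup.mk'_surjective _)] at hTE
    exact hTE
  obtain ⟨K, hK, hKf, h⟩ := fin_one n hn S _ hS h2
  refine ⟨K, hK, hKf, fun φ hφ hφK => ?_⟩
  have h3 := h φ hφ hφK
  rw [h1]
  exact h3

theorem congVA : CongVA := by
  intro m S hm hS V hV
  rcases Nat.eq_or_lt_of_le hm with h1 | hm
  · subst h1
    obtain ⟨K, hK, hKf, h⟩ := ONE.main V hV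
    exact ⟨K, hK, hKf, fun φ _ hT => h φ trivial hT⟩
  obtain ⟨K, hK, hKf, h⟩ := fin_three m hm S hS V (by
    have : (V.subgroupOf (pre S)).FiniteIndex := inferInstance
    exact this.index_ne_zero)
  exact ⟨K, hK, hKf, fun φ hφ hT => h φ hφ hT⟩

/-- (4) The family. -/
theorem fin_four (n : ℕ) (S : Set (MulAut (F n))) (h : Fam2 n S) : Cong n S ∧ OutCong n S :=
  fam2_all congVA (Pool.Agent.N77.CS.ASM.main WR.main) ONE.main n S h

end Pool.Agent.Helper76x.OF
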