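import Pool.Agent.Helper76x.OF.Fin2

/-!
# Project OF (helper76): free products
-/

set_option autoImplicit false

namespace Pool.Agent.Helper76x.OF

open Pool.Agent.R387.TC Pool.Agent.N77.CS

/-- The automorphisms of `F_{k+l} = F_k * F_l` which map each of the two free factors onto a conjugate and induce on
it an element of `S`, respectively `T` (subgroups of `Out (F_k)`, `Out (F_l)`). -/
def Rel {k l : ℕ} (S : Subgroup (Out k)) (T : Subgroup (Out l)) : Set (MulAut (F (k + l))) :=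
  {φ | (∃ (g : F (k + l)) (σ : MulAut (F k)), (σ : Out k) ∈ S ∧
      ∀ x, φ (iA k l x) = g * iA k l (σ x) * g⁻¹) ∧
    ∃ (h : F (k + l)) (τ : MulAut (F l)), (τ : Out l) ∈ T ∧
      ∀ y, φ (iB k l y) = h * iB k l (τ y) * h⁻¹}

/-- the retraction on the first factor -/
def rA (k l : ℕ) : F (k + l) →* F k :=
  FreeGroup.lift (Fin.addCases (fun i => FreeGroup.of i) (fun _ => 1))

/-- the retraction on the second factor -/
def rB (k l : ℕ) : F (k + l) →* F l :=
  FreeGroup.lift (Fin.addCases (fun _ => 1) (fun i => FreeGroup.of i))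

theorem rA_iA (k l : ℕ) (x : F k) : rA k l (iA k l x) = x := by
  have h : (rA k l).comp (iA k l) = MonoidHom.id (F k) := by
    apply FreeGroup.ext_hom
    intro i
    simp [rA, iA]
  exact DFunLike.congr_fun h x

theorem rB_iB (k l : ℕ) (x : F l) : rB k l (iB k l x) = x := by
  have h : (rB k l).comp (iB k l) = MonoidHom.id (F l) := by
    apply FreeGroup.ext_hom
    intro i
    simp [rB, iB]
  exact DFunLike.congr_fun h x

theorem cls_eq {m n : ℕ} (i : F m →* F n) (r : F n →* F m) (hr : ∀ x, r (i x) = x) (φ : MulAut (F n))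
    (g g' : F n) (σ σ' : MulAut (F m)) (h1 : ∀ x, φ (i x) = g * i (σ x) * g⁻¹)
    (h2 : ∀ x, φ (i x) = g' * i (σ' x) * g'⁻¹) : (σ : Out m) = (σ' : Out m) := by
  have h3 : MulAut.conj (r g) * σ = MulAut.conj (r g') * σ' := by
    ext x
    have h4 := congrArg r ((h1 x).symm.trans (h2 x))
    rw [map_mul, map_mul, map_mul, map_mul, hr, hr, map_inv, map_inv] at h4
    rw [MulAut.mul_apply, MulAut.mul_apply, MulAut.conj_apply, MulAut.conj_apply, h4]
  have h5 : ∀ g : F m, ((MulAut.conj g : MulAut (F m)) : Out m) = 1 := fun g =>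
    (QuotientGroup.eq_one_iff _).2 ⟨g, rfl⟩
  have h6 : ((MulAut.conj (r g) * σ : MulAut (F m)) : Out m) = (MulAut.conj (r g') * σ' : MulAut (F m)) :=
    congrArg _ h3
  rw [QuotientGroup.mk_mul, QuotientGroup.mk_mul, h5, h5, one_mul, one_mul] at h6
  exact h6

theorem cjTo_of {m n : ℕ} (i : F m →* F n) (φ : MulAut (F n)) (g : F n) (σ : MulAut (F m))
    (h1 : ∀ x, φ (i x) = g * i (σ x) * g⁻¹) : CjTo i.range φ := by
  refine ⟨g, fun x => ⟨?_, ?_⟩⟩
  · rintro ⟨y, rfl⟩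
    exact ⟨σ y, by rw [h1]; group⟩
  · rintro ⟨y, hy⟩
    have h2 : φ (i (σ⁻¹ y)) = φ x := by
      rw [h1, ← MulAut.mul_apply, mul_inv_cancel, MulAut.one_apply, hy]; group
    exact ⟨σ⁻¹ y, φ.injective h2⟩

theorem rel_sub {k l : ℕ} (S : Subgroup (Out k)) (T : Subgroup (Out l)) :
    Rel S T ⊆ Prd {σ | (σ : Out k) ∈ S} {τ | (τ : Out l) ∈ T} := by
  rintro φ ⟨⟨g, σ, hσ, h1⟩, ⟨h, τ, hτ, h2⟩⟩
  obtain ⟨u, σ', -, τ', -, h3, h4⟩ := NF.main k l φ (cjTo_of _ φ g σ h1) (cjTo_of _ φ h τ h2)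
  refine ⟨u, σ', ?_, τ', ?_, h3, h4⟩
  · show (σ' : Out k) ∈ S
    rw [← cls_eq (iA k l) (rA k l) (rA_iA k l) φ g u σ σ' h1 h3]
    exact hσ
  · show (τ' : Out l) ∈ T
    rw [← cls_eq (iB k l) (rB k l) (rB_iB k l) φ h u τ τ' h2 h4]
    exact hτ

theorem fin_five (k l : ℕ) (hk : 1 ≤ k) (hl : 1 ≤ l) (S : Subgroup (Out k)) (T : Subgroup (Out l))
    (hS : VA S) (hT : VA T) : Cong (k + l) (Rel S T) ∧ OutCong (k + l) (Rel S T) := by
  obtain ⟨h1, h2⟩ := fin_four _ _ (Fam2.prod (Fam2.va k S hk hS) (Fam2.va l T hl hT))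
  exact ⟨cong_mono (rel_sub S T) h1, outCong_mono (rel_sub S T) h2⟩

end Pool.Agent.Helper76x.OF
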