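import Pool.Agent.Helper76x.OF.Stm

/-!
# Project OF, piece GL (helper21)
-/

set_option autoImplicit false

namespace Pool.Agent.Helper76x.OF

/-- the torsion of a finitely generated abelian group is killed by a positive integer -/
theorem tors_exp (Q : Type) [AddCommGroup Q] [Module.Finite ℤ Q] : ∃ N : ℕ, 0 < N ∧
    ∀ q : Q, (∃ m : ℤ, m ≠ 0 ∧ m • q = 0) → N • q = 0 := by
  have h1 := Submodule.annihilator_top_inter_nonZeroDivisors
    (M := Submodule.torsion ℤ Q) Submodule.torsion_isTorsion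
  obtain ⟨a, ha1, ha2⟩ := h1
  have ha0 : a ≠ 0 := nonZeroDivisors.ne_zero ha2
  refine ⟨a.natAbs, Int.natAbs_pos.2 ha0, ?_⟩
  rintro q ⟨m, hm, hq⟩
  have hq' : q ∈ Submodule.torsion ℤ Q :=
    ⟨⟨m, mem_nonZeroDivisors_of_ne_zero hm⟩, hq⟩
  have h2 := (Submodule.mem_annihilator.1 ha1) ⟨q, hq'⟩ trivial
  have h3 : a • q = 0 := by
    have := congrArg Subtype.val h2
    simpa using this
  rw [← natCast_zsmul]
  rcases Int.natAbs_eq a with h | h
  · rw [← h]
    exact h3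
  · have h4 : ((a.natAbs : ℤ)) = -a := by omega
    rw [h4, neg_smul, h3, neg_zero]

theorem t_GL : S_GL := by
  intro B Q _ _ _ f M hM
  let fA : Additive B →+ Q := MonoidHom.toAdditiveLeft f
  let H : AddSubgroup Q := AddSubgroup.map (DistribSMul.toAddMonoidHom Q (M : ℤ)) fA.range
  have hfin : Module.Finite ℤ (Q ⧸ H) := Module.Finite.of_surjective
    ((QuotientAddGroup.mk' H).toIntLinearMap) (QuotientAddGroup.mk'_surjective H)
  obtain ⟨N, hN, hNt⟩ := tors_exp (Q ⧸ H)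
  refine ⟨N, hN, fun x q hx => ?_⟩
  have h1 : (N : ℕ) • (QuotientAddGroup.mk' H q) = 0 := by
    refine hNt _ ⟨(M : ℤ) * N, by positivity, ?_⟩
    rw [← map_zsmul]
    rw [QuotientAddGroup.mk'_apply, QuotientAddGroup.eq_zero_iff]
    refine ⟨(f x).toAdd, ⟨Additive.ofMul x, rfl⟩, ?_⟩
    show (M : ℤ) • (f x).toAdd = _
    rw [hx, mul_smul]
    simp only [natCast_zsmul]
  rw [← map_nsmul, QuotientAddGroup.mk'_apply, QuotientAddGroup.eq_zero_iff] at h1
  obtain ⟨_, ⟨y, rfl⟩, hy⟩ := h1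
  refine ⟨y.toMul, ?_⟩
  apply Multiplicative.toAdd.injective
  rw [hx, ← hy, toAdd_pow]
  show (M : ℤ) • fA y = M • fA y
  rw [natCast_zsmul]

end Pool.Agent.Helper76x.OF
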