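import Pool.Agent.Helper76x.OF.INJ

/-!
# Project OF, piece GRING: the limit is in the group ring
-/

set_option autoImplicit false

namespace Pool.Agent.Helper76x.OF

open Mg

namespace GRINGP

variable {n : ℕ}

open INJP

/-- if `h` vanishes on all shorter words then `(g h) w = g [] * h w` -/
theorem mul_first (g h : Mg n) (w : List (Fin n)) (hh : ∀ v : List (Fin n), v.length < w.length → h v = 0) :
    (g * h) w = g [] * h w := by
  rw [mul_apply, Finset.sum_eq_single 0]
  · simp
  · intro k hk hk0
    have hk' := Finset.mem_range.mp hk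
    rw [hh (w.drop k) (by rw [List.length_drop]; omega), mul_zero]
  · intro h
    exact absurd (Finset.mem_range.mpr (Nat.succ_pos _)) h

/-- (a) -/
theorem indep (W f : Fin n → Mg n) (hW0 : ∀ i, W i [] = 0)
    (hW1 : ∀ i j, W i [j] = if i = j then 1 else 0) (h : ∑ k, W k * f k = 0) : ∀ k, f k = 0 := by
  have key : ∀ L : ℕ, ∀ w : List (Fin n), w.length < L → ∀ k, f k w = 0 := by
    intro L
    induction L with
    | zero => intro w hw; omega
    | succ L ih =>
      intro w hw k
      have h1 := congrFun h (k :: w)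
      rw [sum_apply] at h1
      have h2 : ∀ i ∈ (Finset.univ : Finset (Fin n)), (W i * f i) (k :: w) =
          if i = k then f i w else 0 := by
        intro i _
        rw [mul_cons, hW0, zero_mul, zero_add,
          mul_first _ _ _ (fun v hv => ih v (by omega) i), tl_apply, hW1]
        split_ifs <;> simp
      rw [Finset.sum_congr rfl h2, Finset.sum_ite_eq', if_pos (Finset.mem_univ _)] at h1
      exact h1
  intro k
  ext w
  exact key (w.length + 1) w (Nat.lt_succ_self _) k

/-- the automorphism `φ` of the group ring -/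
noncomputable def ph (φ : MulAut (FreeGroup (Fin n))) :
    MonoidAlgebra ℤ (FreeGroup (Fin n)) →ₐ[ℤ] MonoidAlgebra ℤ (FreeGroup (Fin n)) :=
  MonoidAlgebra.mapDomainAlgHom ℤ ℤ (φ : FreeGroup (Fin n) →* FreeGroup (Fin n))

theorem ph_single (φ : MulAut (FreeGroup (Fin n))) (g : FreeGroup (Fin n)) (c : ℤ) :
    ph φ (MonoidAlgebra.single g c) = MonoidAlgebra.single (φ g) c := by
  simp [ph]

theorem ph_inv (φ : MulAut (FreeGroup (Fin n))) (r : MonoidAlgebra ℤ (FreeGroup (Fin n))) :
    ph φ (ph φ⁻¹ r) = r := by
  induction r using MonoidAlgebra.induction_linear with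
  | zero => simp
  | add r s hr hs => rw [map_add, map_add, hr, hs]
  | single g c =>
    rw [ph_single, ph_single]
    congr 1
    exact MulAut.apply_inv_self _ φ g

/-- (b) -/
theorem range_of (hfox : S_FOX) (φ : MulAut (FreeGroup (Fin n)))
    (hW1 : ∀ i j, (mag (φ (FreeGroup.of i)) - 1) [j] = if i = j then 1 else 0)
    (f : Mg n) (i : Fin n) (r : MonoidAlgebra ℤ (FreeGroup (Fin n)))
    (h : (mag (φ (FreeGroup.of i)) - 1) * f = magR r) : ∃ s, magR s = f := by
  have hW0 : ∀ i, (mag (φ (FreeGroup.of i)) - 1) [] = 0 := by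
    intro i
    rw [sub_apply, mag_nil, one_nil, sub_self]
  obtain ⟨e, d, hd⟩ := (hfox n (ph φ⁻¹ r)).1
  have h1 := congrArg (fun x => magR (ph φ x)) hd
  simp only [ph_inv, map_add, map_zsmul, map_one, map_sum, map_mul, map_sub, ph_single,
    magR_single, one_smul] at h1
  rw [← h] at h1
  have he : e = 0 := by
    have h2 := congrFun h1 []
    rw [add_apply, sum_apply, mul_nil, hW0, zero_mul] at h2
    simp only [mul_nil, hW0, zero_mul, Finset.sum_const_zero, smul_apply, one_nil, mul_one,
      add_zero] at h2
    exact h2.symm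
  rw [he, zero_smul, zero_add] at h1
  have h3 := indep (fun k => mag (φ (FreeGroup.of k)) - 1)
    (fun k => magR (ph φ (d k)) - if k = i then f else 0) hW0 hW1 (by
      simp only [mul_sub, Finset.sum_sub_distrib, mul_ite, mul_zero, Finset.sum_ite_eq',
        Finset.mem_univ, if_true]
      rw [← h1, sub_self]) i
  simp only [if_true] at h3
  exact ⟨ph φ (d i), sub_eq_zero.mp h3⟩

end GRINGP

open GRINGP INJP in
theorem t_GRING (hfox : S_FOX) : S_GRING := by
  intro n φ u hn hu heq
  -- the equation for the generators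
  have hE : ∀ i, (mag (φ (FreeGroup.of i)) - 1) * u = u * X i := by
    intro i
    have h := heq (FreeGroup.of i)
    rw [mag_of, mul_add, mul_one] at h
    rw [sub_mul, one_mul, h, add_sub_cancel_left]
  have hW0 : ∀ i, (mag (φ (FreeGroup.of i)) - 1) [] = 0 := by
    intro i
    rw [sub_apply, mag_nil, one_nil, sub_self]
  have hW1 : ∀ i j, (mag (φ (FreeGroup.of i)) - 1) [j] = if i = j then 1 else 0 := by
    intro i j
    have h := congrFun (hE i) [j]
    rw [mul_cons, hW0, zero_mul, zero_add, mul_nil, tl_apply, hu, mul_one] at h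
    have h2 := mul_X_concat i u j []
    rw [List.nil_append, hu] at h2
    rw [h, h2]
    by_cases hij : i = j
    · subst hij; rfl
    · rw [if_neg hij, if_neg (Ne.symm hij)]
  -- the right expansion of `φ x_i`
  have hR : ∀ i, ∃ d : Fin n → MonoidAlgebra ℤ (FreeGroup (Fin n)),
      mag (φ (FreeGroup.of i)) - 1 = ∑ k, magR (d k) * X k := by
    intro i
    obtain ⟨e, d, hd⟩ := (hfox n (MonoidAlgebra.single (φ (FreeGroup.of i)) 1)).2
    have h1 := congrArg magR hd
    simp only [map_add, map_zsmul, map_one, map_sum, map_mul, magR_x] at h1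
    rw [magR_single, one_smul] at h1
    have he : e = 1 := by
      have h2 := congrFun h1 []
      rw [add_apply, sum_apply, mag_nil] at h2
      simp only [mul_X_nil, Finset.sum_const_zero, smul_apply, one_nil, mul_one, add_zero] at h2
      exact h2.symm
    rw [he, one_smul] at h1
    exact ⟨d, by rw [h1, add_sub_cancel_left]⟩
  choose d hd using hR
  -- the coefficients of `u`
  obtain ⟨v, hv⟩ : ∃ v : Fin n → Mg n, ∀ k w, v k w = u (w ++ [k]) :=
    ⟨fun k w => u (w ++ [k]), fun _ _ => rfl⟩
  have hu2 : u = 1 + ∑ k, v k * X k := by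
    ext w
    rw [add_apply, sum_apply]
    induction w using List.reverseRecOn with
    | nil => simp only [mul_X_nil, Finset.sum_const_zero, one_nil, add_zero, hu]
    | append_singleton w a _ =>
      have h1 : (1 : Mg n) (w ++ [a]) = 0 := by
        rw [one_apply, if_neg (by simp)]
      simp only [mul_X_concat, h1, zero_add, Finset.sum_ite_eq, Finset.mem_univ, if_true]
      exact (hv a w).symm
  have hrange : ∀ k, ∃ s, magR s = v k := by
    intro k
    obtain ⟨i, hik⟩ : ∃ i : Fin n, k ≠ i := by
      by_cases hk : k = ⟨0, by omega⟩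
      · exact ⟨⟨1, by omega⟩, by rw [hk]; simp⟩
      · exact ⟨⟨0, by omega⟩, hk⟩
    refine range_of hfox φ hW1 (v k) i (- d i k) ?_
    have h1 : ∑ k, (magR (d i k) + (mag (φ (FreeGroup.of i)) - 1) * v k) * X k = u * X i := by
      rw [← hE i]
      conv_rhs => rw [hu2]
      rw [mul_add, mul_one, Finset.mul_sum]
      simp only [add_mul, Finset.sum_add_distrib]
      rw [← hd i]
      congr 1
      exact Finset.sum_congr rfl fun k _ => mul_assoc _ _ _
    have h2 : magR (d i k) + (mag (φ (FreeGroup.of i)) - 1) * v k = 0 := by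
      ext w
      have h3 := congrFun h1 (w ++ [k])
      rw [sum_apply, mul_X_concat, if_neg hik] at h3
      simp only [mul_X_concat, Finset.sum_ite_eq, Finset.mem_univ, if_true] at h3
      exact h3
    rw [map_neg]
    exact (neg_eq_of_add_eq_zero_right h2).symm
  choose s hs using hrange
  refine ⟨1 + ∑ k, s k * (MonoidAlgebra.single (FreeGroup.of k) 1 - 1), ?_⟩
  rw [map_add, map_one, map_sum]
  conv_rhs => rw [hu2]
  simp only [map_mul, magR_x, hs]

end Pool.Agent.Helper76x.OF
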