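import Pool.Agent.Helper76x.OF.Stm2

/-!
# Project OF, piece INJ: the Magnus embedding of the group ring is injective
-/

set_option autoImplicit false

namespace Pool.Agent.Helper76x.OF

open Mg

namespace INJP

variable {n : ℕ}

/-- evaluation at a word -/
def ev (w : List (Fin n)) : Mg n →+ ℤ where
  toFun f := f w
  map_zero' := rfl
  map_add' _ _ := rfl

theorem ev_apply (w : List (Fin n)) (f : Mg n) : ev w f = f w := rfl

theorem sum_apply {ι : Type*} (s : Finset ι) (f : ι → Mg n) (w : List (Fin n)) :
    (∑ i ∈ s, f i) w = ∑ i ∈ s, f i w :=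
  map_sum (ev w) f s

theorem magR_x (k : Fin n) :
    magR (MonoidAlgebra.single (FreeGroup.of k) 1 - 1) = X k := by
  rw [map_sub, map_one, magR_single, one_smul, mag_of, add_sub_cancel_left]

/-- Fox derivative on words -/
noncomputable def DL (k : Fin n) : List (Fin n × Bool) → MonoidAlgebra ℤ (FreeGroup (Fin n))
  | [] => 0
  | (j, true) :: L => (if j = k then MonoidAlgebra.single (FreeGroup.mk L) 1 else 0) + DL k L
  | (j, false) :: L =>
      (if j = k then - MonoidAlgebra.single (FreeGroup.mk ((j, false) :: L)) 1 else 0) + DL k L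

theorem mk_true (j : Fin n) (L : List (Fin n × Bool)) :
    (FreeGroup.mk ((j, true) :: L) : FreeGroup (Fin n)) = FreeGroup.of j * FreeGroup.mk L := rfl

theorem mk_false (j : Fin n) (L : List (Fin n × Bool)) :
    FreeGroup.of j * (FreeGroup.mk ((j, false) :: L) : FreeGroup (Fin n)) = FreeGroup.mk L := by
  have h : (FreeGroup.mk ((j, false) :: L) : FreeGroup (Fin n)) =
      (FreeGroup.of j)⁻¹ * FreeGroup.mk L := rfl
  rw [h, mul_inv_cancel_left]

theorem DL_formula (L : List (Fin n × Bool)) :
    (MonoidAlgebra.single (FreeGroup.mk L) 1 : MonoidAlgebra ℤ (FreeGroup (Fin n))) - 1 =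
      ∑ k, (MonoidAlgebra.single (FreeGroup.of k) 1 - 1) * DL k L := by
  induction L with
  | nil =>
    have h : (FreeGroup.mk [] : FreeGroup (Fin n)) = 1 := rfl
    simp [DL, h, MonoidAlgebra.one_def]
  | cons p L ih =>
    obtain ⟨j, b⟩ := p
    cases b with
    | true =>
      have h1 : ∑ k, (MonoidAlgebra.single (FreeGroup.of k) 1 - 1) * DL k ((j, true) :: L) =
          (MonoidAlgebra.single (FreeGroup.of j) 1 - 1) * MonoidAlgebra.single (FreeGroup.mk L) 1 +
            ∑ k, (MonoidAlgebra.single (FreeGroup.of k) 1 - 1) * DL k L := by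
        simp only [DL, mul_add, Finset.sum_add_distrib, mul_ite, mul_zero, Finset.sum_ite_eq,
          Finset.mem_univ, if_true]
      rw [h1, ← ih, mk_true, sub_mul, MonoidAlgebra.single_mul_single, one_mul, one_mul]
      abel
    | false =>
      have h1 : ∑ k, (MonoidAlgebra.single (FreeGroup.of k) 1 - 1) * DL k ((j, false) :: L) =
          (MonoidAlgebra.single (FreeGroup.of j) 1 - 1) *
            (- MonoidAlgebra.single (FreeGroup.mk ((j, false) :: L)) 1) +
            ∑ k, (MonoidAlgebra.single (FreeGroup.of k) 1 - 1) * DL k L := by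
        simp only [DL, mul_add, Finset.sum_add_distrib, mul_ite, mul_zero, Finset.sum_ite_eq,
          Finset.mem_univ, if_true]
      rw [h1, ← ih, mul_neg, sub_mul, MonoidAlgebra.single_mul_single, one_mul, one_mul, mk_false]
      abel

/-- Fox derivative -/
noncomputable def D (k : Fin n) :
    MonoidAlgebra ℤ (FreeGroup (Fin n)) →+ MonoidAlgebra ℤ (FreeGroup (Fin n)) :=
  (Finsupp.linearCombination ℤ (fun g : FreeGroup (Fin n) => DL k g.toWord)).toAddMonoidHom.comp
    MonoidAlgebra.coeffAddEquiv.toAddMonoidHom

theorem D_apply (k : Fin n) (r : MonoidAlgebra ℤ (FreeGroup (Fin n))) :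
    D k r = ∑ h ∈ r.coeff.support, r.coeff h • DL k h.toWord := rfl

theorem D_single (k : Fin n) (g : FreeGroup (Fin n)) (c : ℤ) :
    D k (MonoidAlgebra.single g c) = c • DL k g.toWord := by
  change Finsupp.linearCombination ℤ (fun g : FreeGroup (Fin n) => DL k g.toWord)
    (Finsupp.single g c) = _
  rw [Finsupp.linearCombination_single]

theorem formula (r : MonoidAlgebra ℤ (FreeGroup (Fin n))) :
    ∃ e : ℤ, r = e • 1 + ∑ k, (MonoidAlgebra.single (FreeGroup.of k) 1 - 1) * D k r := by
  induction r using MonoidAlgebra.induction_linear with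
  | zero => exact ⟨0, by simp⟩
  | add r s hr hs =>
    obtain ⟨e, he⟩ := hr
    obtain ⟨e', he'⟩ := hs
    refine ⟨e + e', ?_⟩
    simp only [map_add, mul_add, Finset.sum_add_distrib]
    nth_rw 1 [he, he']
    rw [add_smul]
    abel
  | single g c =>
    refine ⟨c, ?_⟩
    have h1 := DL_formula g.toWord
    rw [FreeGroup.mk_toWord, sub_eq_iff_eq_add] at h1
    have h2 : (MonoidAlgebra.single g c : MonoidAlgebra ℤ (FreeGroup (Fin n))) =
        c • MonoidAlgebra.single g 1 := by
      rw [MonoidAlgebra.smul_single, smul_eq_mul, mul_one]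
    simp only [D_single, mul_smul_comm]
    rw [h2, h1, ← Finset.smul_sum, ← smul_add, add_comm]

theorem split {r : MonoidAlgebra ℤ (FreeGroup (Fin n))} {e : ℤ}
    {d : Fin n → MonoidAlgebra ℤ (FreeGroup (Fin n))}
    (h : r = e • 1 + ∑ k, (MonoidAlgebra.single (FreeGroup.of k) 1 - 1) * d k) (h0 : magR r = 0) :
    e = 0 ∧ ∀ k, magR (d k) = 0 := by
  have h1 : (0 : Mg n) = e • 1 + ∑ k, X k * magR (d k) := by
    rw [← h0, h, map_add, map_sum, map_zsmul, map_one]
    simp only [map_mul, magR_x]
  constructor
  · have h2 := congrFun h1 []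
    rw [add_apply, sum_apply] at h2
    simp only [X_mul_nil, Finset.sum_const_zero, smul_apply, one_nil, mul_one, add_zero,
      zero_apply] at h2
    exact h2.symm
  · intro k
    ext w
    have h2 := congrFun h1 (k :: w)
    rw [add_apply, sum_apply] at h2
    simp only [X_mul_cons, smul_apply, one_cons, mul_zero, zero_apply, zero_add,
      Finset.sum_ite_eq, Finset.mem_univ, if_true] at h2
    exact h2.symm

theorem DL_coeff (k : Fin n) (L : List (Fin n × Bool)) (g : FreeGroup (Fin n))
    (hg : L.length ≤ g.norm) :
    (DL k L).coeff g = if FreeGroup.mk L = g ∧ L.head? = some (k, false) then -1 else 0 := by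
  induction L with
  | nil => simp [DL]
  | cons p L ih =>
    obtain ⟨j, b⟩ := p
    have hL : L.length < g.norm := by
      rw [List.length_cons] at hg
      omega
    have hne : FreeGroup.mk L ≠ g := by
      intro h
      have h1 := FreeGroup.norm_mk_le (L₁ := L)
      rw [h] at h1
      omega
    have ih' := ih hL.le
    rw [if_neg (fun h => hne h.1)] at ih'
    cases b with
    | true =>
      rw [if_neg (by simp), DL, MonoidAlgebra.coeff_add, Finsupp.add_apply, ih', add_zero]
      split_ifs with h
      · rw [MonoidAlgebra.coeff_single, Finsupp.single_apply, if_neg hne]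
      · simp
    | false =>
      rw [DL, MonoidAlgebra.coeff_add, Finsupp.add_apply, ih', add_zero]
      by_cases h : j = k
      · subst h
        rw [if_pos rfl]
        simp only [List.head?_cons, and_true]
        rw [MonoidAlgebra.coeff_neg, MonoidAlgebra.coeff_single, Finsupp.neg_apply,
          Finsupp.single_apply]
        split_ifs <;> simp
      · rw [if_neg h, if_neg (by simp [h])]
        simp

/-- supported on the elements of norm `< m` -/
def Bd (m : ℕ) (r : MonoidAlgebra ℤ (FreeGroup (Fin n))) : Prop :=
  ∀ g : FreeGroup (Fin n), m ≤ g.norm → r.coeff g = 0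

theorem D_coeff (k : Fin n) {m : ℕ} {r : MonoidAlgebra ℤ (FreeGroup (Fin n))} (hr : Bd (m + 1) r)
    (g : FreeGroup (Fin n)) (hg : m ≤ g.norm) :
    (D k r).coeff g = if g.toWord.head? = some (k, false) then - r.coeff g else 0 := by
  rw [D_apply, MonoidAlgebra.coeff_sum, Finsupp.finsetSum_apply]
  have h1 : ∀ h ∈ r.coeff.support, (r.coeff h • DL k h.toWord).coeff g =
      if h = g then (if g.toWord.head? = some (k, false) then - r.coeff g else 0) else 0 := by
    intro h hh
    have h2 : h.norm ≤ m := by
      by_contra hc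
      exact (Finsupp.mem_support_iff.mp hh) (hr h (by omega))
    rw [MonoidAlgebra.coeff_smul, Finsupp.smul_apply, DL_coeff k h.toWord g (h2.trans hg),
      FreeGroup.mk_toWord]
    by_cases h3 : h = g
    · subst h3
      simp
    · rw [if_neg (fun h4 => h3 h4.1), if_neg h3, smul_zero]
  rw [Finset.sum_congr rfl h1, Finset.sum_ite_eq']
  split_ifs with h2 h3
  · rfl
  · rfl
  · rw [Finsupp.notMem_support_iff.mp h2, neg_zero]
  · rfl

theorem main (m : ℕ) : ∀ r : MonoidAlgebra ℤ (FreeGroup (Fin n)), Bd m r → magR r = 0 → r = 0 := by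
  induction m with
  | zero =>
    intro r hr _
    ext g
    exact hr g (Nat.zero_le _)
  | succ m ih =>
    intro r hr h0
    obtain ⟨e, he⟩ := formula r
    obtain ⟨he0, hD⟩ := split he h0
    have key : ∀ j, D j r = 0 := by
      intro j
      obtain ⟨t, ht⟩ : ∃ t, t = D j r := ⟨_, rfl⟩
      have htm : magR t = 0 := by rw [ht]; exact hD j
      have hta : ∀ g : FreeGroup (Fin n), m ≤ g.norm → t.coeff g =
          if g.toWord.head? = some (j, false) then - r.coeff g else 0 := by
        rw [ht]; exact fun g hg => D_coeff j hr g hg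
      have htb : Bd (m + 1) t := by
        intro g hg
        rw [hta g (by omega), hr g hg, neg_zero, ite_self]
      obtain ⟨e', he'⟩ := formula t
      obtain ⟨he0', hD'⟩ := split he' htm
      have h1 : ∀ k, k ≠ j → D k t = 0 := by
        intro k hk
        refine ih _ ?_ (hD' k)
        intro g hg
        rw [D_coeff k htb g hg]
        split_ifs with h2
        · rw [hta g hg, if_neg, neg_zero]
          rw [h2]
          intro h3
          have h4 := congrArg (fun o : Option (Fin n × Bool) => o.map Prod.fst) h3
          simp only [Option.map_some, Option.some.injEq] at h4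
          exact hk h4
        · rfl
      have h2 : D j t + t = 0 := by
        refine ih _ ?_ (by rw [map_add, hD' j, htm, add_zero])
        intro g hg
        rw [MonoidAlgebra.coeff_add, Finsupp.add_apply, D_coeff j htb g hg]
        split_ifs with h3
        · rw [neg_add_cancel]
        · rw [hta g hg, if_neg h3, add_zero]
      rw [he0', zero_smul, zero_add, Finset.sum_eq_single j
        (fun k _ hk => by rw [h1 k hk, mul_zero]) (fun h => absurd (Finset.mem_univ j) h),
        eq_neg_of_add_eq_zero_left h2] at he'
      have h3 : (MonoidAlgebra.single (FreeGroup.of j) 1 : MonoidAlgebra ℤ (FreeGroup (Fin n))) * t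
          = 0 := by
        have h4 : (MonoidAlgebra.single (FreeGroup.of j) 1 - 1 :
            MonoidAlgebra ℤ (FreeGroup (Fin n))) * (-t) =
            t - MonoidAlgebra.single (FreeGroup.of j) 1 * t := by
          rw [sub_mul, one_mul, mul_neg, sub_neg_eq_add, neg_add_eq_sub]
        rw [h4] at he'
        exact (sub_eq_self.mp he'.symm)
      have h5 := congrArg (fun x => (MonoidAlgebra.single (FreeGroup.of j)⁻¹ 1 :
        MonoidAlgebra ℤ (FreeGroup (Fin n))) * x) h3
      simp only [mul_zero] at h5
      rw [← mul_assoc, MonoidAlgebra.single_mul_single, inv_mul_cancel, mul_one,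
        ← MonoidAlgebra.one_def, one_mul] at h5
      rw [← ht, h5]
    rw [he, he0, zero_smul, zero_add]
    refine Finset.sum_eq_zero fun k _ => ?_
    rw [key k, mul_zero]

end INJP

open INJP in
theorem t_INJ : S_INJ := by
  intro n r hr
  refine main (r.coeff.support.sup FreeGroup.norm + 1) r ?_ hr
  intro g hg
  by_contra h
  have h1 := Finset.le_sup (f := FreeGroup.norm) (Finsupp.mem_support_iff.mpr h)
  omega

end Pool.Agent.Helper76x.OF
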