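import Pool.Agent.Helper76x.OF.Stm2

/-!
# Project OF (helper76): an automorphism of `F_n` which acts as an inner automorphism on all truncations
of the Magnus ring is inner
-/

set_option autoImplicit false

namespace Pool.Agent.Helper76x.OF

open Mg

theorem t_INN (hLIM : S_LIM) (hGR : S_GRING) (hINJ : S_INJ) (hSUPP : S_SUPP) : S_INN := by
  intro n φ hn h
  obtain ⟨u, hu, hu2⟩ := hLIM n φ hn h
  obtain ⟨r, hr⟩ := hGR n φ u hn hu hu2
  refine hSUPP n φ r ?_ fun g => ?_
  · rintro rfl
    rw [map_zero] at hr
    rw [← hr] at hu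
    exact absurd hu (by simp)
  · rw [← sub_eq_zero]
    refine hINJ n _ ?_
    rw [map_sub, map_mul, map_mul, magR_single, magR_single, one_smul, one_smul, hr, hu2 g, sub_self]

end Pool.Agent.Helper76x.OF
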