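import Pool.Agent.Helper76x.OF.Stm

/-!
# Project OF, piece KUM (helper22)
-/

set_option autoImplicit false

namespace Pool.Agent.Helper76x.OF

open NumberField

/-- abelian Kummer theory over a field which is abelian over `K` -/
theorem kum_aux {K F : Type} [Field K] [Field F] [Algebra K F] [FiniteDimensional K F]
    [IsGalois K F] (hab : ∀ σ τ : F ≃ₐ[K] F, σ * τ = τ * σ) {M W : ℕ} [NeZero M] {ζ : F}
    (hζ : IsPrimitiveRoot ζ M)
    (hW : ∀ (g : ℕ) (η : K), 0 < g → IsPrimitiveRoot η g → g ∣ W) (x : K) (y : F) (hx : x ≠ 0)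
    (hy : y ^ M = algebraMap K F x) : ∃ z : K, x ^ W = z ^ M := by
  have hM : 0 < M := Nat.pos_of_ne_zero (NeZero.ne M)
  have hinj : Function.Injective (algebraMap K F) := (algebraMap K F).injective
  have hx' : algebraMap K F x ≠ 0 := fun h => hx (hinj (by rw [h, map_zero]))
  have hy0 : y ≠ 0 := by
    rintro rfl
    rw [zero_pow hM.ne'] at hy
    exact hx' hy.symm
  have hζM : ζ ^ M = 1 := hζ.pow_eq_one
  have hζ0 : ζ ≠ 0 := hζ.ne_zero hM.ne'
  -- the exponents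
  have ha : ∀ σ : F ≃ₐ[K] F, ∃ a : ℕ, σ ζ = ζ ^ a := fun σ => ⟨_, (hζ.autToPow_spec K σ).symm⟩
  choose a ha using ha
  have hb : ∀ τ : F ≃ₐ[K] F, ∃ b : ℕ, τ y = ζ ^ b * y := by
    intro τ
    have h1 : (τ y / y) ^ M = 1 := by
      rw [div_pow, ← map_pow, hy, AlgEquiv.commutes, div_self hx']
    obtain ⟨b, _, hb⟩ := hζ.eq_pow_of_pow_eq_one h1
    exact ⟨b, by rw [hb, div_mul_cancel₀ _ hy0]⟩
  choose b hb using hb
  -- the subgroup
  obtain ⟨I, hI⟩ : ∃ I : AddSubgroup ℤ, ∀ j : ℤ, j ∈ I ↔ ∃ z : K, z ≠ 0 ∧ x ^ j = z ^ M :=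
    ⟨{ carrier := {j | ∃ z : K, z ≠ 0 ∧ x ^ j = z ^ M}
       zero_mem' := ⟨1, one_ne_zero, by simp⟩
       add_mem' := by
        rintro i j ⟨z, hz, h⟩ ⟨w, hw, h'⟩
        exact ⟨z * w, mul_ne_zero hz hw, by rw [zpow_add₀ hx, h, h', mul_pow]⟩
       neg_mem' := by
        rintro i ⟨z, hz, h⟩
        exact ⟨z⁻¹, inv_ne_zero hz, by rw [zpow_neg, h, inv_pow]⟩ }, fun j => Iff.rfl⟩
  have hMI : (M : ℤ) ∈ I := (hI _).2 ⟨x, hx, by rw [zpow_natCast]⟩
  have haI : ∀ σ : F ≃ₐ[K] F, (a σ : ℤ) - 1 ∈ I := by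
    intro σ
    have hfix : ∀ τ : F ≃ₐ[K] F, τ (σ y / y ^ a σ) = σ y / y ^ a σ := by
      intro τ
      have h1 : τ (σ y) = σ (τ y) := by
        have := congrArg (fun f : F ≃ₐ[K] F => f y) (hab τ σ)
        simpa using this
      rw [map_div₀, map_pow, h1, hb τ, map_mul, map_pow, ha σ, mul_pow, ← pow_mul, ← pow_mul,
        mul_comm (a σ) (b τ)]
      rw [mul_div_mul_left _ _ (pow_ne_zero _ hζ0)]
    obtain ⟨z, hz⟩ := (IsGalois.mem_range_algebraMap_iff_fixed (F := K) (σ y / y ^ a σ)).2 hfix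
    have hz0 : z ≠ 0 := by
      rintro rfl
      rw [map_zero] at hz
      have := div_ne_zero ((map_ne_zero_iff σ σ.injective).2 hy0) (pow_ne_zero (a σ) hy0)
      exact this hz.symm
    refine (hI _).2 ⟨z⁻¹, inv_ne_zero hz0, ?_⟩
    apply hinj
    rw [map_pow, map_inv₀, hz, map_zpow₀, ← hy, inv_div, div_pow, ← pow_mul, ← map_pow, hy,
      AlgEquiv.commutes, mul_comm (a σ) M, pow_mul, hy, zpow_sub₀ hx', zpow_natCast, zpow_one]
  obtain ⟨g0, hg0⟩ := Int.subgroup_cyclic I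
  obtain ⟨g, hg⟩ : ∃ g : ℕ, g = g0.natAbs := ⟨_, rfl⟩
  have hmem : ∀ j : ℤ, j ∈ I ↔ (g : ℤ) ∣ j := by
    intro j
    rw [hg0, AddSubgroup.mem_closure_singleton, hg, Int.natAbs_dvd]
    constructor
    · rintro ⟨n, hn⟩
      exact ⟨n, by rw [← hn, smul_eq_mul, mul_comm]⟩
    · rintro ⟨n, hn⟩
      exact ⟨n, by rw [hn, smul_eq_mul, mul_comm]⟩
  have hgM : g ∣ M := by
    have := (hmem _).1 hMI
    exact_mod_cast this
  have hgpos : 0 < g := Nat.pos_of_dvd_of_pos hgM hM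
  obtain ⟨m, hm⟩ := hgM
  have hmpos : 0 < m := by
    rcases Nat.eq_zero_or_pos m with h | h
    · rw [h, mul_zero] at hm; omega
    · exact h
  -- the root of unity of order `g`
  have hη : IsPrimitiveRoot (ζ ^ m) g := hζ.pow hM (by rw [hm, mul_comm])
  have hηfix : ∀ τ : F ≃ₐ[K] F, τ (ζ ^ m) = ζ ^ m := by
    intro τ
    obtain ⟨c, hc⟩ := (hmem _).1 (haI τ)
    rw [map_pow, ha τ, ← pow_mul]
    have h1 : ζ ^ ((a τ * m : ℕ) : ℤ) = ζ ^ (m : ℤ) := by
      have h2 : ((a τ * m : ℕ) : ℤ) = m + (M : ℤ) * c := by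
        rw [hm]
        push_cast
        linear_combination (m : ℤ) * hc
      rw [h2, zpow_add₀ hζ0, zpow_mul, zpow_natCast ζ M, hζM, one_zpow, mul_one]
    rw [zpow_natCast, zpow_natCast] at h1
    exact h1
  obtain ⟨η, hη'⟩ := (IsGalois.mem_range_algebraMap_iff_fixed (F := K) (ζ ^ m)).2 hηfix
  rw [← hη'] at hη
  have hdvd := hW g η hgpos (IsPrimitiveRoot.of_map_of_injective hη hinj)
  obtain ⟨z, _, hz⟩ := (hI W).1 ((hmem W).2 (by exact_mod_cast hdvd))
  exact ⟨z, by rw [← zpow_natCast, hz]⟩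

theorem t_KUM : S_KUM := by
  intro K _ _
  refine ⟨NumberField.Units.torsionOrder K, NumberField.Units.torsionOrder_pos K, fun M hM => ?_⟩
  have : NeZero M := ⟨hM.ne'⟩
  have hcyc : IsCyclotomicExtension {M} K (CyclotomicField M K) := inferInstance
  have hgal : IsGalois K (CyclotomicField M K) := IsCyclotomicExtension.isGalois {M} K _
  refine ⟨CyclotomicField M K, inferInstance, IsCyclotomicExtension.numberField {M} K _,
    inferInstance, ⟨_, IsCyclotomicExtension.zeta_spec M K _⟩, fun x y hx hy => ?_⟩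
  have hfd : FiniteDimensional K (CyclotomicField M K) :=
    IsCyclotomicExtension.finiteDimensional {M} K _
  have hcomm := IsCyclotomicExtension.isMulCommutative {M} K (CyclotomicField M K)
  refine kum_aux (fun σ τ => hcomm.is_comm.comm σ τ) (IsCyclotomicExtension.zeta_spec M K _) ?_ x y
    hx hy
  intro g η hg hη
  have : NeZero g := ⟨hg.ne'⟩
  exact NumberField.Units.dvd_torsionOrder_of_isPrimitiveRoot hη

end Pool.Agent.Helper76x.OF
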