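import Pool.Agent.Helper76x.OF.COMM

/-!
# Project OF, piece LIM (helper66)
-/

set_option autoImplicit false

namespace Pool.Agent.Helper76x.OF

open Mg

namespace LIMx

variable {n : ℕ}

lemma small0 {c : ℕ} {f : Mg n} : Small c 0 f ↔ ∀ w : List (Fin n), w.length ≤ c → f w = 0 := by
  unfold Mg.Small
  simp

lemma pow_small {t : Mg n} (ht : t [] = 0) (k : ℕ) : Small k 0 (t ^ (k + 1)) := by
  induction k with
  | zero =>
    rw [small0]
    intro w hw
    have : w = [] := List.length_eq_zero_iff.1 (by omega)
    rw [this, zero_add, pow_one, ht]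
  | succ k ih =>
    rw [small0] at ih ⊢
    intro w hw
    rw [pow_succ', mul_apply]
    refine Finset.sum_eq_zero fun j hj => ?_
    rcases Nat.eq_zero_or_pos j with rfl | hj0
    · rw [List.take_zero, ht, zero_mul]
    · rw [ih _ (by rw [List.length_drop]; omega), mul_zero]

lemma trunc_inv {u : Mg n} (hu : u [] = 1) (c : ℕ) :
    ∃ s : Mg n, Small c 0 (u * s - 1) ∧ Small c 0 (s * u - 1) := by
  refine ⟨∑ k ∈ Finset.range (c + 1), (1 - u) ^ k, ?_, ?_⟩
  · have h1 := mul_neg_geom_sum (1 - u) (c + 1)
    rw [sub_sub_cancel] at h1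
    have h2 := pow_small (t := 1 - u) (by rw [sub_apply, one_nil, hu, sub_self]) c
    rw [h1, sub_sub_cancel_left]
    exact h2.neg
  · have h1 := geom_sum_mul_neg (1 - u) (c + 1)
    rw [sub_sub_cancel] at h1
    have h2 := pow_small (t := 1 - u) (by rw [sub_apply, one_nil, hu, sub_self]) c
    rw [h1, sub_sub_cancel_left]
    exact h2.neg

lemma unique (hC : S_COMM) (hn : 2 ≤ n) {φ : MulAut (FreeGroup (Fin n))} {c : ℕ} {u u' : Mg n}
    (hu : u [] = 1) (hu' : u' [] = 1)
    (h : ∀ g, Small c 0 (mag (φ g) * u - u * mag g))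
    (h' : ∀ g, Small c 0 (mag (φ g) * u' - u' * mag g)) (w : List (Fin n))
    (hw : w.length + 1 ≤ c) : u' w = u w := by
  obtain ⟨s, hus, hsu⟩ := trunc_inv hu c
  set v : Mg n := s * u' - 1 with hv
  have hkey : ∀ g, Small c 0 (mag g * v - v * mag g) := by
    intro g
    have e1 : mag g * v - v * mag g =
        - ((s * (mag (φ g) * u - u * mag g) * s - s * mag (φ g) * (u * s - 1)
          + (s * u - 1) * (mag g * s)) * u') + s * (mag (φ g) * u' - u' * mag g) := by
      rw [hv]
      noncomm_ring
    rw [e1]
    exact ((((((h g).mul_left s).mul_right s).sub (hus.mul_left _)).add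
      (hsu.mul_right _)).mul_right _).neg.add ((h' g).mul_left _)
  have hX : ∀ i : Fin n, Small c 0 (X i * v - v * X i) := by
    intro i
    have := hkey (FreeGroup.of i)
    rw [mag_of] at this
    have e1 : (1 + X i) * v - v * (1 + X i) = X i * v - v * X i := by noncomm_ring
    rwa [e1] at this
  have hvw : ∀ w : List (Fin n), w.length + 1 ≤ c → v w = 0 := by
    intro w hw
    rcases Nat.eq_zero_or_pos w.length with h0 | h0
    · have hw0 : w = [] := List.length_eq_zero_iff.1 h0
      rw [small0] at hus
      have h1 := hus [] (by simp)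
      rw [sub_apply, mul_nil, hu, one_nil, one_mul] at h1
      rw [hw0, hv, sub_apply, mul_nil, hu', one_nil, mul_one]
      exact h1
    · have := hC n c 0 v hn hX w h0 hw
      simpa using this
  have e2 : u' - u = u * v - (u * s - 1) * u' := by
    rw [hv]
    noncomm_ring
  have h3 : (u' - u) w = 0 := by
    rw [e2, sub_apply]
    have h4 : (u * v) w = 0 := by
      rw [mul_apply]
      refine Finset.sum_eq_zero fun j hj => ?_
      rw [hvw _ (by rw [List.length_drop]; omega), mul_zero]
    have h5 : ((u * s - 1) * u') w = 0 := by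
      have := hus.mul_right u'
      rw [small0] at this
      exact this w (by omega)
    rw [h4, h5, sub_zero]
  rw [sub_apply] at h3
  omega

end LIMx

open LIMx in
theorem t_LIM (hC : S_COMM) : S_LIM := by
  intro n φ hn h
  choose u hu hug using h
  have hstep : ∀ (w : List (Fin n)) (c : ℕ), w.length + 1 ≤ c → u c w = u (w.length + 1) w := by
    intro w c hc
    induction c, hc using Nat.le_induction with
    | base => rfl
    | succ c hc ih =>
      rw [← ih]
      exact unique hC hn (hu c) (hu (c + 1)) (hug c)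
        (fun g => (hug (c + 1) g).mono (Nat.le_succ c) (dvd_refl _)) w hc
  obtain ⟨U, hU⟩ : ∃ U : Mg n, ∀ w : List (Fin n), U w = u (w.length + 1) w := ⟨_, fun _ => rfl⟩
  refine ⟨U, (hU []).trans (hu 1), ?_⟩
  intro g
  ext w
  have h1 := hug (w.length + 1) g
  rw [small0] at h1
  have h2 := h1 w (Nat.le_succ _)
  rw [sub_apply, sub_eq_zero, mul_apply, mul_apply] at h2
  rw [mul_apply, mul_apply]
  have h3 : ∀ w' : List (Fin n), w'.length ≤ w.length → U w' = u (w.length + 1) w' :=
    fun w' hw' => (hU w').trans (hstep w' (w.length + 1) (by omega)).symm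
  calc ∑ k ∈ Finset.range (w.length + 1), mag (φ g) (w.take k) * U (w.drop k)
      = ∑ k ∈ Finset.range (w.length + 1), mag (φ g) (w.take k) * u (w.length + 1) (w.drop k) :=
        Finset.sum_congr rfl fun k _ => by
          rw [h3 _ (by rw [List.length_drop]; omega)]
    _ = ∑ k ∈ Finset.range (w.length + 1), u (w.length + 1) (w.take k) * mag g (w.drop k) := h2
    _ = _ := Finset.sum_congr rfl fun k _ => by
          rw [h3 _ (List.length_take_le' _ _)]

end Pool.Agent.Helper76x.OF
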