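import Pool.Agent.Helper76x.OF.Stm

/-!
# Project OF, piece LIN (helper21)
-/

set_option autoImplicit false

namespace Pool.Agent.Helper76x.OF

theorem t_LIN (hR : S_RING) : S_LIN := by
  intro n C _ P M hM
  let T : Set (Matrix (Fin n) (Fin n) ℤ) := Set.range P
  let Z : Subring (Matrix (Fin n) (Fin n) ℤ) := Subring.centralizer T
  let R : Subring (Matrix (Fin n) (Fin n) ℤ) := Subring.centralizer (Z : Set _)
  have hPZ : ∀ x, P x ∈ Z := by
    rintro x _ ⟨y, rfl⟩
    rw [← map_mul, ← map_mul, mul_comm]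
  have hPR : ∀ x, P x ∈ R := by
    intro x c hc
    exact (hc (P x) ⟨x, rfl⟩).symm
  have hRZ : ∀ a ∈ R, a ∈ Z := by
    rintro a ha _ ⟨x, rfl⟩
    exact ha (P x) (hPZ x)
  have hcomm : ∀ a b : R, a * b = b * a := by
    intro a b
    apply Subtype.ext
    exact b.2 a.1 (hRZ a.1 a.2)
  letI : CommRing R := { (inferInstance : Ring R) with mul_comm := hcomm }
  have hfin : Module.Finite ℤ R := Module.Finite.of_injective
    (R.subtype.toAddMonoidHom.toIntLinearMap) Subtype.val_injective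
  let φ : C →* Rˣ := MonoidHom.toHomUnits
    ({ toFun := fun x => ⟨P x, hPR x⟩
       map_one' := Subtype.ext (map_one P)
       map_mul' := fun x y => Subtype.ext (map_mul P x y) } : C →* R)
  have hφ : ∀ x, (((φ x : Rˣ) : R) : Matrix (Fin n) (Fin n) ℤ) = P x := fun x => rfl
  obtain ⟨N, hN, h1⟩ := hR R (by
    intro m x hm hx
    apply Subtype.ext
    have h2 := congrArg Subtype.val hx
    have h3 : m • x.1 = 0 := h2
    exact (smul_eq_zero.1 h3).resolve_left hm) φ.range M hM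
  refine ⟨N, hN, fun x hx => ?_⟩
  choose A hA using hx
  have hA' : P x - 1 = (N : ℤ) • Matrix.of A := by
    ext i j
    rw [hA i j]
    rfl
  have hAR : Matrix.of A ∈ R := by
    intro c hc
    have h2 : c * (P x - 1) = (P x - 1) * c := by
      rw [mul_sub, sub_mul, mul_one, one_mul, hPR x c hc]
    rw [hA', mul_smul_comm, smul_mul_assoc] at h2
    exact smul_right_injective _ (by positivity : (N : ℤ) ≠ 0) h2
  obtain ⟨y, ⟨z, rfl⟩, hz⟩ := h1 (φ x) ⟨x, rfl⟩ ⟨⟨Matrix.of A, hAR⟩, by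
    apply Subtype.ext
    show P x - 1 = ((N : R) : Matrix (Fin n) (Fin n) ℤ) * Matrix.of A
    rw [hA', Subring.coe_natCast, ← nsmul_eq_mul, natCast_zsmul]⟩
  refine ⟨z, ?_⟩
  rw [← map_pow] at hz
  have h4 := congrArg (fun u : Rˣ => ((u : R) : Matrix (Fin n) (Fin n) ℤ)) hz
  rw [← map_pow]
  exact h4

end Pool.Agent.Helper76x.OF
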