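import Pool.Agent.Helper76x.OF.Stm
import Pool.Agent.W401.Cheb.Main

/-!
# Project OF, piece NONPOW (helper46): a unit which is not an `M`-th power over `F ∋ ζ_M` is not an
`M`-th power modulo a suitable prime number
-/

set_option autoImplicit false

namespace Pool.Agent.Helper76x.OF.NONPOW

open NumberField Polynomial Pool.Agent.W401.Cheb

/-- Frobenius homomorphisms for an element of `Gal (L / F)`, from Chebotarev's theorem. -/
theorem frob_hom {F L : Type} [Field F] [NumberField F] [Field L] [NumberField L] [Algebra F L]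
    (Φ : L ≃ₐ[F] L) (M : ℕ) (hM : 0 < M) :
    ∃ (p : ℕ) (_ : Fact p.Prime) (ψ : 𝓞 L →+* AlgebraicClosure (ZMod p)), ¬ p ∣ M ∧
      ∀ x y : 𝓞 L, (y : L) = Φ (x : L) → ψ y = ψ x ^ p := by
  classical
  have hcl : IsAlgClosure ℚ (AlgebraicClosure L) :=
    IsAlgClosure.ofAlgebraic ℚ L (AlgebraicClosure L)
  have hnorm : Normal ℚ (AlgebraicClosure L) := IsAlgClosure.normal ℚ (AlgebraicClosure L)
  have hgal : IsGalois ℚ (AlgebraicClosure L) := {}
  let E := IntermediateField.normalClosure ℚ L (AlgebraicClosure L)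
  have : FiniteDimensional ℚ E := inferInstance
  have : NumberField E := {}
  have : IsGalois ℚ E := IsGalois.normalClosure ℚ L (AlgebraicClosure L)
  let Φ₀ : L ≃ₐ[ℚ] L := Φ.restrictScalars ℚ
  let Φ' : Gal(E/ℚ) := Φ₀.liftNormal E
  have hΦ' : ∀ x : L, Φ' (algebraMap L E x) = algebraMap L E (Φ x) := fun x =>
    AlgEquiv.liftNormal_commutes Φ₀ E x
  have hinf := infinite_frob E Φ'
  obtain ⟨p, ⟨hp, hx⟩, hpM⟩ := hinf.exists_gt M
  have hpF : Fact p.Prime := ⟨hp⟩
  obtain ⟨φ₀, hφ₀⟩ : ∃ φ₀ : 𝓞 E →+* AlgebraicClosure (ZMod p), HasFrob p φ₀ Φ' := by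
    unfold xp at hx
    rw [dif_pos hp] at hx
    obtain ⟨⟨⟨φ₀, hφ₀⟩⟩, -⟩ := Nat.card_ne_zero.1 hx
    exact ⟨φ₀, hφ₀⟩
  refine ⟨p, hpF, φ₀.comp (algebraMap (𝓞 L) (𝓞 E)), fun h => ?_, ?_⟩
  · exact absurd (Nat.le_of_dvd hM h) (by omega)
  · intro x y hy
    rw [RingHom.comp_apply, RingHom.comp_apply, ← hφ₀]
    congr 1
    apply RingOfIntegers.ext
    change algebraMap L E (y : L) = Φ' (algebraMap L E (x : L))
    rw [hΦ', hy]

/-- in a domain, a ring homomorphism to a ring in which `M ≠ 0` is injective on the `M`-th roots of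
unity -/
theorem eq_one_of_map {R k : Type} [CommRing R] [IsDomain R] [Field k] (ψ : R →+* k) {M : ℕ}
    (hM : (M : k) ≠ 0) {z : R} (hz : z ^ M = 1) (h1 : ψ z = 1) : z = 1 := by
  by_contra hne
  have hg : (∑ i ∈ Finset.range M, z ^ i) * (z - 1) = 0 := by
    rw [geom_sum_mul, hz, sub_self]
  rcases mul_eq_zero.1 hg with h | h
  · apply hM
    have h2 := congrArg ψ h
    rw [map_zero, map_sum] at h2
    simpa [h1] using h2
  · exact hne (sub_eq_zero.1 h)

/-- if a domain contains a primitive `M`-th root of unity, then the `M`-th roots of unity in a field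
over it come from the domain -/
theorem exists_root {R k : Type} [CommRing R] [IsDomain R] [Field k] (g : R →+* k) {M : ℕ}
    (hM : 0 < M) {ζ : R} (hζ : IsPrimitiveRoot ζ M) {t : k} (ht : t ^ M = 1) : ∃ z : R, t = g z := by
  have h2 := congrArg (eval₂ g t) (X_pow_sub_one_eq_prod hM hζ)
  rw [eval₂_sub, eval₂_pow, eval₂_X, eval₂_one, ht, sub_self, eval₂_finsetProd] at h2
  obtain ⟨z, -, hz⟩ := Finset.prod_eq_zero_iff.1 h2.symm
  rw [eval₂_sub, eval₂_X, eval₂_C, sub_eq_zero] at hz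
  exact ⟨z, hz⟩

end Pool.Agent.Helper76x.OF.NONPOW

namespace Pool.Agent.Helper76x.OF

open NumberField Polynomial Pool.Agent.Helper76x.OF.NONPOW

theorem t_NONPOW : S_NONPOW := by
  intro K F _ _ _ _ _ M hM hζ x hx
  obtain ⟨ζ, hζ⟩ := hζ
  classical
  set x' : F := algebraMap K F ((x : 𝓞 K) : K) with hx'
  have hx0 : x' ≠ 0 := by
    rw [hx', Ne, map_eq_zero]
    exact RingOfIntegers.coe_ne_zero_iff.2 x.ne_zero
  let f : F[X] := X ^ M - C x'
  have hsep : f.Separable := separable_X_pow_sub_C x' (by exact_mod_cast hM.ne') hx0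
  let L := f.SplittingField
  have hfd : FiniteDimensional F L := inferInstance
  have hch : CharZero L := charZero_of_injective_algebraMap (algebraMap F L).injective
  have hfdQ : FiniteDimensional ℚ L := FiniteDimensional.trans ℚ F L
  have hNF : NumberField L := {}
  have hG : IsGalois F L := IsGalois.of_separable_splitting_field hsep
  obtain ⟨y, hy⟩ : ∃ y : L, y ^ M = algebraMap F L x' := by
    have hsp := SplittingField.splits f
    have hdeg : f.degree ≠ 0 := by
      rw [degree_X_pow_sub_C hM]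
      exact_mod_cast hM.ne'
    obtain ⟨y, hy⟩ := hsp.exists_eval_eq_zero (by rwa [degree_map])
    refine ⟨y, ?_⟩
    simpa [f, sub_eq_zero] using hy
  obtain ⟨Φ, hΦ⟩ : ∃ Φ : L ≃ₐ[F] L, Φ y ≠ y := by
    by_contra h
    push Not at h
    obtain ⟨z, hz⟩ := (IsGalois.mem_range_algebraMap_iff_fixed (F := F) (E := L) y).2 h
    apply hx z
    apply (algebraMap F L).injective
    rw [map_pow, hz, hy]
  obtain ⟨p, hp, ψ, hpM, hψ⟩ := frob_hom Φ M hM
  have hMk : ((M : ℕ) : AlgebraicClosure (ZMod p)) ≠ 0 := by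
    rw [Ne, CharP.cast_eq_zero_iff (AlgebraicClosure (ZMod p)) p]
    exact hpM
  refine ⟨p, hp.out.pos, ?_⟩
  rintro u ⟨r, hr⟩
  -- the maps on the rings of integers
  let j : 𝓞 K →+* 𝓞 L := (algebraMap (𝓞 F) (𝓞 L)).comp (algebraMap (𝓞 K) (𝓞 F))
  have hfix : ∀ z : 𝓞 F, ψ (algebraMap (𝓞 F) (𝓞 L) z) ^ p = ψ (algebraMap (𝓞 F) (𝓞 L) z) := by
    intro z
    symm
    refine hψ _ _ ?_
    exact (Φ.commutes (z : F)).symm
  have hyint : IsIntegral ℤ y := by
    apply IsIntegral.of_pow hM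
    rw [hy]
    have h1 : IsIntegral ℤ ((algebraMap (𝓞 K) (𝓞 F) (x : 𝓞 K) : 𝓞 F) : F) :=
      RingOfIntegers.isIntegral_coe _
    exact h1.map (algebraMap F L).toIntAlgHom
  let Y : 𝓞 L := ⟨y, hyint⟩
  have hYM : Y ^ M = j (x : 𝓞 K) := by
    apply RingOfIntegers.ext
    change y ^ M = algebraMap F L x'
    exact hy
  -- the quotient `Φ y / y`
  have hy0 : y ≠ 0 := by
    intro h
    rw [h, zero_pow hM.ne'] at hy
    exact hx0 ((map_eq_zero _).1 hy.symm)
  set w : L := Φ y / y with hw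
  have hwM : w ^ M = 1 := by
    rw [hw, div_pow, ← map_pow, hy, AlgEquiv.commutes, div_self]
    rwa [Ne, map_eq_zero]
  have hw1 : w ≠ 1 := by
    rw [hw]
    intro h
    exact hΦ (by rwa [div_eq_one_iff_eq hy0] at h)
  have hwint : IsIntegral ℤ w := by
    apply IsIntegral.of_pow hM
    rw [hwM]
    exact isIntegral_one
  let W : 𝓞 L := ⟨w, hwint⟩
  have hWM : W ^ M = 1 := by
    apply RingOfIntegers.ext
    exact hwM
  have hW1 : W ≠ 1 := by
    intro h
    apply hw1
    exact congrArg (fun z : 𝓞 L => (z : L)) h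
  -- the value of `ψ`
  have hval : ψ (Y * j (u : 𝓞 K)) ^ M = 1 := by
    have h1 := congrArg (fun z => ψ (j z)) hr
    simp only [map_sub, map_mul, map_one, map_natCast, CharP.cast_eq_zero, zero_mul,
      Units.val_mul, Units.val_pow_eq_pow_val, map_pow] at h1
    rw [sub_eq_zero] at h1
    rw [← map_pow, mul_pow, map_mul, hYM, map_pow]
    exact h1
  set t := ψ (Y * j (u : 𝓞 K)) with ht
  -- `t` is the image of a root of unity of `F`
  have hζint : IsIntegral ℤ ζ := hζ.isIntegral hM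
  have hζ' : IsPrimitiveRoot (⟨ζ, hζint⟩ : 𝓞 F) M := by
    apply IsPrimitiveRoot.of_map_of_injective (f := algebraMap (𝓞 F) F) (hf := RingOfIntegers.coe_injective)
    exact hζ
  have htp : t ^ p = t := by
    obtain ⟨z, hz⟩ := exists_root (ψ.comp (algebraMap (𝓞 F) (𝓞 L))) hM hζ' hval
    rw [hz]
    exact hfix z
  have hu0 : ψ (j (u : 𝓞 K)) ≠ 0 := by
    intro h
    rw [ht, map_mul, h, mul_zero, zero_pow hM.ne'] at hval
    exact zero_ne_one hval
  have hY0 : ψ Y ≠ 0 := by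
    intro h
    rw [ht, map_mul, h, zero_mul, zero_pow hM.ne'] at hval
    exact zero_ne_one hval
  have hYp : ψ Y ^ p = ψ Y := by
    rw [ht, map_mul, mul_pow, show ψ (j (u : 𝓞 K)) ^ p = ψ (j (u : 𝓞 K)) from hfix _] at htp
    exact mul_right_cancel₀ hu0 htp
  have hWY : ψ (W * Y) = ψ Y ^ p := by
    refine hψ _ _ ?_
    change w * y = Φ y
    rw [hw, div_mul_cancel₀ _ hy0]
  have hW : ψ W = 1 := by
    rw [map_mul, hYp] at hWY
    exact mul_right_cancel₀ hY0 (by rw [hWY, one_mul])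
  exact hW1 (eq_one_of_map ψ hMk hWM hW)

end Pool.Agent.Helper76x.OF
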