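import Pool.Agent.Helper76x.OF.COMM

/-!
# Project OF, piece QUO (helper66)
-/

set_option autoImplicit false

namespace Pool.Agent.Helper76x.OF

open Mg

namespace QUOx

variable {n : ℕ}

/-- words of a given length -/
abbrev W (n c : ℕ) : Type := {w : List (Fin n) // w.length = c}

/-- functions on the words of length `c + 1` -/
abbrev T (n c : ℕ) : Type := Fin n → W n (c + 1) → ℤ

lemma comm_zero (i : Fin n) : (X i * 0 - 0 * X i : Mg n) = 0 := by rw [mul_zero, zero_mul, sub_zero]

/-- the image of the commutator map -/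
def A (n c : ℕ) : AddSubgroup (T n c) where
  carrier := {t | ∃ v : Mg n, (∀ w : List (Fin n), w.length ≠ c → v w = 0) ∧
    ∀ i (w : W n (c + 1)), t i w = (X i * v - v * X i) w.1}
  zero_mem' := ⟨0, fun _ _ => rfl, fun i w => by rw [comm_zero]; rfl⟩
  add_mem' := by
    rintro s t ⟨v, hv, hvt⟩ ⟨v', hv', hvt'⟩
    refine ⟨v + v', fun w hw => by rw [add_apply, hv w hw, hv' w hw, add_zero], ?_⟩
    intro i w
    have e : X i * (v + v') - (v + v') * X i = (X i * v - v * X i) + (X i * v' - v' * X i) := by
      noncomm_ring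
    rw [e, add_apply, Pi.add_apply, Pi.add_apply, hvt, hvt']
  neg_mem' := by
    rintro s ⟨v, hv, hvt⟩
    refine ⟨-v, fun w hw => by rw [neg_apply, hv w hw, neg_zero], ?_⟩
    intro i w
    have e : X i * (-v) - (-v) * X i = - (X i * v - v * X i) := by noncomm_ring
    rw [e, neg_apply, Pi.neg_apply, Pi.neg_apply, hvt]

/-- restriction -/
def res (n c : ℕ) : (Fin n → Mg n) →+ T n c where
  toFun f i w := f i w.1
  map_zero' := rfl
  map_add' _ _ := rfl

instance (n c : ℕ) : Finite (W n c) := by
  have : Finite (List.Vector (Fin n) c) := inferInstance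
  exact this

lemma small_comm {c m : ℕ} {v : Mg n} (hv : ∀ w : List (Fin n), w.length ≠ c → v w = 0)
    (h : ∀ (i : Fin n) (w : W n (c + 1)), (m : ℤ) ∣ (X i * v - v * X i : Mg n) w.1) (i : Fin n) :
    Mg.Small (c + 1) m (X i * v - v * X i) := by
  intro w hw
  by_cases hc : w.length = c + 1
  · exact h i ⟨w, hc⟩
  · have h1 : (X i * v) w = 0 := by
      rcases w with _ | ⟨a, w⟩
      · exact X_mul_nil i v
      · rw [X_mul_cons]
        split_ifs
        · rw [List.length_cons] at hc
          exact hv w (by omega)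
        · rfl
    have h2 : (v * X i) w = 0 := by
      rcases List.eq_nil_or_concat' w with rfl | ⟨w', a, rfl⟩
      · exact mul_X_nil i v
      · rw [mul_X_concat]
        split_ifs
        · rw [List.length_append, List.length_singleton] at hc
          exact hv w' (by omega)
        · rfl
    rw [Mg.sub_apply, h1, h2, sub_zero]
    exact dvd_zero _

end QUOx

open QUOx in
theorem t_QUO (hC : S_COMM) : S_QUO := by
  intro n c hn hc
  refine ⟨T n c ⧸ A n c, inferInstance, ?_, (QuotientAddGroup.mk' (A n c)).comp (res n c), ?_, ?_⟩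
  · exact Module.Finite.of_surjective (QuotientAddGroup.mk' (A n c)).toIntLinearMap
      (QuotientAddGroup.mk'_surjective _)
  · intro m q hm hq
    obtain ⟨t, rfl⟩ := QuotientAddGroup.mk'_surjective (A n c) q
    rw [← map_nsmul] at hq
    have hq' : m • t ∈ A n c := (QuotientAddGroup.eq_zero_iff _).1 hq
    obtain ⟨v, hv, hvt⟩ := hq'
    have hvt' : ∀ i (w : W n (c + 1)), (m : ℤ) * t i w = (X i * v - v * X i) w.1 := by
      intro i w
      rw [← hvt i w, Pi.smul_apply, Pi.smul_apply, nsmul_eq_mul]
    have hS := small_comm (m := m) hv fun i w => ⟨t i w, (hvt' i w).symm⟩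
    have hdv : ∀ w : List (Fin n), ∃ k : ℤ, v w = m * k := by
      intro w
      by_cases hw : w.length = c
      · exact hC n (c + 1) m v hn hS w (by omega) (by omega)
      · exact ⟨0, by rw [hv w hw, mul_zero]⟩
    choose v' hv' using hdv
    obtain ⟨v1, hv1⟩ : ∃ v1 : Mg n, ∀ w, v1 w = v' w := ⟨v', fun _ => rfl⟩
    have hm0 : (m : ℤ) ≠ 0 := by exact_mod_cast hm.ne'
    have hvv : v = (m : ℤ) • v1 := by
      ext w
      rw [smul_apply, hv1, ← hv']
    refine (QuotientAddGroup.eq_zero_iff _).2 ⟨v1, ?_, ?_⟩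
    · intro w hw
      have := hv w hw
      rw [hvv, smul_apply] at this
      exact (mul_eq_zero.1 this).resolve_left hm0
    · intro i w
      have h1 := hvt' i w
      have e : X i * ((m : ℤ) • v1) - ((m : ℤ) • v1) * X i = (m : ℤ) • (X i * v1 - v1 * X i) := by
        rw [mul_smul_comm, smul_mul_assoc, smul_sub]
      rw [hvv, e, smul_apply] at h1
      exact mul_left_cancel₀ hm0 h1
  · intro f N
    constructor
    · rintro ⟨q, hq⟩
      obtain ⟨t, rfl⟩ := QuotientAddGroup.mk'_surjective (A n c) q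
      have h1 : QuotientAddGroup.mk' (A n c) (res n c f - N • t) = 0 := by
        rw [map_sub, map_nsmul, ← hq]
        exact sub_self _
      obtain ⟨v, hv, hvt⟩ := (QuotientAddGroup.eq_zero_iff _).1 h1
      refine ⟨v, hv, fun i w hw => ⟨t i ⟨w, hw⟩, ?_⟩⟩
      have h2 := hvt i ⟨w, hw⟩
      have h3 : (res n c f - N • t) i ⟨w, hw⟩ = f i w - N * t i ⟨w, hw⟩ := by
        rw [Pi.sub_apply, Pi.sub_apply, Pi.smul_apply, Pi.smul_apply, nsmul_eq_mul]
        rfl
      rw [h3] at h2
      have h4 : (X i * v - v * X i) w = f i w - N * t i ⟨w, hw⟩ := h2.symm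
      rw [h4]
      ring
    · rintro ⟨v, hv, hN⟩
      have h0 : ∀ i (w : W n (c + 1)), ∃ k : ℤ, f i w.1 - (X i * v - v * X i) w.1 = N * k :=
        fun i w => hN i w.1 w.2
      choose t ht using h0
      refine ⟨QuotientAddGroup.mk' (A n c) t, ?_⟩
      rw [← map_nsmul, ← sub_eq_zero]
      have h1 : QuotientAddGroup.mk' (A n c) (res n c f - N • t) = 0 := by
        refine (QuotientAddGroup.eq_zero_iff _).2 ⟨v, hv, ?_⟩
        intro i w
        have h3 : (res n c f - N • t) i w = f i w.1 - N * t i w := by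
          rw [Pi.sub_apply, Pi.sub_apply, Pi.smul_apply, Pi.smul_apply, nsmul_eq_mul]
          rfl
        rw [h3, ← ht i w]
        ring
      rw [map_sub] at h1
      exact h1

end Pool.Agent.Helper76x.OF
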