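import Pool.Agent.Helper76x.OF.Stm

/-!
# RED (helper99)
A torsion-free commutative ring which is finite over `ℤ` modulo its nilradical embeds in a finite
product of rings of integers of number fields.
-/

set_option autoImplicit false

namespace Pool.Agent.Helper76x.OF

open NumberField nonZeroDivisors

theorem red_aux (D L : Type) [CommRing D] [IsDomain D] [Field L] [Algebra D L] [IsFractionRing D L]
    [Module.Finite ℤ D] (hinj : Function.Injective (algebraMap ℤ D)) : 
    ∃ (_ : NumberField L) (χ : D →+* 𝓞 L), Function.Injective χ := by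
  have hz : CharZero D := by
    refine ⟨fun a b h => ?_⟩
    have : algebraMap ℤ D (a : ℤ) = algebraMap ℤ D (b : ℤ) := by simpa using h
    exact_mod_cast hinj this
  have : CharZero L :=
    charZero_of_injective_algebraMap (IsFractionRing.injective D L)
  have : FaithfulSMul ℤ D := (faithfulSMul_iff_algebraMap_injective ℤ D).2 hinj
  have : Algebra.IsAlgebraic ℤ D := inferInstance
  have : IsLocalization (Algebra.algebraMapSubmonoid D ℤ⁰) L := inferInstance
  have : Module.Finite ℚ L := Module.Finite.of_isLocalization ℤ D ℤ⁰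
  refine ⟨{ to_charZero := inferInstance, to_finiteDimensional := inferInstance },
    ((IsIntegralClosure.lift ℤ (𝓞 L) L : D →ₐ[ℤ] _) : D →+* _), ?_⟩
  intro a b hab
  have h2 := congrArg (algebraMap (𝓞 L) L) hab
  simp only [AlgHom.toRingHom_eq_coe, RingHom.coe_coe, IsIntegralClosure.algebraMap_lift] at h2
  exact IsFractionRing.injective D L h2

theorem t_RED : S_RED := by
  intro R _ _ htf
  have : IsNoetherianRing R := IsNoetherianRing.of_finite ℤ R
  have hfin : (minimalPrimes R).Finite := minimalPrimes.finite_of_isNoetherianRing R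
  have hpr : ∀ P : minimalPrimes R, P.1.IsPrime := fun P => P.2.1.1
  have hinj : ∀ P : minimalPrimes R, Function.Injective (algebraMap ℤ (R ⧸ P.1)) := by
    intro P
    rw [injective_iff_map_eq_zero]
    intro m hm
    by_contra hm0
    have h1 : (m : R) ∈ P.1 := by
      have : (Ideal.Quotient.mk P.1) (m : R) = 0 := by simpa using hm
      exact Ideal.Quotient.eq_zero_iff_mem.1 this
    have h2 : (m : R) ∈ nonZeroDivisors R := by
      rw [mem_nonZeroDivisors_iff_right]
      intro x hx
      apply htf m x hm0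
      rw [zsmul_eq_mul, mul_comm]
      exact hx
    exact Set.disjoint_left.1 (Ideal.disjoint_nonZeroDivisors_of_mem_minimalPrimes P.2) h1 h2
  have hdom : ∀ P : minimalPrimes R, IsDomain (R ⧸ P.1) := fun P =>
    (Ideal.Quotient.isDomain_iff_prime P.1).2 (hpr P)
  have hmf : ∀ P : minimalPrimes R, Module.Finite ℤ (R ⧸ P.1) := fun P =>
    Module.Finite.of_surjective (Ideal.Quotient.mk P.1).toAddMonoidHom.toIntLinearMap
      Ideal.Quotient.mk_surjective
  have key : ∀ P : minimalPrimes R, ∃ (K : Type) (_ : Field K) (_ : NumberField K)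
      (χ : R →+* 𝓞 K), ∀ r, χ r = 0 → r ∈ P.1 := by
    intro P
    obtain ⟨h1, χ, hχ⟩ := red_aux (R ⧸ P.1) (FractionRing (R ⧸ P.1)) (hinj P)
    refine ⟨FractionRing (R ⧸ P.1), inferInstance, h1, χ.comp (Ideal.Quotient.mk P.1), ?_⟩
    intro r hr
    have : (Ideal.Quotient.mk P.1) r = 0 := hχ (by rw [map_zero]; exact hr)
    exact Ideal.Quotient.eq_zero_iff_mem.1 this
  choose K hK1 hK2 χ hχ using key
  refine ⟨minimalPrimes R, hfin.to_subtype, K, hK1, hK2, χ, ?_⟩
  intro r hr
  rw [← mem_nilradical, nilradical, ← Ideal.sInf_minimalPrimes, Ideal.mem_sInf]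
  intro P hP
  exact hχ ⟨P, hP⟩ r (hr ⟨P, hP⟩)

end Pool.Agent.Helper76x.OF
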