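import Pool.Agent.Helper76x.OF.Stm

/-!
# RING (helper99)
A torsion-free commutative ring which is finite over `ℤ`: every subgroup of the unit group has the
property of Chevalley. Assumes CHEV, RED, UNI.
-/

set_option autoImplicit false

namespace Pool.Agent.Helper76x.OF

open NumberField

/-- the exponent of the units modulo `N` -/
theorem ring_exp (R : Type) [CommRing R] [Module.Finite ℤ R] (N : ℕ) (hN : 0 < N) :
    ∃ e : ℕ, 0 < e ∧ ∀ x : Rˣ, (Units.map (Ideal.Quotient.mk (Ideal.span {(N : R)})).toMonoidHom) x ^ e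
      = 1 := by
  have hmf : Module.Finite ℤ (R ⧸ Ideal.span {(N : R)}) :=
    Module.Finite.of_surjective
      (Ideal.Quotient.mk (Ideal.span {(N : R)})).toAddMonoidHom.toIntLinearMap
      Ideal.Quotient.mk_surjective
  have htor : Module.IsTorsion ℤ (R ⧸ Ideal.span {(N : R)}) := by
    intro x
    refine ⟨⟨(N : ℤ), mem_nonZeroDivisors_of_ne_zero (by exact_mod_cast hN.ne')⟩, ?_⟩
    obtain ⟨r, rfl⟩ := Ideal.Quotient.mk_surjective x
    show (N : ℤ) • (Ideal.Quotient.mk (Ideal.span {(N : R)})) r = 0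
    rw [zsmul_eq_mul, Int.cast_natCast, ← map_natCast (Ideal.Quotient.mk (Ideal.span {(N : R)})),
      ← map_mul, Ideal.Quotient.eq_zero_iff_mem]
    exact Ideal.mul_mem_right _ _ (Ideal.mem_span_singleton_self _)
  have hfin : Finite (R ⧸ Ideal.span {(N : R)}) := Module.finite_of_fg_torsion _ htor
  have : Finite (R ⧸ Ideal.span {(N : R)})ˣ := inferInstance
  refine ⟨Nat.card (R ⧸ Ideal.span {(N : R)})ˣ, Nat.card_pos, fun x => ?_⟩
  exact pow_card_eq_one'

/-- the roots of a subgroup of a finitely generated abelian group -/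
theorem ring_roots (U : Type) [CommGroup U] [Module.Finite ℤ (Additive U)] (A : Subgroup U) :
    ∃ d : ℕ, 0 < d ∧ ∀ z : U, (∃ n : ℕ, 0 < n ∧ z ^ n ∈ A) → z ^ d ∈ A := by
  set A' : Submodule ℤ (Additive U) := AddSubgroup.toIntSubmodule (Subgroup.toAddSubgroup A) with hA'
  set Q := Additive U ⧸ A' with hQ
  have h1 : Module.IsTorsion ℤ (Submodule.torsion ℤ Q) := Submodule.torsion_isTorsion
  have h2 : Finite (Submodule.torsion ℤ Q) := Module.finite_of_fg_torsion _ h1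
  refine ⟨Nat.card (Submodule.torsion ℤ Q), Nat.card_pos, ?_⟩
  rintro z ⟨n, hn, hz⟩
  have h3 : A'.mkQ (Additive.ofMul z) ∈ Submodule.torsion ℤ Q := by
    refine ⟨⟨(n : ℤ), mem_nonZeroDivisors_of_ne_zero (by exact_mod_cast hn.ne')⟩, ?_⟩
    show (n : ℤ) • A'.mkQ (Additive.ofMul z) = 0
    rw [← map_smul, Submodule.mkQ_apply, Submodule.Quotient.mk_eq_zero]
    have : (n : ℤ) • Additive.ofMul z = Additive.ofMul (z ^ n) := by
      rw [natCast_zsmul, ofMul_pow]
    rw [this]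
    exact hz
  have h4 : Nat.card (Submodule.torsion ℤ Q) • (⟨_, h3⟩ : Submodule.torsion ℤ Q) = 0 := by
    exact card_nsmul_eq_zero'
  have h5 : Nat.card (Submodule.torsion ℤ Q) • A'.mkQ (Additive.ofMul z) = 0 := by
    have := congrArg Subtype.val h4
    simpa using this
  rw [← map_nsmul, Submodule.mkQ_apply, Submodule.Quotient.mk_eq_zero] at h5
  rw [← ofMul_pow] at h5
  exact h5

theorem t_RING (hC : S_CHEV) (hR : S_RED) (hU : S_UNI) : S_RING := by
  intro R _ _ htf E M hM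
  obtain ⟨ι, hι, K, hK1, hK2, χ, hχ⟩ := hR R htf
  let F : Rˣ →* (∀ i, (𝓞 (K i))ˣ) := MonoidHom.pi (fun i => Units.map (χ i).toMonoidHom)
  have hF : ∀ (x : Rˣ) (i : ι), ((F x i : (𝓞 (K i))ˣ) : 𝓞 (K i)) = χ i x := fun x i => rfl
  obtain ⟨N1, hN1, hN1'⟩ := hU R (E ⊓ F.ker) (by
    intro x hx
    apply hχ
    intro i
    have : F x = 1 := hx.2
    have h2 : χ i x = 1 := by rw [← hF, this]; rfl
    rw [map_sub, h2, map_one, sub_self]) M hM
  obtain ⟨e, he, he'⟩ := ring_exp R N1 hN1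
  obtain ⟨d, hd, hd'⟩ := ring_roots (∀ i, (𝓞 (K i))ˣ) (E.map F)
  have hC' := fun i => hC (K i) (M * e * d) (by positivity)
  choose N2 hN2 hN2' using hC'
  have := Fintype.ofFinite ι
  refine ⟨N1 * ∏ i, N2 i, Nat.mul_pos hN1 (Finset.prod_pos fun i _ => hN2 i), ?_⟩
  intro x hx hdiv
  have hdiv1 : (N1 : R) ∣ (x : R) - 1 := by
    refine dvd_trans ?_ hdiv
    rw [Nat.cast_mul]
    exact dvd_mul_right _ _
  have hdiv2 : ∀ i, (N2 i : 𝓞 (K i)) ∣ ((F x i : (𝓞 (K i))ˣ) : 𝓞 (K i)) - 1 := by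
    intro i
    have h1 : (N2 i : R) ∣ (x : R) - 1 := by
      refine dvd_trans ?_ hdiv
      rw [Nat.cast_mul]
      refine dvd_trans ?_ (dvd_mul_left _ _)
      exact Nat.cast_dvd_cast (Finset.dvd_prod_of_mem _ (Finset.mem_univ i))
    have h2 := map_dvd (χ i) h1
    rw [hF]
    simpa using h2
  have hz := fun i => hN2' i (F x i) (hdiv2 i)
  choose z hz' using hz
  have hz2 : F x = z ^ (M * e * d) := by
    funext i
    rw [hz' i, Pi.pow_apply]
  have hz3 : z ^ d ∈ E.map F := by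
    apply hd'
    refine ⟨M * e * d, by positivity, ?_⟩
    rw [← hz2]
    exact Subgroup.mem_map_of_mem F hx
  obtain ⟨y, hy, hy'⟩ := Subgroup.mem_map.1 hz3
  have h6 : F x = F (y ^ (M * e)) := by
    rw [map_pow, hy', ← pow_mul, hz2]
    congr 1
    ring
  set q := Units.map (Ideal.Quotient.mk (Ideal.span {(N1 : R)})).toMonoidHom with hq
  have hq1 : ∀ u : Rˣ, q u = 1 ↔ (N1 : R) ∣ (u : R) - 1 := by
    intro u
    rw [← Ideal.mem_span_singleton, ← Ideal.Quotient.eq_zero_iff_mem, map_sub, map_one, sub_eq_zero,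
      Units.ext_iff]
    rfl
  have h7 : x * (y ^ (M * e))⁻¹ ∈ E ⊓ F.ker := by
    refine ⟨E.mul_mem hx (E.inv_mem (E.pow_mem hy _)), ?_⟩
    show F (x * (y ^ (M * e))⁻¹) = 1
    rw [map_mul, map_inv, h6, mul_inv_cancel]
  have h8 : (N1 : R) ∣ ((x * (y ^ (M * e))⁻¹ : Rˣ) : R) - 1 := by
    rw [← hq1, map_mul, map_inv, (hq1 x).2 hdiv1, map_pow, mul_comm M e, pow_mul, he', one_pow,
      inv_one, mul_one]
  obtain ⟨w, hw, hw'⟩ := hN1' _ h7 h8
  refine ⟨w * y ^ e, E.mul_mem hw.1 (E.pow_mem hy _), ?_⟩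
  rw [mul_pow, ← hw', ← pow_mul, mul_comm e M, inv_mul_cancel_right]

end Pool.Agent.Helper76x.OF
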