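import Pool.Agent.Helper76x.OF.Stm

/-!
# Project OF, piece STAB (helper21)
-/

set_option autoImplicit false

namespace Pool.Agent.Helper76x.OF

theorem t_STAB : S_STAB := by
  classical
  intro C _ _ B hB hsat hinf
  have hfinA : Module.Finite ℤ (Additive C) := by
    rw [Module.Finite.iff_addGroup_fg]
    infer_instance
  let S : ℕ → Submodule ℤ (Additive C) := fun k =>
    AddSubgroup.toIntSubmodule (Subgroup.toAddSubgroup (B k))
  have hmem : ∀ k (x : Additive C), x ∈ S k ↔ x.toMul ∈ B k := fun k x => Iff.rfl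
  -- minimal rank
  have hex : ∃ d, ∃ k, 1 ≤ k ∧ Module.finrank ℤ (S k) = d := ⟨_, 1, le_rfl, rfl⟩
  obtain ⟨k0, hk0, hd⟩ := Nat.find_spec hex
  have hle : ∀ k l, k ≤ l → S l ≤ S k := fun k l hkl x hx => hB hkl hx
  have hmin : ∀ k, 1 ≤ k → Module.finrank ℤ (S k0) ≤ Module.finrank ℤ (S k) := by
    intro k hk
    rw [hd]
    exact Nat.find_min' hex ⟨k, hk, rfl⟩
  have hstep : ∀ k, k0 ≤ k → B k ≤ B (k + 1) := by
    intro k hk x hx
    have h1 := Submodule.finrank_quotient_add_finrank ((S (k + 1)).submoduleOf (S k))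
    have h2 : Module.finrank ℤ ((S (k + 1)).submoduleOf (S k)) =
        Module.finrank ℤ (S (k + 1)) :=
      LinearEquiv.finrank_eq (Submodule.submoduleOfEquivOfLe (hle k (k + 1) (Nat.le_succ k)))
    have h3 : Module.finrank ℤ (S k) ≤ Module.finrank ℤ (S k0) :=
      Submodule.finrank_mono (hle k0 k hk)
    have h4 := hmin (k + 1) (by omega)
    have h5 : Module.finrank ℤ (S k ⧸ (S (k + 1)).submoduleOf (S k)) = 0 := by omega
    rw [Module.finrank_eq_zero_iff_isTorsion] at h5
    obtain ⟨⟨m, hm⟩, hmx⟩ := @h5 (Submodule.Quotient.mk ⟨Additive.ofMul x, hx⟩)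
    have hm0 : m ≠ 0 := nonZeroDivisors.ne_zero hm
    have h6 : m • (Submodule.Quotient.mk ⟨Additive.ofMul x, hx⟩ :
        S k ⧸ (S (k + 1)).submoduleOf (S k)) = 0 := hmx
    rw [← Submodule.Quotient.mk_smul, Submodule.Quotient.mk_eq_zero] at h6
    have h7 : m • (Additive.ofMul x) ∈ S (k + 1) := h6
    have h8 : x ^ m ∈ B (k + 1) := h7
    refine hsat k (by omega) x hx m.natAbs (Int.natAbs_pos.2 hm0) ?_
    rcases Int.natAbs_eq m with h | h
    · rw [h, zpow_natCast] at h8
      exact h8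
    · rw [h, zpow_neg, zpow_natCast, inv_mem_iff] at h8
      exact h8
  refine ⟨k0, ?_⟩
  rw [eq_bot_iff]
  intro x hx
  rw [Subgroup.mem_bot]
  apply hinf
  intro k
  rcases le_total k k0 with h | h
  · exact hB h hx
  · induction k, h using Nat.le_induction with
    | base => exact hx
    | succ k hk ih => exact hstep k hk ih

end Pool.Agent.Helper76x.OF
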