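import Pool.Agent.Helper76x.OF.Stm2

/-!
# Project OF, piece STEP
-/

set_option autoImplicit false

namespace Pool.Agent.Helper76x.OF

open Mg

namespace STEP

variable {n : ℕ}

theorem small_mul_top {c : ℕ} {A : Mg n} (hA : Small c 0 A) (u : Mg n) {w : List (Fin n)}
    (hw : w.length = c + 1) : (A * u) w = A w * u [] := by
  rw [mul_apply, Finset.sum_eq_single w.length]
  · rw [List.take_length, List.drop_length]
  · intro k hk hk2
    have h1 : k < w.length + 1 := Finset.mem_range.mp hk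
    have h2 : (w.take k).length ≤ c := by
      rw [List.length_take]
      omega
    have h3 := hA _ h2
    rw [Nat.cast_zero, zero_dvd_iff] at h3
    rw [h3, zero_mul]
  · intro h
    exact absurd (Finset.mem_range.mpr (Nat.lt_succ_self _)) h

theorem mul_small_top {c : ℕ} {A : Mg n} (hA : Small c 0 A) (u : Mg n) {w : List (Fin n)}
    (hw : w.length = c + 1) : (u * A) w = u [] * A w := by
  rw [mul_apply, Finset.sum_eq_single 0]
  · rw [List.take_zero, List.drop_zero]
  · intro k hk hk2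
    have h1 : k < w.length + 1 := Finset.mem_range.mp hk
    have h2 : (w.drop k).length ≤ c := by
      rw [List.length_drop]
      omega
    have h3 := hA _ h2
    rw [Nat.cast_zero, zero_dvd_iff] at h3
    rw [h3, mul_zero]
  · intro h
    exact absurd (Finset.mem_range.mpr (Nat.succ_pos _)) h

theorem step_dft_mul (φ ψ : MulAut (FreeGroup (Fin n))) (u v : Mg n) (g : FreeGroup (Fin n)) :
    dft (φ * ψ) (u * v) g = dft φ u (ψ g) * v + u * dft ψ v g := by
  unfold dft
  rw [MulAut.mul_apply]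
  noncomm_ring

theorem comm_neg (i : Fin n) (v : Mg n) (w : List (Fin n)) :
    (X i * -v - -v * X i) w = -(X i * v - v * X i) w := by
  have h : X i * -v - -v * X i = -(X i * v - v * X i) := by
    rw [mul_neg, neg_mul, neg_sub, sub_neg_eq_add]
    abel
  rw [h, neg_apply]

end STEP

open STEP in
theorem t_STEP (_ : S_ACT) (hDADD : S_DADD) (hDGEN : S_DGEN) (hDCHG : S_DCHG) (hQUO : S_QUO) :
    S_STEP := by
  classical
  intro n c hn hc
  obtain ⟨Q, _, _, τ, htf, hτ⟩ := hQUO n c hn hc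
  -- vanishing
  have hτ0 : ∀ f : Fin n → Mg n, (∀ i w, w.length = c + 1 → f i w = 0) → τ f = 0 := by
    intro f hf
    obtain ⟨q, hq⟩ := (hτ f 0).mpr ⟨0, fun w _ => rfl, fun i w hw => by
      rw [hf i w hw, mul_zero, zero_mul, sub_zero, zero_apply, sub_zero]
      exact dvd_zero _⟩
    rw [hq, zero_smul]
  -- independence
  have hind : ∀ (φ : MulAut (FreeGroup (Fin n))) (u u' : Mg n), u [] = 1 → u' [] = 1 →
      (∀ g, Small c 0 (dft φ u g)) → (∀ g, Small c 0 (dft φ u' g)) →
      τ (fun i => dft φ u (FreeGroup.of i)) = τ (fun i => dft φ u' (FreeGroup.of i)) := by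
    intro φ u u' hu hu' h1 h2
    obtain ⟨v, hv1, hv2⟩ := (hDCHG n c φ u hc hu).1 0 u' hu' h1 h2
    obtain ⟨q, hq⟩ := (hτ ((fun i => dft φ u' (FreeGroup.of i)) -
      (fun i => dft φ u (FreeGroup.of i))) 0).mpr ⟨v, hv1, fun i w hw => hv2 i w hw⟩
    rw [zero_smul, map_sub, sub_eq_zero] at hq
    exact hq.symm
  obtain ⟨δ, hδ⟩ : ∃ δ : MulAut (FreeGroup (Fin n)) → Q, ∀ (φ : MulAut (FreeGroup (Fin n)))
      (u : Mg n), u [] = 1 → (∀ g, Small c 0 (dft φ u g)) →
      δ φ = τ (fun i => dft φ u (FreeGroup.of i)) := by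
    refine ⟨fun φ => if h : Act c 0 φ then τ (fun i => dft φ h.choose (FreeGroup.of i)) else 0,
      fun φ u hu h1 => ?_⟩
    have h : Act c 0 φ := ⟨u, hu, h1⟩
    show (if h : Act c 0 φ then τ (fun i => dft φ h.choose (FreeGroup.of i)) else 0) = _
    rw [dif_pos h]
    exact hind φ _ u h.choose_spec.1 hu h.choose_spec.2 h1
  refine ⟨Q, inferInstance, inferInstance, δ, htf, ?_, ?_, ?_⟩
  · intro φ ψ hφ hψ
    obtain ⟨u, hu, h1⟩ := hφ
    obtain ⟨v, hv, h2⟩ := hψ
    have h1' : ∀ g, Small c 0 (dft φ u g) := h1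
    have h2' : ∀ g, Small c 0 (dft ψ v g) := h2
    have h3 : ∀ g, Small c 0 (dft (φ * ψ) (u * v) g) := by
      intro g
      rw [step_dft_mul]
      exact ((h1' _).mul_right _).add ((h2' _).mul_left _)
    have h4 : (u * v) [] = 1 := by rw [mul_nil, hu, hv, one_mul]
    have hψ1 : Act 1 0 ψ := (show Act c 0 ψ from ⟨v, hv, h2⟩).mono hc dvd_rfl
    rw [hδ _ _ h4 h3, hδ _ _ hu h1', hδ _ _ hv h2', ← map_add, ← sub_eq_zero, ← map_sub]
    apply hτ0
    intro i w hw
    have h5 : dft (φ * ψ) (u * v) (FreeGroup.of i) w = dft φ u (FreeGroup.of i) w +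
        dft ψ v (FreeGroup.of i) w := by
      rw [step_dft_mul, add_apply, small_mul_top (h1' _) _ hw, mul_small_top (h2' _) _ hw, hu, hv,
        mul_one, one_mul, (hDADD n c φ u hu h1').2 ψ hψ1 _ w hw]
    show dft (φ * ψ) (u * v) (FreeGroup.of i) w - (dft φ u (FreeGroup.of i) w +
        dft ψ v (FreeGroup.of i) w) = 0
    rw [h5, sub_self]
  · intro φ hφ
    obtain ⟨u, hu, h1⟩ := hφ
    have h1' : ∀ g, Small c 0 (dft φ u g) := h1
    constructor
    · intro h0
      rw [hδ _ _ hu h1'] at h0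
      obtain ⟨v, hv1, hv2⟩ := (hτ _ 0).mp ⟨0, by rw [h0, smul_zero]⟩
      have hv1' : ∀ w, w.length ≠ c → (-v) w = 0 := by
        intro w hw
        rw [neg_apply, hv1 w hw, neg_zero]
      obtain ⟨h2, h3⟩ := (hDCHG n c φ u hc hu).2 (-v) hv1' h1'
      have h4 : (u * (1 + -v)) [] = 1 := by
        rw [mul_nil, hu, add_apply, one_nil, hv1' [] (by rw [List.length_nil]; omega), add_zero,
          one_mul]
      refine ⟨u * (1 + -v), h4, hDGEN n c 0 φ _ h4 h2 (fun i w hw => ?_)⟩
      rcases Nat.lt_or_ge w.length (c + 1) with h5 | h5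
      · exact h2 _ w (by omega)
      · have h6 : w.length = c + 1 := le_antisymm hw h5
        rw [h3 i w h6, comm_neg, ← sub_eq_add_neg]
        exact hv2 i w h6
    · rintro ⟨u', hu', h2⟩
      have h2' : ∀ g, Small (c + 1) 0 (dft φ u' g) := h2
      rw [hδ φ u' hu' (fun g => (h2' g).mono (Nat.le_succ c) dvd_rfl)]
      apply hτ0
      intro i w hw
      have h3 := h2' (FreeGroup.of i) w hw.le
      rw [Nat.cast_zero, zero_dvd_iff] at h3
      exact h3
  · intro N φ hφ hφ'
    obtain ⟨u, hu, h1⟩ := hφ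
    have h1' : ∀ g, Small c 0 (dft φ u g) := h1
    obtain ⟨u', hu', h2⟩ := hφ'
    have h2' : ∀ g, Small (c + 1) N (dft φ u' g) := h2
    obtain ⟨v, hv1, hv2⟩ := (hDCHG n c φ u hc hu).1 N u' hu'
      (fun g => (h1' g).mono le_rfl (dvd_zero _)) (fun g => (h2' g).mono (Nat.le_succ c) dvd_rfl)
    rw [hδ _ _ hu h1']
    refine (hτ _ N).mpr ⟨-v, fun w hw => by rw [neg_apply, hv1 w hw, neg_zero],
      fun i w hw => ?_⟩
    rw [comm_neg]
    have h3 := dvd_sub (h2' (FreeGroup.of i) w hw.le) (hv2 i w hw)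
    have h4 : dft φ u' (FreeGroup.of i) w - (dft φ u' (FreeGroup.of i) w
        - dft φ u (FreeGroup.of i) w - (X i * v - v * X i) w) =
        dft φ u (FreeGroup.of i) w - -(X i * v - v * X i) w := by ring
    rwa [h4] at h3

end Pool.Agent.Helper76x.OF
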