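import Pool.Agent.Helper76x.OF.Stm2

/-!
# Project OF, piece SUPP: an invertible twisted element of the group ring gives an inner automorphism
-/

set_option autoImplicit false

namespace Pool.Agent.Helper76x.OF

theorem t_SUPP : S_SUPP := by
  intro n φ u hu hrel
  classical
  set S : Finset (FreeGroup (Fin n)) := u.coeff.support with hS
  have hne : S.Nonempty := by
    rw [Finset.nonempty_iff_ne_empty]
    intro h
    apply hu
    have h1 : u.coeff = 0 := Finsupp.support_eq_empty.1 h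
    ext g
    rw [h1]
    rfl
  obtain ⟨h, hh⟩ := hne
  have hstep : ∀ g, φ g * h * g⁻¹ ∈ S := by
    intro g
    have e := congrArg (fun x : MonoidAlgebra ℤ (FreeGroup (Fin n)) => x.coeff (φ g * h)) (hrel g)
    rw [MonoidAlgebra.coeff_single_mul_eq_mul_coeff (m₂ := h) (fun m _ => mul_right_inj (φ g)),
      MonoidAlgebra.coeff_mul_single_eq_coeff_mul (m₂ := φ g * h * g⁻¹)
        (fun m _ => eq_mul_inv_iff_mul_eq.symm), one_mul, mul_one] at e
    rw [hS, Finsupp.mem_support_iff, ← e]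
    exact Finsupp.mem_support_iff.1 hh
  refine ⟨h, ?_⟩
  ext1 g
  rw [MulAut.conj_apply]
  have hmem : ∀ k : ℕ, φ (g ^ k) * h * (g ^ k)⁻¹ ∈ S := fun k => hstep _
  obtain ⟨a, b, hab, e⟩ := Finite.exists_ne_map_eq_of_infinite
    (fun k : ℕ => (⟨φ (g ^ k) * h * (g ^ k)⁻¹, hmem k⟩ : S))
  have e' : φ (g ^ a) * h * (g ^ a)⁻¹ = φ (g ^ b) * h * (g ^ b)⁻¹ := Subtype.ext_iff.1 e
  have key : ∀ a b : ℕ, a < b → φ (g ^ a) * h * (g ^ a)⁻¹ = φ (g ^ b) * h * (g ^ b)⁻¹ →
      φ g = h * g * h⁻¹ := by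
    intro a b hlt e
    have h1 : g ^ b = g ^ a * g ^ (b - a) := by rw [← pow_add]; congr 1; omega
    rw [h1, map_mul, mul_inv_rev] at e
    have h2 : g ^ a * g ^ (b - a) = g ^ (b - a) * g ^ a := by rw [← pow_add, ← pow_add, add_comm]
    have h3 : (g ^ (b - a))⁻¹ * (g ^ a)⁻¹ = (g ^ a)⁻¹ * (g ^ (b - a))⁻¹ := by
      rw [← mul_inv_rev, ← mul_inv_rev, h2]
    have h4 : φ (g ^ a) * φ (g ^ (b - a)) = φ (g ^ (b - a)) * φ (g ^ a) := by
      rw [← map_mul, h2, map_mul]
    have e2 : φ (g ^ (b - a)) * h * (g ^ (b - a))⁻¹ = h := by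
      have e3 : φ (g ^ a) * (φ (g ^ (b - a)) * h * (g ^ (b - a))⁻¹) * (g ^ a)⁻¹
          = φ (g ^ a) * h * (g ^ a)⁻¹ := by
        rw [e]
        simp only [mul_assoc]
      have e4 := mul_right_cancel e3
      exact mul_left_cancel e4
    have e5 : (h⁻¹ * φ g * h) ^ (b - a) = g ^ (b - a) := by
      have : (h⁻¹ * φ g * h) ^ (b - a) = h⁻¹ * φ g ^ (b - a) * h := by
        have := conj_pow (i := b - a) (a := h⁻¹) (b := φ g)
        rwa [inv_inv] at this
      rw [this, ← map_pow]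
      rw [mul_inv_eq_iff_eq_mul] at e2
      rw [mul_assoc, e2, inv_mul_cancel_left]
    have e6 : h⁻¹ * φ g * h = g := pow_left_injective (by omega : b - a ≠ 0) e5
    calc φ g = h * (h⁻¹ * φ g * h) * h⁻¹ := by group
      _ = h * g * h⁻¹ := by rw [e6]
  rcases lt_or_gt_of_ne hab with hlt | hlt
  · exact key a b hlt e'
  · exact key b a hlt e'.symm

end Pool.Agent.Helper76x.OF
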