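import Pool.Agent.Helper76x.OF.Stm

/-!
# Project OF, piece UNI (helper21)
-/

set_option autoImplicit false

namespace Pool.Agent.Helper76x.OF

namespace UniP

variable {R : Type} [CommRing R]

/-- the elements of `E` which are `1` modulo `I` -/
def cg (E : Subgroup Rˣ) (I : Ideal R) : Subgroup E :=
  (MonoidHom.ker (Units.map (Ideal.Quotient.mk I : R →* R ⧸ I))).comap E.subtype

theorem mem_cg {E : Subgroup Rˣ} {I : Ideal R} {x : E} :
    x ∈ cg E I ↔ ((x.1 : Rˣ) : R) - 1 ∈ I := by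
  rw [cg, Subgroup.mem_comap, MonoidHom.mem_ker, Units.ext_iff, ← Ideal.Quotient.eq]
  rfl

theorem finite_quot [Module.Finite ℤ R] {N : ℕ} (hN : 0 < N) :
    Finite (R ⧸ Ideal.span {(N : R)}) := by
  have h1 : Module.Finite ℤ (R ⧸ Ideal.span {(N : R)}) := Module.Finite.of_surjective
    ((Ideal.Quotient.mk (Ideal.span {(N : R)})).toAddMonoidHom.toIntLinearMap)
    Ideal.Quotient.mk_surjective
  refine Module.finite_of_fg_torsion _ ?_
  intro x
  refine ⟨⟨(N : ℤ), mem_nonZeroDivisors_of_ne_zero (by positivity)⟩, ?_⟩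
  obtain ⟨r, rfl⟩ := Ideal.Quotient.mk_surjective x
  show (N : ℤ) • Ideal.Quotient.mk _ r = 0
  rw [← map_zsmul, Ideal.Quotient.eq_zero_iff_mem, Ideal.mem_span_singleton]
  exact ⟨r, by rw [zsmul_eq_mul]; push_cast; ring⟩

end UniP

open UniP in
theorem t_UNI (hG : S_GL) (hE : S_EXT) : S_UNI := by
  intro R _ _ E hnil M hM
  have hnoeth : IsNoetherianRing R := IsNoetherianRing.of_finite ℤ R
  obtain ⟨t, ht⟩ := IsNoetherianRing.isNilpotent_nilradical R
  rw [Ideal.zero_eq_bot] at ht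
  set J := nilradical R with hJ
  have hEm : ∀ x : E, ((x.1 : Rˣ) : R) - 1 ∈ J := fun x => mem_nilradical.2 (hnil x.1 x.2)
  have hc1 : Antitone (fun k => cg E (J ^ (k + 1))) := by
    intro a b hab x hx
    rw [mem_cg] at hx ⊢
    exact Ideal.pow_le_pow_right (Nat.succ_le_succ hab) hx
  have hc2 : ∀ N N' : ℕ, 0 < N → 0 < N' → ∃ N'' : ℕ, 0 < N'' ∧ cg E (Ideal.span {(N'' : R)}) ≤
      cg E (Ideal.span {(N : R)}) ⊓ cg E (Ideal.span {(N' : R)}) := by
    intro N N' hN hN'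
    refine ⟨N * N', Nat.mul_pos hN hN', fun x hx => ?_⟩
    rw [Subgroup.mem_inf, mem_cg, mem_cg, Ideal.mem_span_singleton, Ideal.mem_span_singleton]
    rw [mem_cg, Ideal.mem_span_singleton, Nat.cast_mul] at hx
    exact ⟨(Dvd.intro _ rfl).trans hx, (Dvd.intro_left _ rfl).trans hx⟩
  have hc3 : ∀ N : ℕ, 0 < N → ∃ e : ℕ, 0 < e ∧ ∀ x : E, x ^ e ∈ cg E (Ideal.span {(N : R)}) := by
    intro N hN
    haveI := finite_quot (R := R) hN
    haveI : Finite (R ⧸ Ideal.span {(N : R)})ˣ := inferInstance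
    refine ⟨Nat.card (R ⧸ Ideal.span {(N : R)})ˣ, Nat.card_pos, fun x => ?_⟩
    rw [cg, Subgroup.mem_comap, MonoidHom.mem_ker, map_pow, map_pow]
    exact pow_card_eq_one'
  have hc4 : cg E (J ^ (t + 1)) = ⊥ := by
    rw [eq_bot_iff]
    intro x hx
    rw [mem_cg, pow_succ, ht, Ideal.bot_mul, Ideal.mem_bot, sub_eq_zero] at hx
    rw [Subgroup.mem_bot]
    exact Subtype.ext (Units.ext hx)
  have hc5 : ∀ k < t, ∀ M : ℕ, 0 < M → ∃ N : ℕ, 0 < N ∧ ∀ x ∈ cg E (J ^ (k + 1)),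
      x ∈ cg E (Ideal.span {(N : R)}) → ∃ y ∈ cg E (J ^ (k + 1)), ∃ b ∈ cg E (J ^ (k + 1 + 1)),
        x = y ^ M * b := by
    intro k hk M hM
    have hfin : Module.Finite ℤ (R ⧸ J ^ (k + 1 + 1)) := Module.Finite.of_surjective
      ((Ideal.Quotient.mk (J ^ (k + 1 + 1))).toAddMonoidHom.toIntLinearMap)
      Ideal.Quotient.mk_surjective
    let f : (cg E (J ^ (k + 1))) →* Multiplicative (R ⧸ J ^ (k + 1 + 1)) :=
      { toFun := fun x => Multiplicative.ofAdd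
          (Ideal.Quotient.mk (J ^ (k + 1 + 1)) (((x.1.1 : Rˣ) : R) - 1))
        map_one' := by
          show Multiplicative.ofAdd (Ideal.Quotient.mk (J ^ (k + 1 + 1)) ((1 : R) - 1)) = 1
          rw [sub_self, map_zero]
          rfl
        map_mul' := by
          intro x y
          rw [← ofAdd_add, ← map_add]
          congr 1
          rw [Ideal.Quotient.eq]
          have hx := mem_cg.1 x.2
          have hy := mem_cg.1 y.2
          have h2 : (((x * y).1.1 : Rˣ) : R) - 1 - ((((x.1.1 : Rˣ) : R) - 1) +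
              (((y.1.1 : Rˣ) : R) - 1)) =
              (((x.1.1 : Rˣ) : R) - 1) * (((y.1.1 : Rˣ) : R) - 1) := by
            have h3 : (((x * y).1.1 : Rˣ) : R) = ((x.1.1 : Rˣ) : R) * ((y.1.1 : Rˣ) : R) := rfl
            rw [h3]
            ring
          rw [h2]
          refine Ideal.pow_le_pow_right (by omega) (?_ : _ ∈ J ^ ((k + 1) + (k + 1)))
          rw [pow_add]
          exact Ideal.mul_mem_mul hx hy }
    obtain ⟨N, hN, h2⟩ := hG _ _ f M hM
    refine ⟨N, hN, fun x hx hxN => ?_⟩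
    rw [mem_cg, Ideal.mem_span_singleton] at hxN
    obtain ⟨r, hr⟩ := hxN
    obtain ⟨y, hy⟩ := h2 ⟨x, hx⟩ (Ideal.Quotient.mk _ r) (by
      show Ideal.Quotient.mk (J ^ (k + 1 + 1)) (((x.1 : Rˣ) : R) - 1) = _
      rw [hr, ← map_nsmul, nsmul_eq_mul])
    refine ⟨y.1, y.2, (y.1 ^ M)⁻¹ * x, ?_, by rw [mul_inv_cancel_left]⟩
    have h3 : f ((y ^ M)⁻¹ * ⟨x, hx⟩) = 1 := by
      rw [map_mul, map_inv, map_pow, hy, inv_mul_cancel]
    have h4 : Ideal.Quotient.mk (J ^ (k + 1 + 1))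
        (((((y ^ M)⁻¹ * ⟨x, hx⟩ : cg E (J ^ (k + 1))).1.1 : Rˣ) : R) - 1) = 0 := h3
    rw [Ideal.Quotient.eq_zero_iff_mem] at h4
    exact mem_cg.2 h4
  obtain ⟨N, hN, h1⟩ := hE E (fun N => cg E (Ideal.span {(N : R)}))
    (fun k => cg E (J ^ (k + 1))) t hc1 hc2 hc3 hc4 hc5 M hM
  refine ⟨N, hN, fun x hx hxN => ?_⟩
  obtain ⟨y, -, hy⟩ := h1 ⟨x, hx⟩ (mem_cg.2 (by
    rw [pow_one]
    exact hEm ⟨x, hx⟩)) (mem_cg.2 (Ideal.mem_span_singleton.2 hxN))
  exact ⟨y.1, y.2, congrArg Subtype.val hy⟩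

end Pool.Agent.Helper76x.OF
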