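import Pool.Agent.Helper76x.OF.Asm3
import Pool.Agent.Helper76x.OF.ACT
import Pool.Agent.Helper76x.OF.CHEV
import Pool.Agent.Helper76x.OF.COMM
import Pool.Agent.Helper76x.OF.DADD
import Pool.Agent.Helper76x.OF.DCHG
import Pool.Agent.Helper76x.OF.DGEN
import Pool.Agent.Helper76x.OF.EXT
import Pool.Agent.Helper76x.OF.FIN
import Pool.Agent.Helper76x.OF.FOX
import Pool.Agent.Helper76x.OF.GL
import Pool.Agent.Helper76x.OF.GRING
import Pool.Agent.Helper76x.OF.INJ
import Pool.Agent.Helper76x.OF.INN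
import Pool.Agent.Helper76x.OF.KUM
import Pool.Agent.Helper76x.OF.LIM
import Pool.Agent.Helper76x.OF.LIN
import Pool.Agent.Helper76x.OF.MAT
import Pool.Agent.Helper76x.OF.NONPOW
import Pool.Agent.Helper76x.OF.QUO
import Pool.Agent.Helper76x.OF.RED
import Pool.Agent.Helper76x.OF.RING
import Pool.Agent.Helper76x.OF.STAB
import Pool.Agent.Helper76x.OF.STEP
import Pool.Agent.Helper76x.OF.SUPP
import Pool.Agent.Helper76x.OF.UNI

/-!
# Project OF (helper76): the main theorem
-/

set_option autoImplicit false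

namespace Pool.Agent.Helper76x.OF

theorem u_UNI : S_UNI := t_UNI t_GL t_EXT
theorem u_CHEV : S_CHEV := t_CHEV t_NONPOW t_KUM
theorem u_RING : S_RING := t_RING u_CHEV t_RED u_UNI
theorem u_LIN : S_LIN := t_LIN u_RING
theorem u_QUO : S_QUO := t_QUO t_COMM
theorem u_STEP : S_STEP := t_STEP t_ACT t_DADD t_DGEN t_DCHG u_QUO
theorem u_LIM : S_LIM := t_LIM t_COMM
theorem u_GRING : S_GRING := t_GRING t_FOX
theorem u_INN : S_INN := t_INN u_LIM u_GRING t_INJ t_SUPP

theorem u_core : Core := core t_ACT t_GL t_EXT t_STAB u_LIN u_STEP t_MAT u_INN t_FIN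

end Pool.Agent.Helper76x.OF
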