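import Mathlib

/-!
# Project OF (helper76): MP_181555_al, the congruence topology on abelian subgroups of `Out (F_n)`

Theorem: for `n ≥ 2`, every finitely generated virtually abelian subgroup `S` of `Out (F_n)` and every
subgroup `T` of finite index of `S` there is a characteristic subgroup `K` of finite index of `F_n`
such that all elements of `S` which act trivially on `F_n / K` (modulo inner automorphisms) are in `T`.

This file: the statements about abelian groups, units of number fields and commutative rings. The pieces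
about the free group are in `Stm2.lean`. Files `Pool/Agent/Helper76x/OF/<Name>.lean`, theorem
`t_<NAME> : S_<NAME>` (or with the listed statements as hypotheses), namespace `Pool.Agent.Helper76x.OF`.
-/

set_option autoImplicit false

namespace Pool.Agent.Helper76x.OF

open NumberField

/-! ### Abelian groups -/

/-- **GL.** Let `Q' = Q / M f(B)`, a finitely generated abelian group; let `N ≥ 1` kill its torsion
subgroup (finite). If `f x = N q` then `M N q = M f x` is zero in `Q'`, so `q` is a torsion element of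
`Q'`, so `N q = 0` in `Q'`, that is `f x ∈ M f(B)`. -/
def S_GL : Prop := ∀ (B Q : Type) [CommGroup B] [AddCommGroup Q] [Module.Finite ℤ Q]
  (f : B →* Multiplicative Q) (M : ℕ), 0 < M → ∃ N : ℕ, 0 < N ∧ ∀ (x : B) (q : Q),
    (f x).toAdd = N • q → ∃ y : B, f x = f y ^ M

/-- **EXT.** Induction on `t`: for `(B 1, Γ)` (all the same with `⊤` replaced by `B 1`) take `N1` for `M`, let
`e` be an exponent of `C / Γ N1`, and take `N2` for `B 0` and `M e`; `N''` for `N1, N2`. If `x ∈ Γ N''` then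
`x = y ^ (M e) b` with `b ∈ B 1`, and `b ∈ Γ N1`, so `b = z ^ M`. (State it for `x ∈ B k`.) -/
def S_EXT : Prop := ∀ (C : Type) [CommGroup C] (Γ : ℕ → Subgroup C) (B : ℕ → Subgroup C) (t : ℕ),
  Antitone B →
  (∀ N N' : ℕ, 0 < N → 0 < N' → ∃ N'' : ℕ, 0 < N'' ∧ Γ N'' ≤ Γ N ⊓ Γ N') →
  (∀ N : ℕ, 0 < N → ∃ e : ℕ, 0 < e ∧ ∀ x : C, x ^ e ∈ Γ N) → B t = ⊥ →
  (∀ k < t, ∀ M : ℕ, 0 < M → ∃ N : ℕ, 0 < N ∧ ∀ x ∈ B k, x ∈ Γ N →
    ∃ y ∈ B k, ∃ b ∈ B (k + 1), x = y ^ M * b) →
  ∀ M : ℕ, 0 < M → ∃ N : ℕ, 0 < N ∧ ∀ x ∈ B 0, x ∈ Γ N → ∃ y ∈ B 0, x = y ^ M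

/-- **STAB.** The ranks (`Module.finrank ℤ` of the additive groups) of the `B k` decrease, so they are
constant for `k ≥ k₀`, `k₀ ≥ 1`; then `B k / B (k+1)` is torsion and torsion-free, so `B k = B (k+1)`
for `k ≥ k₀`, and `B k₀` is the intersection. -/
def S_STAB : Prop := ∀ (C : Type) [CommGroup C] [Group.FG C] (B : ℕ → Subgroup C), Antitone B →
  (∀ k ≥ 1, ∀ x ∈ B k, ∀ m : ℕ, 0 < m → x ^ m ∈ B (k + 1) → x ∈ B (k + 1)) →
  (∀ x, (∀ k, x ∈ B k) → x = 1) → ∃ t : ℕ, B t = ⊥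

/-! ### Units of number fields -/

/-- **NONPOW.** Let `x` be a unit of `K` which is not an `M`-th power in `F` (which contains the `M`-th
roots of unity). Let `L` be a splitting field of `X ^ M - x` over `F` (a number field), `y ∈ L`, `y ^ M = x`,
`Φ ∈ Gal (L / F)` with `Φ y ≠ y`, `Φ y = ζ y`. By Chebotarev (`Pool.Agent.K3h73.RS.t_CHEB`; a set of primes with
positive proportion is not empty) there are a prime `v` of `F` not dividing `M` and a prime `P` of `L` over `v` with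
`Φ z ≡ z ^ q` modulo `P` for all `z ∈ 𝓞 L`, `q = N v`. So `y ^ (q - 1) ≡ ζ`. If `x u ^ M ≡ 1` modulo
`v` then `(y u) ^ M ≡ 1` modulo `P`; as `X ^ M - 1 = ∏ (X - ζ')` over the `M`-th roots of unity `ζ' ∈ F`,
`y u ≡ ζ'` for one of them, so `(y u) ^ (q - 1) ≡ 1` (`z ^ q ≡ z` modulo `v` for `z ∈ 𝓞 F`), so
`ζ ≡ 1` modulo `P`, and `ζ = 1` since `v ∤ M`. Take for `N` the prime number under `v` (or `N v`). -/
def S_NONPOW : Prop := ∀ (K F : Type) [Field K] [NumberField K] [Field F] [NumberField F]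
  [Algebra K F] (M : ℕ), 0 < M → (∃ ζ : F, IsPrimitiveRoot ζ M) → ∀ x : (𝓞 K)ˣ,
    (∀ y : F, y ^ M ≠ algebraMap K F ((x : 𝓞 K) : K)) →
      ∃ N : ℕ, 0 < N ∧ ∀ u : (𝓞 K)ˣ, ¬ (N : 𝓞 K) ∣ ((x * u ^ M : (𝓞 K)ˣ) : 𝓞 K) - 1

/-- **KUM.** `F = K (ζ_M)` (`CyclotomicField M K`), `W` the number of the roots of unity in `K`
(`NumberField.Units.torsionOrder`). Let `y ^ M = x`. For `σ ∈ Gal (F / K)` let `σ ζ = ζ ^ a`, `z = σ y / y ^ a`. For
`τ ∈ Gal (F / K)` let `τ y = ζ ^ b y` (as `(τ y / y) ^ M = 1`). As `τ σ = σ τ` (abelian extension),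
`τ z = σ (τ y) / (τ y) ^ a = σ (ζ ^ b y) / (ζ ^ b y) ^ a = z`. So `z ∈ K`, and `z ^ M = x ^ (1 - a)`.
The set `I` of the integers `j` with `x ^ j ∈ (Kˣ) ^ M` is a subgroup containing `M` and all `a_σ - 1`; let
`I = g ℤ`. Then `ζ ^ (M / g)` is fixed by all `σ`, so it is in `K`, and it has order `g`; so `g ∣ W` and
`W ∈ I`. -/
def S_KUM : Prop := ∀ (K : Type) [Field K] [NumberField K], ∃ W : ℕ, 0 < W ∧ ∀ M : ℕ, 0 < M →
  ∃ (F : Type) (_ : Field F) (_ : NumberField F) (_ : Algebra K F),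
    (∃ ζ : F, IsPrimitiveRoot ζ M) ∧ ∀ (x : K) (y : F), x ≠ 0 → y ^ M = algebraMap K F x →
      ∃ z : K, x ^ W = z ^ M

/-- **CHEV** (Chevalley 1951), from NONPOW and KUM. Given `M`. There is `N2` such that no root of unity
`ξ ≠ 1` of `K` is `1` modulo `N2` (finitely many; a nonzero element of `𝓞 K` is not divisible by all
natural numbers). Let `e` be the exponent of the group of units of `𝓞 K / N2` (finite), `W` from KUM, `M' = M W e`, `F`
the field of KUM for `M'`. The units modulo `M'`-th powers are finite (Dirichlet); let `N1` be the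
product of the `N` of NONPOW for the representatives which are not `M'`-th powers in `F`. Let the unit `x` be `1`
modulo `N1 N2`. Then `x = x₀ u ^ M'` with a representative `x₀`, which has to be an `M'`-th power in
`F` (otherwise `x₀ u ^ M' ≡ 1` modulo its `N`), so `x` is an `M'`-th power in `F`, so `x ^ W = z ^ M'`, `z ∈ K` is a unit. So
`ξ = x z ^ (- M e)` has `ξ ^ W = 1`, and `ξ ≡ 1` modulo `N2` as `z ^ e ≡ 1`; so `ξ = 1`, `x = (z ^ e) ^ M`. -/
def S_CHEV : Prop := ∀ (K : Type) [Field K] [NumberField K] (M : ℕ), 0 < M →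
  ∃ N : ℕ, 0 < N ∧ ∀ x : (𝓞 K)ˣ, (N : 𝓞 K) ∣ (x : 𝓞 K) - 1 → ∃ z : (𝓞 K)ˣ, x = z ^ M

/-! ### Commutative rings which are finite over `ℤ` -/

/-- **RED.** The index set is the finite set of the minimal primes `P` of `R`. As `R` is torsion-free, the nonzero
integers are not zero divisors, so they are not in `P` (`Ideal.disjoint_nonZeroDivisors_of_mem_minimalPrimes`);
so `K_P = FractionRing (R ⧸ P)` is a number field, and `R → K_P` has integral values. The intersection of the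
minimal primes is the nilradical. -/
def S_RED : Prop := ∀ (R : Type) [CommRing R] [Module.Finite ℤ R],
  (∀ (m : ℤ) (x : R), m ≠ 0 → m • x = 0 → x = 0) →
    ∃ (ι : Type) (_ : Finite ι) (K : ι → Type) (_ : ∀ i, Field (K i)) (_ : ∀ i, NumberField (K i))
      (χ : ∀ i, R →+* 𝓞 (K i)), ∀ r : R, (∀ i, χ i r = 0) → IsNilpotent r

/-- **UNI** (from GL and EXT). Let `J` be the nilradical of `R`, `J ^ t = 0`. Apply EXT to `C = E`
(as a commutative group), `Γ N = {x ∈ E | N ∣ x - 1}`, `B k = {x ∈ E | x - 1 ∈ J ^ (k + 1)}`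
(`(Γ N)` has finite exponent as `R / N` is finite). For the
layers: `x ↦ x - 1` is a homomorphism of `B k` to `Q = J ^ (k+1) / J ^ (k+2)` with kernel `B (k+1)`; let
`s` be an exponent of the torsion subgroup of `R / J ^ (k+1)`; if `x ∈ B k` and `x - 1 = N s r` then `s r ∈ J ^ (k+1)`, so the
image of `x` in `Q` is in `N Q`; use GL. -/
def S_UNI : Prop := ∀ (R : Type) [CommRing R] [Module.Finite ℤ R] (E : Subgroup Rˣ),
  (∀ x ∈ E, IsNilpotent ((x : R) - 1)) → ∀ M : ℕ, 0 < M → ∃ N : ℕ, 0 < N ∧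
    ∀ x ∈ E, (N : R) ∣ (x : R) - 1 → ∃ y ∈ E, x = y ^ M

/-- **RING** (from CHEV, RED, UNI). Let `M` be given. Let `E₁` be the subgroup of the `x ∈ E` with all
`χ i x = 1` (so `x - 1` is nilpotent); UNI gives `N1` for `E₁` and `M`. Let `e` be the exponent of the units of `R / N1`.
Let `U = ∏ (𝓞 K_i)ˣ`, a finitely generated abelian group, `A` the image of `E` in `U`, `D` the group of the
`z ∈ U` with a power (exponent `> 0`) in `A`; `D / A` is finitely generated and torsion, let `d ≥ 1` kill it.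
CHEV for all `i` and the exponent `M e d` gives `N2`. Let `x ∈ E` be `1` modulo `N1 N2`. Then
`χ x = z ^ (M e d)` with `z ∈ U`, so `z ∈ D`, `z ^ d ∈ A`, `z ^ d = χ y` with `y ∈ E`, so
`x y ^ (- M e) ∈ E₁`, and it is `1` modulo `N1`, so it is `w ^ M`, `w ∈ E₁`; `x = (y ^ e w) ^ M`. -/
def S_RING : Prop := ∀ (R : Type) [CommRing R] [Module.Finite ℤ R],
  (∀ (m : ℤ) (x : R), m ≠ 0 → m • x = 0 → x = 0) → ∀ (E : Subgroup Rˣ) (M : ℕ), 0 < M →
    ∃ N : ℕ, 0 < N ∧ ∀ x ∈ E, (N : R) ∣ (x : R) - 1 → ∃ y ∈ E, x = y ^ M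

/-- **LIN** (from RING). The ring `R = centralizer (centralizer (range P))` of matrices
(`Subring.centralizer`) contains all `P x`, is commutative (`range P ⊆ centralizer (range P)` as `C` is
commutative, so `R ⊆ centralizer (range P)`, and the elements of `R` commute with those), it is a finite `ℤ`-module, and if
`N b ∈ R`, `N ≠ 0` then `b ∈ R`. So `N ∣ P x - 1` in `R`. Apply RING to the image `E` of `C` in `Rˣ`. -/
def S_LIN : Prop := ∀ (n : ℕ) (C : Type) [CommGroup C] (P : C →* Matrix (Fin n) (Fin n) ℤ) (M : ℕ),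
  0 < M → ∃ N : ℕ, 0 < N ∧ ∀ x : C, (∀ i j, (N : ℤ) ∣ (P x - 1) i j) → ∃ y : C, P x = P y ^ M

end Pool.Agent.Helper76x.OF
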