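import Pool.Agent.Helper76x.OF.Asm2

/-!
# Project OF (helper76): second set of pieces (separability, the groups `Inn ≤ E ≤ Aut (F_n)`)

Files `Pool/Agent/Helper76x/OF/<Name>.lean`, theorem `t_<NAME> : S_<NAME>` (or with the listed statements as
hypotheses), namespace `Pool.Agent.Helper76x.OF`.
-/

set_option autoImplicit false

namespace Pool.Agent.Helper76x.OF

/-- **UFG** (may assume RED, `t_RED` is on main). By RED `R → ∏ 𝓞 (K i)` (finite index set) has a nilpotent kernel; the units
of `∏ 𝓞 (K i)` are a finitely generated abelian group (Dirichlet, in Mathlib: `Monoid.FG (𝓞 K)ˣ`), so the image of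
`Rˣ` is finitely generated (subgroup of a finitely generated abelian group). The kernel consists of units `x` with `x - 1`
nilpotent; with the nilradical `J`, `J ^ t = 0` (`R` is noetherian), `B k = {x | x - 1 ∈ J ^ (k+1)}`, the map `x ↦ x - 1` is a
homomorphism from `B k` to `J ^ (k+1) / J ^ (k+2)`, finitely generated, with kernel `B (k+1)` (see UNI.lean). -/
def S_UFG : Prop := ∀ (R : Type) [CommRing R] [Module.Finite ℤ R],
  (∀ (m : ℤ) (x : R), m ≠ 0 → m • x = 0 → x = 0) → Group.FG Rˣ

/-- **ABGL** (from UFG; abelian subgroups of `GL_n (ℤ)` are finitely generated). The ring `R` of LIN.lean (bicommutant of the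
range of `P`); the image of `C` in `Rˣ` is finitely generated; lift generators. -/
def S_ABGL : Prop := ∀ (n : ℕ) (C : Type) [CommGroup C] (P : C →* Matrix (Fin n) (Fin n) ℤ),
  ∃ s : Finset C, ∀ x : C, ∃ y ∈ Subgroup.closure (s : Set C), P x = P y

/-- **FGX.** (1) the image of `f` is a finitely generated abelian group: lift generators. (2) Induction: `B k` is in
the closure of the union of the `s j`, `j ≥ k` (downwards from `t`). -/
def S_FGX : Prop :=
  (∀ (B Q : Type) [CommGroup B] [AddCommGroup Q] [Module.Finite ℤ Q] (f : B →* Multiplicative Q),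
    ∃ s : Finset B, ∀ x : B, ∃ y ∈ Subgroup.closure (s : Set B), f x = f y) ∧
  (∀ (C : Type) [CommGroup C] (B : ℕ → Subgroup C) (t : ℕ), Antitone B → B 0 = ⊤ → B t = ⊥ →
    (∀ k < t, ∃ s : Finset C, (s : Set C) ⊆ B k ∧ ∀ x ∈ B k, ∃ y ∈ Subgroup.closure (s : Set C),
      x * y⁻¹ ∈ B (k + 1)) → Group.FG C)

/-- **SEPAB.** Finitely generated abelian groups: if `C ≤ D` and `x ∉ C` there is a subgroup of finite index containing `C`
without `x` (`D / C` is a finitely generated abelian group, residually finite; Mathlib or library). -/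
def S_SEPAB : Prop := ∀ (D : Type) [CommGroup D] [Group.FG D] (C : Subgroup D) (x : D), x ∉ C →
  ∃ T : Subgroup D, C ≤ T ∧ T.FiniteIndex ∧ x ∉ T

/-- **EVAL** (the groups between `Inn (F_n)` and `Aut (F_n)`). May use `Pool.Agent.R387.TC.centre` (R387/TC/Step.lean; `n = m + 1`,
`i0 = ⟨0, _⟩ : Fin m`). Let `V₁` be the normal core of `V` in `E` (finite index in `E`), `M = {h | conj h ∈ V₁}` (normal in `F_n`, of finite
index). `centre` gives `K'` such that the elements central modulo `K'` are in `M`. `V₂ = {φ ∈ V₁ | φ` acts trivially on `F_n / K'}` has finite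
index in `E` (finitely many automorphisms of `F_n / K'`: the map `φ ↦ (i ↦ class of φ x_i)`, see `fin_AAct` in Asm.lean). Apply the hypothesis to
`T = V₂ Inn (F_n)`: there is `K₁`. `K = K₁ ⊓ K'`. If `φ ∈ E` acts trivially modulo `K` then `φ = v conj h` with `v ∈ V₂`, and `conj h` acts
trivially modulo `K'`, so `h ∈ M`, `conj h ∈ V`. -/
def S_EVAL : Prop := ∀ (n : ℕ), 2 ≤ n → ∀ (E V : Subgroup (MulAut (FreeGroup (Fin n)))),
  InnF n ≤ E → V.relIndex E ≠ 0 →
  (∀ T : Subgroup (MulAut (FreeGroup (Fin n))), InnF n ≤ T → T.relIndex E ≠ 0 →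
    ∃ K : Subgroup (FreeGroup (Fin n)), K.Characteristic ∧ K.FiniteIndex ∧
      ∀ φ ∈ E, InnMod K φ → φ ∈ T) →
  ∃ K : Subgroup (FreeGroup (Fin n)), K.Characteristic ∧ K.FiniteIndex ∧
    ∀ φ ∈ E, (∀ x, φ x * x⁻¹ ∈ K) → φ ∈ V

end Pool.Agent.Helper76x.OF
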